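import Pool.Agent.J4H75.CN.Core
import Pool.Agent.J4H75.PN.UBox

set_option autoImplicit false

/-! From the exponential sums to the boxes. -/

namespace Pool.Agent.J4H75.CN

open MeasureTheory Finset Filter Topology
open scoped Real
open Pool.Agent.J4H75.PN (ee norm_ee ee_add Cond uweyl)

/-- small exponential sums give equidistribution -/
theorem boxes0 {r : ℕ} (x : ℕ → Fin r → ℝ)
    (h : ∀ u : Fin r → ℤ, u ≠ 0 → ∀ lam : ℝ, 0 < lam → ∀ᶠ K : ℕ in atTop, ‖∑ k ∈ range K, ee (∑ i, u i * x k i)‖ ≤ lam * K) :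
    ∀ ε : ℝ, 0 < ε → ∀ᶠ K : ℕ in atTop, ∀ a b : Fin r → ℝ, (∀ i, 0 ≤ a i ∧ a i ≤ b i ∧ b i ≤ 1) →
      |(((range K).filter (fun k => ∀ i, a i ≤ Int.fract (x k i) ∧ Int.fract (x k i) < b i)).card : ℝ) / K -
        ∏ i, (b i - a i)| ≤ ε := by
  intro ε hε
  obtain ⟨L, hL0, hL⟩ := uweyl r ε hε
  have hLr : (0 : ℝ) < L := by exact_mod_cast hL0
  have h1 : ∀ᶠ K : ℕ in atTop, ∀ u ∈ Fintype.piFinset (fun _ : Fin r => Icc (-(L : ℤ)) L), u ≠ 0 →
      ‖∑ k ∈ range K, ee (∑ i, u i * x k i)‖ ≤ 1 / L * K := by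
    rw [Filter.eventually_all_finset]
    intro u _
    by_cases hu : u = 0
    · exact Eventually.of_forall fun K hK => absurd hu hK
    · filter_upwards [h u hu (1 / L) (by positivity)] with K hK _
      exact hK
  filter_upwards [h1, eventually_ge_atTop 1] with K h2 hK a b hab
  have hK0 : (0 : ℝ) < K := by exact_mod_cast hK
  have hC : Cond L (range K) x := by
    intro u hu huL
    have h4 := h2 u (by
      rw [Fintype.mem_piFinset]
      intro i
      exact Finset.mem_Icc.2 (abs_le.1 (huL i))) hu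
    rw [card_range]
    calc (L : ℝ) * ‖∑ k ∈ range K, ee (∑ i, u i * x k i)‖ ≤ L * (1 / L * K) := mul_le_mul_of_nonneg_left h4 hLr.le
      _ = K := by field_simp
  have h5 := hL (range K) x hC a b (fun i => (hab i).1) (fun i => (hab i).2.1) (fun i => (hab i).2.2)
  rw [card_range] at h5
  have h6 : ((Pool.Agent.J4H75.PN.box (range K) x a b).card : ℝ) =
      (((range K).filter (fun k => ∀ i, a i ≤ Int.fract (x k i) ∧ Int.fract (x k i) < b i)).card : ℝ) := by
    unfold Pool.Agent.J4H75.PN.box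
    congr!
  rw [h6] at h5
  have h7 : (((range K).filter (fun k => ∀ i, a i ≤ Int.fract (x k i) ∧ Int.fract (x k i) < b i)).card : ℝ) / K -
        ∏ i, (b i - a i) = ((((range K).filter (fun k => ∀ i, a i ≤ Int.fract (x k i) ∧ Int.fract (x k i) < b i)).card : ℝ) -
        (∏ i, (b i - a i)) * K) / K := by
    field_simp
  rw [h7, abs_div, abs_of_pos hK0, div_le_iff₀ hK0]
  exact h5

open Polynomial in
lemma comb_ne {q : ℝ} (hT : Transcendental ℚ q) {r : ℕ} {h : Fin r → ℤ} (hh : h ≠ 0) : ∑ i : Fin r, (h i : ℝ) * q ^ (i : ℕ) ≠ 0 := by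
  intro h0
  obtain ⟨P, hP⟩ : ∃ P : ℚ[X], P = ∑ i : Fin r, C (h i : ℚ) * X ^ (i : ℕ) := ⟨_, rfl⟩
  have h1 : P ≠ 0 := by
    intro hP0
    apply hh
    ext i
    have h2 := congrArg (fun F => Polynomial.coeff F (i : ℕ)) hP0
    rw [hP] at h2
    simp only [finsetSum_coeff, coeff_C_mul_X_pow, coeff_zero] at h2
    rw [Finset.sum_eq_single i] at h2
    · rw [if_pos rfl] at h2
      exact_mod_cast h2
    · intro j _ hj
      rw [if_neg]
      intro h3
      exact hj (Fin.ext h3.symm)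
    · intro h3
      exact absurd (Finset.mem_univ i) h3
  apply hT
  refine ⟨P, h1, ?_⟩
  rw [hP, map_sum, ← h0]
  refine Finset.sum_congr rfl fun i _ => ?_
  rw [map_mul, map_pow, aeval_X, aeval_C]
  simp

/-- equidistribution of the blocks -/
theorem equi {q : ℝ} (hT : Transcendental ℚ q) {ν : Measure ℝ}
    (hcore : ∀ θ : ℝ, θ ≠ 0 → ∀ w : ℕ → ℂ, (∀ n, ‖w n‖ ≤ 1) →
      ∀ᵐ x ∂ν, ∀ lam : ℝ, 0 < lam → ∀ᶠ N : ℕ in atTop, ‖∑ n ∈ range N, w n * ee (θ * q ^ n * x)‖ ≤ lam * N)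
    {a : ℕ → ℕ} (ha : StrictMono a) {C : ℝ} (hC : ∀ᶠ k : ℕ in atTop, (a k : ℝ) ≤ C * k) (r : ℕ) (y : ℕ → Fin r → ℝ) :
    ∀ᵐ x ∂ν, ∀ ε : ℝ, 0 < ε → ∀ᶠ K : ℕ in atTop, ∀ α γ : Fin r → ℝ, (∀ i, 0 ≤ α i ∧ α i ≤ γ i ∧ γ i ≤ 1) →
      |(((range K).filter (fun k => ∀ i : Fin r, α i ≤ Int.fract (x * q ^ (a k + i) + y k i) ∧
        Int.fract (x * q ^ (a k + i) + y k i) < γ i)).card : ℝ) / K - ∏ i, (γ i - α i)| ≤ ε := by
  have h1 : ∀ h : Fin r → ℤ, ∀ᵐ x ∂ν, h ≠ 0 → ∀ lam : ℝ, 0 < lam → ∀ᶠ K : ℕ in atTop,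
      ‖∑ k ∈ range K, ee (∑ i, h i * (x * q ^ (a k + i) + y k i))‖ ≤ lam * K := by
    intro h
    by_cases hh : h = 0
    · exact Eventually.of_forall fun x hx => absurd hh hx
    obtain ⟨θ, hθ⟩ : ∃ θ : ℝ, θ = ∑ i : Fin r, (h i : ℝ) * q ^ (i : ℕ) := ⟨_, rfl⟩
    have hθ0 : θ ≠ 0 := by rw [hθ]; exact comb_ne hT hh
    obtain ⟨w, hw⟩ : ∃ w : ℕ → ℂ, w = Function.extend a (fun k => ee (∑ i, h i * y k i)) 0 := ⟨_, rfl⟩
    have hwa : ∀ k, w (a k) = ee (∑ i, h i * y k i) := by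
      intro k
      rw [hw]
      exact ha.injective.extend_apply _ _ _
    have hw0 : ∀ n, (¬ ∃ k, a k = n) → w n = 0 := by
      intro n hn
      rw [hw, Function.extend_apply' _ _ _ hn]
      rfl
    have hw1 : ∀ n, ‖w n‖ ≤ 1 := by
      intro n
      by_cases hn : ∃ k, a k = n
      · obtain ⟨k, rfl⟩ := hn
        rw [hwa, norm_ee]
      · rw [hw0 n hn, norm_zero]
        norm_num
    filter_upwards [hcore θ hθ0 w hw1] with x hx _ lam hlam
    have hC1 : 0 < |C| + 1 := by positivity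
    have h2 := ha.tendsto_atTop.eventually (hx (lam / (|C| + 1)) (by positivity))
    filter_upwards [h2, hC] with K h3 h4
    have h5 : ∑ n ∈ range (a K), w n * ee (θ * q ^ n * x) = ∑ k ∈ range K, ee (∑ i, h i * (x * q ^ (a k + i) + y k i)) := by
      have h6 : (range K).image a ⊆ range (a K) := by
        intro n hn
        obtain ⟨k, hk, rfl⟩ := Finset.mem_image.1 hn
        exact Finset.mem_range.2 (ha (Finset.mem_range.1 hk))
      rw [← Finset.sum_subset h6, Finset.sum_image (fun k _ l _ hkl => ha.injective hkl)]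
      · refine Finset.sum_congr rfl fun k _ => ?_
        rw [hwa, ← ee_add]
        congr 1
        rw [hθ, Finset.sum_mul, Finset.sum_mul, ← Finset.sum_add_distrib]
        refine Finset.sum_congr rfl fun i _ => ?_
        rw [pow_add]
        ring
      · intro n hn hn2
        rw [hw0, zero_mul]
        rintro ⟨k, rfl⟩
        apply hn2
        exact Finset.mem_image.2 ⟨k, Finset.mem_range.2 (ha.lt_iff_lt.1 (Finset.mem_range.1 hn)), rfl⟩
    rw [h5] at h3
    refine h3.trans ?_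
    rw [div_mul_eq_mul_div, div_le_iff₀ hC1]
    have h7 : (a K : ℝ) ≤ (|C| + 1) * K := by
      refine h4.trans (mul_le_mul_of_nonneg_right ?_ (Nat.cast_nonneg K))
      linarith [le_abs_self C]
    calc lam * (a K : ℝ) ≤ lam * ((|C| + 1) * K) := mul_le_mul_of_nonneg_left h7 hlam.le
      _ = lam * K * (|C| + 1) := by ring
  rw [← ae_all_iff] at h1
  filter_upwards [h1] with x hx
  exact boxes0 (fun k i => x * q ^ (a k + i) + y k i) hx

end Pool.Agent.J4H75.CN
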