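import Pool.Agent.J4H75.CN.All
import Pool.Agent.J4H75.CN.Equi

set_option autoImplicit false

/-! Independent digits in a transcendental base. -/

namespace Pool.Agent.J4H75.CN

open MeasureTheory ProbabilityTheory Finset Filter Topology
open scoped Real ENNReal
open Pool.Agent.J4H75.PN (ee norm_ee ee_add)
open Pool.Agent.J4H40.Ca (dn dn_nn dn_half ee_cont digit_char)

/-- uniform decay implies the property `Few`, uniformly -/
lemma few_unif {q : ℝ} (hq : 1 < q) (T0 : ℕ → ℝ) {ν : Measure ℝ} [IsProbabilityMeasure ν]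
    (hT0 : ∀ (K : ℕ) (t : ℝ), T0 K ≤ |t| → Qf ν t ≤ 1 / ((K : ℝ) + 1)) :
    Few q (fun K => 2 * |T0 K| / (q - 1) + 1) ν := by
  intro K θ τ0 hθ
  simp only at hθ
  have hq1 : 0 < q - 1 := by linarith
  have hθ0 : 0 < |θ| := lt_of_lt_of_le (by positivity) hθ
  have hθ1 : 2 * |T0 K| < |θ| * (q - 1) := by
    have h2 : 2 * |T0 K| / (q - 1) < |θ| := by linarith
    rwa [div_lt_iff₀ hq1] at h2
  classical
  obtain ⟨S, hS⟩ : ∃ S : Finset ℕ, S = (range (K + 1)).filter fun m => |θ * q ^ m - τ0| < |T0 K| := ⟨_, rfl⟩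
  have hcard : S.card ≤ 1 := by
    rw [Finset.card_le_one]
    intro a ha b hb
    rw [hS, Finset.mem_filter] at ha hb
    by_contra hab
    have key : ∀ a b : ℕ, a < b → |θ * q ^ a - τ0| < |T0 K| → |θ * q ^ b - τ0| < |T0 K| → False := by
      intro a b hlt ha hb
      have h3 : |θ * q ^ b - θ * q ^ a| < 2 * |T0 K| := by
        have : θ * q ^ b - θ * q ^ a = (θ * q ^ b - τ0) - (θ * q ^ a - τ0) := by ring
        rw [this]
        refine (abs_sub _ _).trans_lt ?_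
        linarith
      have h4 : |θ| * (q - 1) ≤ |θ * q ^ b - θ * q ^ a| := by
        rw [← mul_sub, abs_mul]
        apply mul_le_mul_of_nonneg_left _ hθ0.le
        have h5 : q ^ b = q ^ a * q ^ (b - a) := by
          rw [← pow_add]
          congr 1
          omega
        have h6 : 1 ≤ q ^ a := one_le_pow₀ hq.le
        have h7 : q ≤ q ^ (b - a) := by
          calc q = q ^ 1 := (pow_one q).symm
            _ ≤ q ^ (b - a) := pow_le_pow_right₀ hq.le (by omega)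
        rw [h5]
        refine le_trans ?_ (le_abs_self _)
        nlinarith
      linarith
    rcases lt_or_gt_of_ne hab with h2 | h2
    · exact key a b h2 ha.2 hb.2
    · exact key b a h2 hb.2 ha.2
  have hle : ∀ m ∈ range (K + 1), ‖∫ y, ee ((θ * q ^ m - τ0) * y) ∂ν‖ ≤ (if m ∈ S then (1 : ℝ) else 0) + 1 / ((K : ℝ) + 1) := by
    intro m hm
    have hK0 : (0 : ℝ) < 1 / ((K : ℝ) + 1) := by positivity
    by_cases h2 : m ∈ S
    · rw [if_pos h2]
      have : ‖∫ y, ee ((θ * q ^ m - τ0) * y) ∂ν‖ ≤ 1 := Qf_le _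
      linarith
    · rw [if_neg h2, zero_add]
      rw [hS, Finset.mem_filter] at h2
      push Not at h2
      exact hT0 K _ ((le_abs_self _).trans (h2 hm))
  refine (Finset.sum_le_sum hle).trans ?_
  rw [Finset.sum_add_distrib, Finset.sum_const, card_range, nsmul_eq_mul, Finset.sum_ite_mem, Finset.sum_const,
    nsmul_eq_mul, mul_one]
  have c1 : (((range (K + 1) ∩ S).card : ℕ) : ℝ) ≤ 1 := by
    have h1 := (Finset.card_le_card (Finset.inter_subset_right (s₁ := range (K + 1)) (s₂ := S))).trans hcard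
    exact_mod_cast h1
  have c2 : ((K + 1 : ℕ) : ℝ) * (1 / ((K : ℝ) + 1)) = 1 := by
    push_cast
    field_simp
  linarith

variable {Ω : Type*} {mΩ : MeasurableSpace Ω} {μ : Measure Ω}

/-- the bound for the characteristic function by the sum of the squares of the distances -/
lemma vl_char_sum [IsProbabilityMeasure μ] {β : ℝ} (hβ : 1 < β) {Y : ℕ → Ω → ℝ} (hY : ∀ j, Measurable (Y j))
    (hi : iIndepFun Y μ) {D : ℝ} (hD : ∀ j ω, |Y j ω| ≤ D) {c u : ℝ} (hc0 : 0 < c) (hu : 0 < u) {H : ℕ}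
    (hc : ∀ j, ∃ (v : ℝ) (k : ℕ), 1 ≤ k ∧ k ≤ H ∧ c ≤ μ.real (Y j ⁻¹' {v}) ∧ c ≤ μ.real (Y j ⁻¹' {v + k * u}))
    (τ : ℝ) (F : Finset ℕ) :
    ‖∫ ω, ee (τ * vl β Y ω) ∂μ‖ ≤
      Real.exp (-(4 * c / (H.factorial : ℝ) ^ 2 * ∑ j ∈ F, dn (H.factorial * u * τ / β ^ (j + 1)) ^ 2)) := by
  refine (vl_char hβ hY hi hD τ F).trans ?_
  rw [Finset.mul_sum, ← Finset.sum_neg_distrib, Real.exp_sum]
  refine Finset.prod_le_prod (fun j _ => norm_nonneg _) fun j hj => ?_
  obtain ⟨v, k, hk1, hkH, h1, h2⟩ := hc j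
  have hG : 1 ≤ H.factorial := Nat.factorial_pos H
  refine (digit_char (hY j) hc0.le hk1 (Nat.dvd_factorial hk1 hkH) hG h1 h2 hu _).trans ?_
  have h5 : (H.factorial : ℝ) * u * (τ / β ^ (j + 1)) = H.factorial * u * τ / β ^ (j + 1) := by ring
  rw [h5]
  have h6 := Real.add_one_le_exp (-(4 * c / (H.factorial : ℝ) ^ 2 * dn (H.factorial * u * τ / β ^ (j + 1)) ^ 2))
  refine le_trans (le_of_eq ?_) h6
  ring

/-- the decay of the characteristic function in a transcendental base -/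
lemma vl_decay {β : ℝ} (hβ : 1 < β) (hβT : ¬ IsAlgebraic ℚ β) {c u : ℝ} (hc0 : 0 < c) (hu : 0 < u) {H : ℕ} {ε : ℝ}
    (hε : 0 < ε) : ∃ T0 : ℝ, ∀ {Ω : Type*} {mΩ : MeasurableSpace Ω} {μ : Measure Ω} [IsProbabilityMeasure μ]
    {Y : ℕ → Ω → ℝ} (hY : ∀ j, Measurable (Y j)) (hi : iIndepFun Y μ) {D : ℝ} (hD : ∀ j ω, |Y j ω| ≤ D)
    (hc : ∀ j, ∃ (v : ℝ) (k : ℕ), 1 ≤ k ∧ k ≤ H ∧ c ≤ μ.real (Y j ⁻¹' {v}) ∧ c ≤ μ.real (Y j ⁻¹' {v + k * u})) (t : ℝ),
    T0 ≤ |t| → ‖∫ ω, ee (|t| * vl β Y ω) ∂μ‖ ≤ ε := by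
  have hβ0 : 0 < β := by linarith
  have hF0 : (0 : ℝ) < H.factorial := by exact_mod_cast Nat.factorial_pos H
  obtain ⟨A, hA⟩ : ∃ A : ℝ, A = 4 * c / (H.factorial : ℝ) ^ 2 := ⟨_, rfl⟩
  have hA0 : 0 < A := by rw [hA]; positivity
  obtain ⟨J, hJ⟩ := tr_len hβ hβT (-Real.log ε / A)
  refine ⟨β ^ (J + 1) / (H.factorial * u), ?_⟩
  intro Ω mΩ μ _ Y hY hi D hD hc t ht
  obtain ⟨s, hs⟩ : ∃ s : ℝ, s = H.factorial * u * |t| := ⟨_, rfl⟩
  have ht1 : β ^ (J + 1) ≤ s := by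
    rw [div_le_iff₀ (by positivity)] at ht
    rw [hs]
    linarith
  have ht2 : 1 ≤ s := (one_le_pow₀ hβ.le).trans ht1
  obtain ⟨n, hn1, hn2⟩ := exists_nat_pow_near ht2 hβ
  have hnJ : J + 1 ≤ n := by
    by_contra h1
    push Not at h1
    have h2 : β ^ (n + 1) ≤ β ^ (J + 1) := pow_le_pow_right₀ hβ.le (by omega)
    linarith
  obtain ⟨x, hx⟩ : ∃ x : ℝ, x = s / β ^ n := ⟨_, rfl⟩
  have hxm : x ∈ Set.Icc (1 : ℝ) β := by
    have hp : 0 < β ^ n := pow_pos hβ0 n
    rw [hx]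
    constructor
    · rw [le_div_iff₀ hp, one_mul]
      exact hn1
    · rw [div_le_iff₀ hp, ← pow_succ']
      exact hn2.le
  have h1 := hJ x hxm
  have h2 : ∑ j ∈ range J, dn (x * β ^ j) ^ 2 =
      ∑ i ∈ (range J).image (fun j => n - 1 - j), dn (H.factorial * u * |t| / β ^ (i + 1)) ^ 2 := by
    rw [Finset.sum_image]
    · refine Finset.sum_congr rfl fun j hj => ?_
      have hj' := Finset.mem_range.1 hj
      congr 2
      rw [hx, hs, div_mul_eq_mul_div, div_eq_div_iff (pow_pos hβ0 _).ne' (pow_pos hβ0 _).ne', mul_assoc, ← pow_add]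
      congr 2
      omega
    · intro i hi j hj hij
      rw [Finset.mem_coe, Finset.mem_range] at hi hj
      simp only at hij
      omega
  refine (vl_char_sum hβ hY hi hD hc0 hu hc |t| ((range J).image fun j => n - 1 - j)).trans ?_
  rw [← h2, ← hA, ← Real.le_log_iff_exp_le hε]
  rw [div_lt_iff₀ hA0] at h1
  linarith

/-- the layers from the property `Few` of the tails -/
theorem pre_dig0 {Ω : Type} {mΩ : MeasurableSpace Ω} {μ : Measure Ω} [IsProbabilityMeasure μ] {β : ℝ} (hβ : 1 < β)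
    {q : ℝ} {Y : ℕ → Ω → ℝ} (hY : ∀ j, Measurable (Y j))
    (hi : iIndepFun Y μ) {D : ℝ} (hD : ∀ j ω, |Y j ω| ≤ D) {T : ℕ → ℝ}
    (hTT : ∀ G, Few q T (μ.map (vl β fun j => Y (G + j)))) :
    ∃ D' : ℝ, 0 ≤ D' ∧ ∀ G, Pre β q T D' G (μ.map (vl β Y)) := by
  have hβ0 : 0 < β := by linarith
  have hD0 : (0 : ℝ) ≤ D := by
    have : Nonempty Ω := by
      by_contra h
      rw [not_nonempty_iff] at h
      have h1 : μ Set.univ = 1 := measure_univ
      rw [Set.univ_eq_empty_iff.2 h, measure_empty] at h1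
      exact zero_ne_one h1
    exact (abs_nonneg _).trans (hD 0 this.some)
  refine ⟨D / (β - 1), div_nonneg hD0 (by linarith), ?_⟩
  intro G
  have hYG : ∀ j, Measurable ((fun j => Y (G + j)) j) := fun j => hY _
  have hDG : ∀ j ω, |(fun j => Y (G + j)) j ω| ≤ D := fun j ω => hD _ _
  have hiG : iIndepFun (fun j => Y (G + j)) μ := hi.precomp (add_right_injective G)
  have hR : Measurable (vl β fun j => Y (G + j)) := vl_meas hβ hYG hDG
  have hV : Measurable fun ω => ∑ j ∈ range G, Y j ω / β ^ (j + 1) :=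
    Finset.measurable_fun_sum _ fun j _ => (hY j).div_const _
  have hRp : IsProbabilityMeasure (μ.map (vl β fun j => Y (G + j))) := Measure.isProbabilityMeasure_map hR.aemeasurable
  refine ⟨Ω, mΩ, μ, fun ω => ∑ j ∈ range G, Y j ω / β ^ (j + 1), fun _ => μ.map (vl β fun j => Y (G + j)), ?_, ?_, ?_, ?_, ?_⟩
  · intro ω
    exact psum_abs hβ hD ω G
  · intro _
    exact hRp
  · intro _
    exact (ae_map_iff (p := fun y : ℝ => |y| ≤ D / (β - 1)) hR.aemeasurable
      (measurableSet_le continuous_abs.measurable measurable_const)).2 (Eventually.of_forall fun ω => vl_abs hβ hDG ω)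
  · intro _
    exact hTT G
  · intro f hf
    rw [lintegral_map hf (vl_meas hβ hY hD)]
    have h1 := lin_split (μ := μ) hV hR (vl_indep hβ hY hi hD G) (F := fun z => f (z.1 + z.2 / β ^ G))
      (hf.comp (measurable_fst.add (measurable_snd.div_const _)))
    simp only at h1
    rw [← h1]
    refine lintegral_congr fun ω => ?_
    rw [vl_split hβ hD G ω]

/-- the layers of a random number with independent digits in any real base -/
theorem pre_dig_all {Ω : Type} {mΩ : MeasurableSpace Ω} {μ : Measure Ω} [IsProbabilityMeasure μ] {β : ℝ} (hβ : 1 < β)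
    {q : ℝ} (hq : 1 < q) (hT : Transcendental ℚ q) {Y : ℕ → Ω → ℝ} (hY : ∀ j, Measurable (Y j))
    (hi : iIndepFun Y μ) {D : ℝ} (hD : ∀ j ω, |Y j ω| ≤ D) {c u : ℝ} (hc0 : 0 < c) (hu : 0 < u) {H : ℕ}
    (hc : ∀ j, ∃ (v : ℝ) (k : ℕ), 1 ≤ k ∧ k ≤ H ∧ c ≤ μ.real (Y j ⁻¹' {v}) ∧ c ≤ μ.real (Y j ⁻¹' {v + k * u})) :
    ∃ (T : ℕ → ℝ) (D' : ℝ), 0 ≤ D' ∧ ∀ G, Pre β q T D' G (μ.map (vl β Y)) := by
  by_cases hβA : IsAlgebraic ℚ β
  · exact pre_dig hβ hβA hq hT hY hi hD hc0 hu hc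
  · choose T0 hT0 using fun K : ℕ => vl_decay.{0} hβ hβA hc0 hu (H := H) (show (0 : ℝ) < 1 / ((K : ℝ) + 1) by positivity)
    refine ⟨fun K => 2 * |T0 K| / (q - 1) + 1, ?_⟩
    apply pre_dig0 hβ hY hi hD
    intro G
    have hYG : ∀ j, Measurable ((fun j => Y (G + j)) j) := fun j => hY _
    have hDG : ∀ j ω, |(fun j => Y (G + j)) j ω| ≤ D := fun j ω => hD _ _
    have hiG : iIndepFun (fun j => Y (G + j)) μ := hi.precomp (add_right_injective G)
    have hR : Measurable (vl β fun j => Y (G + j)) := vl_meas hβ hYG hDG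
    have hRp : IsProbabilityMeasure (μ.map (vl β fun j => Y (G + j))) := Measure.isProbabilityMeasure_map hR.aemeasurable
    apply few_unif hq T0
    intro K t ht
    rw [← Qf_abs]
    have hcn : Continuous fun y : ℝ => ee (|t| * y) := ee_cont.comp (continuous_const.mul continuous_id)
    unfold Qf
    rw [integral_map hR.aemeasurable hcn.aestronglyMeasurable]
    exact hT0 K hYG hiG hDG (fun j => hc _) t ht

end Pool.Agent.J4H75.CN
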