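import Pool.Agent.J4H75.CN.Dig
import Pool.Agent.J4H75.CN.Equi
import Pool.Agent.H340R2.LW

set_option autoImplicit false

/-! The theorem for independent digits. -/

namespace Pool.Agent.J4H75.CN

open MeasureTheory ProbabilityTheory Finset Filter Topology

lemma base_tr {q : ℝ} (h : q = Real.pi ∨ q = Real.exp 1 ∨ Transcendental ℚ q) : Transcendental ℚ q := by
  rcases h with rfl | rfl | h
  · exact Pool.Agent.H340R2.LW.transcendental_pi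
  · exact Pool.Agent.H340R2.LW.transcendental_exp_one
  · exact h

theorem main_dig {Ω : Type} {mΩ : MeasurableSpace Ω} {μ : Measure Ω} [IsProbabilityMeasure μ] {β : ℝ} (hβ : 1 < β)
    (hβA : IsAlgebraic ℚ β) {Y : ℕ → Ω → ℝ} (hY : ∀ j, Measurable (Y j))
    (hi : iIndepFun Y μ) {D : ℝ} (hD : ∀ j ω, |Y j ω| ≤ D) {c u : ℝ} (hc0 : 0 < c) (hu : 0 < u) {H : ℕ}
    (hc : ∀ j, ∃ (v : ℝ) (k : ℕ), 1 ≤ k ∧ k ≤ H ∧ c ≤ μ.real (Y j ⁻¹' {v}) ∧ c ≤ μ.real (Y j ⁻¹' {v + k * u}))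
    {g : ℝ → ℝ} (hg : ContDiff ℝ 1 g) (h0 : ∀ x, deriv g x ≠ 0) {q : ℝ} (hq : 1 < q) (hT : Transcendental ℚ q)
    {a : ℕ → ℕ} (ha : StrictMono a) {C : ℝ} (hC : ∀ᶠ k : ℕ in atTop, (a k : ℝ) ≤ C * k) (r : ℕ) (y : ℕ → Fin r → ℝ) :
    ∀ᵐ ω ∂μ, ∀ ε : ℝ, 0 < ε → ∀ᶠ K : ℕ in atTop, ∀ α γ : Fin r → ℝ, (∀ i, 0 ≤ α i ∧ α i ≤ γ i ∧ γ i ≤ 1) →
      |(((range K).filter (fun k => ∀ i : Fin r, α i ≤ Int.fract (g (vl β Y ω) * q ^ (a k + i) + y k i) ∧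
        Int.fract (g (vl β Y ω) * q ^ (a k + i) + y k i) < γ i)).card : ℝ) / K - ∏ i, (γ i - α i)| ≤ ε := by
  obtain ⟨T, D', hD', hP⟩ := pre_dig hβ hβA hq hT hY hi hD hc0 hu hc
  have hX := vl_meas hβ hY hD
  have hXp : IsProbabilityMeasure (μ.map (vl β Y)) := Measure.isProbabilityMeasure_map hX.aemeasurable
  have h1 := equi hT (core_pre hβ hq hD' hP hg h0) ha hC r y
  have h2 := ae_of_ae_map hg.continuous.measurable.aemeasurable h1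
  exact ae_of_ae_map hX.aemeasurable h2

end Pool.Agent.J4H75.CN
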