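import Pool.Agent.J4H75.CN.DigT
import Pool.Agent.J4H75.CN.Main

set_option autoImplicit false

/-! Localization: functions which are continuously differentiable near almost every point. The theorem for random
multiples. -/

namespace Pool.Agent.J4H75.CN

open MeasureTheory ProbabilityTheory Filter Topology Set

lemma cont_deriv {g : ℝ → ℝ} {x : ℝ} (h1 : ContDiffAt ℝ 1 g x) : ContinuousAt (deriv g) x := by
  have h5 : ContDiffAt ℝ 0 (fderiv ℝ g) x := h1.fderiv_right (by norm_num)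
  have h6 : ContinuousAt (fun y => fderiv ℝ g y 1) x := h5.continuousAt.clm_apply continuousAt_const
  exact h6

lemma good_open (g : ℝ → ℝ) : IsOpen {x | ContDiffAt ℝ 1 g x ∧ deriv g x ≠ 0} := by
  rw [isOpen_iff_mem_nhds]
  rintro x ⟨h1, h2⟩
  have h3 := h1.eventually (by simp)
  filter_upwards [h3, (cont_deriv h1).eventually_ne h2] with y h5 h6
  exact ⟨h5, h6⟩

lemma ext_fun {g : ℝ → ℝ} {a b : ℝ} (hab : a < b) (h : ∀ x ∈ Icc a b, ContDiffAt ℝ 1 g x ∧ deriv g x ≠ 0) :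
    ∃ G : ℝ → ℝ, ContDiff ℝ 1 G ∧ (∀ x, deriv G x ≠ 0) ∧ ∀ x ∈ Icc a b, G x = g x := by
  have hc : ContinuousOn (deriv g) (Icc a b) := fun x hx => (cont_deriv (h x hx).1).continuousWithinAt
  obtain ⟨φ, hφ⟩ : ∃ φ : ℝ → ℝ, φ = IccExtend hab.le ((Icc a b).domRestrict (deriv g)) := ⟨_, rfl⟩
  have hφc : Continuous φ := by
    rw [hφ]
    exact (continuousOn_iff_continuous_domRestrict.1 hc).Icc_extend'
  have hφ0 : ∀ x, φ x ≠ 0 := by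
    intro x
    rw [hφ]
    exact (h _ (projIcc a b hab.le x).2).2
  have hφe : ∀ x ∈ Icc a b, φ x = deriv g x := by
    intro x hx
    rw [hφ, IccExtend_of_mem hab.le _ hx]
    rfl
  have hd : ∀ x, HasDerivAt (fun x => g a + ∫ t in a..x, φ t) (φ x) x := by
    intro x
    exact (intervalIntegral.integral_hasDerivAt_right (hφc.intervalIntegrable _ _)
      (hφc.stronglyMeasurableAtFilter _ _) hφc.continuousAt).const_add _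
  refine ⟨fun x => g a + ∫ t in a..x, φ t, ?_, ?_, ?_⟩
  · rw [contDiff_one_iff_deriv]
    refine ⟨fun x => (hd x).differentiableAt, ?_⟩
    have : deriv (fun x => g a + ∫ t in a..x, φ t) = φ := funext fun x => (hd x).deriv
    rw [this]
    exact hφc
  · intro x
    rw [(hd x).deriv]
    exact hφ0 x
  · intro x hx
    have h1 : ∫ t in a..x, φ t = g x - g a := by
      apply intervalIntegral.integral_eq_sub_of_hasDerivAt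
      · intro t ht
        rw [uIcc_of_le hx.1] at ht
        have ht' : t ∈ Icc a b := ⟨ht.1, ht.2.trans hx.2⟩
        rw [hφe t ht']
        exact ((h t ht').1.differentiableAt (by norm_num)).hasDerivAt
      · exact hφc.intervalIntegrable _ _
    simp only [h1]
    ring

/-- localization -/
theorem loc {Ω : Type} {mΩ : MeasurableSpace Ω} {μ : Measure Ω} {X : Ω → ℝ} {g : ℝ → ℝ} {Q : ℝ → Prop}
    (hQ : ∀ G : ℝ → ℝ, ContDiff ℝ 1 G → (∀ x, deriv G x ≠ 0) → ∀ᵐ ω ∂μ, Q (G (X ω)))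
    (hg : ∀ᵐ ω ∂μ, ContDiffAt ℝ 1 g (X ω) ∧ deriv g (X ω) ≠ 0) : ∀ᵐ ω ∂μ, Q (g (X ω)) := by
  classical
  have h1 : ∀ z : ℚ × ℚ, ∃ G : ℝ → ℝ, ContDiff ℝ 1 G ∧ (∀ x, deriv G x ≠ 0) ∧
      ((((z.1 : ℚ) : ℝ) < ((z.2 : ℚ) : ℝ) ∧ ∀ x ∈ Icc ((z.1 : ℚ) : ℝ) ((z.2 : ℚ) : ℝ), ContDiffAt ℝ 1 g x ∧ deriv g x ≠ 0) →
        ∀ x ∈ Icc ((z.1 : ℚ) : ℝ) ((z.2 : ℚ) : ℝ), G x = g x) := by
    intro z
    by_cases hz : ((z.1 : ℚ) : ℝ) < ((z.2 : ℚ) : ℝ) ∧ ∀ x ∈ Icc ((z.1 : ℚ) : ℝ) ((z.2 : ℚ) : ℝ), ContDiffAt ℝ 1 g x ∧ deriv g x ≠ 0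
    · obtain ⟨G, hG1, hG2, hG3⟩ := ext_fun hz.1 hz.2
      exact ⟨G, hG1, hG2, fun _ => hG3⟩
    · refine ⟨fun x => x, contDiff_id, fun x => ?_, fun h => absurd h hz⟩
      rw [deriv_id'']
      exact one_ne_zero
  choose G hG1 hG2 hG3 using h1
  have h2 : ∀ᵐ ω ∂μ, ∀ z, Q (G z (X ω)) := ae_all_iff.2 fun z => hQ (G z) (hG1 z) (hG2 z)
  filter_upwards [h2, hg] with ω h3 h4
  obtain ⟨ε, hε, hball⟩ := Metric.isOpen_iff.1 (good_open g) (X ω) h4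
  obtain ⟨a, ha1, ha2⟩ := exists_rat_btwn (show X ω - ε < X ω by linarith)
  obtain ⟨b, hb1, hb2⟩ := exists_rat_btwn (show X ω < X ω + ε by linarith)
  have h5 : ∀ x ∈ Icc ((a : ℚ) : ℝ) ((b : ℚ) : ℝ), ContDiffAt ℝ 1 g x ∧ deriv g x ≠ 0 := by
    intro x hx
    apply hball
    rw [Metric.mem_ball, Real.dist_eq, abs_lt]
    constructor
    · linarith [hx.1]
    · linarith [hx.2]
  have h6 := hG3 (a, b) ⟨ha2.trans hb1, h5⟩ (X ω) ⟨ha2.le, hb1.le⟩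
  rw [← h6]
  exact h3 (a, b)

/-- from exponential sums for all `G` to the theorem for `g` -/
theorem rand_core {Ω : Type} {mΩ : MeasurableSpace Ω} {μ : Measure Ω} [IsProbabilityMeasure μ] {X : Ω → ℝ}
    (hX : Measurable X) {q : ℝ} (hT : Transcendental ℚ q)
    (hE : ∀ G : ℝ → ℝ, ContDiff ℝ 1 G → (∀ x, deriv G x ≠ 0) → ∀ θ : ℝ, θ ≠ 0 → ∀ w : ℕ → ℂ, (∀ n, ‖w n‖ ≤ 1) →
      ∀ᵐ x ∂((μ.map X).map G), ∀ lam : ℝ, 0 < lam → ∀ᶠ N : ℕ in atTop,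
        ‖∑ n ∈ Finset.range N, w n * Pool.Agent.J4H75.PN.ee (θ * q ^ n * x)‖ ≤ lam * N)
    {g : ℝ → ℝ} (hg : ∀ᵐ ω ∂μ, ContDiffAt ℝ 1 g (X ω) ∧ deriv g (X ω) ≠ 0)
    {a : ℕ → ℕ} (ha : StrictMono a) {C : ℝ} (hC : ∀ᶠ k : ℕ in atTop, (a k : ℝ) ≤ C * k) (r : ℕ) (y : ℕ → Fin r → ℝ) :
    ∀ᵐ ω ∂μ, ∀ ε : ℝ, 0 < ε → ∀ᶠ K : ℕ in atTop, ∀ α γ : Fin r → ℝ, (∀ i, 0 ≤ α i ∧ α i ≤ γ i ∧ γ i ≤ 1) →
      |(((Finset.range K).filter (fun k => ∀ i : Fin r, α i ≤ Int.fract (g (X ω) * q ^ (a k + i) + y k i) ∧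
        Int.fract (g (X ω) * q ^ (a k + i) + y k i) < γ i)).card : ℝ) / K - ∏ i, (γ i - α i)| ≤ ε := by
  have hXp : IsProbabilityMeasure (μ.map X) := Measure.isProbabilityMeasure_map hX.aemeasurable
  refine loc (Q := fun ξ => ∀ ε : ℝ, 0 < ε → ∀ᶠ K : ℕ in atTop, ∀ α γ : Fin r → ℝ, (∀ i, 0 ≤ α i ∧ α i ≤ γ i ∧ γ i ≤ 1) →
      |(((Finset.range K).filter (fun k => ∀ i : Fin r, α i ≤ Int.fract (ξ * q ^ (a k + i) + y k i) ∧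
        Int.fract (ξ * q ^ (a k + i) + y k i) < γ i)).card : ℝ) / K - ∏ i, (γ i - α i)| ≤ ε) ?_ hg
  intro G hG hG0
  have h1 := equi hT (hE G hG hG0) ha hC r y
  have h2 := ae_of_ae_map hG.continuous.measurable.aemeasurable h1
  exact ae_of_ae_map hX.aemeasurable h2

/-- type (A): independent digits in a real base -/
theorem rand_dig {Ω : Type} {mΩ : MeasurableSpace Ω} {μ : Measure Ω} [IsProbabilityMeasure μ] {β : ℝ} (hβ : 1 < β)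
    {Y : ℕ → Ω → ℝ} (hY : ∀ j, Measurable (Y j))
    (hi : iIndepFun Y μ) {D : ℝ} (hD : ∀ j ω, |Y j ω| ≤ D) {c u : ℝ} (hc0 : 0 < c) (hu : 0 < u) {H : ℕ}
    (hc : ∀ j, ∃ (v : ℝ) (k : ℕ), 1 ≤ k ∧ k ≤ H ∧ c ≤ μ.real (Y j ⁻¹' {v}) ∧ c ≤ μ.real (Y j ⁻¹' {v + k * u}))
    {q : ℝ} (hq : 1 < q) (hT : Transcendental ℚ q)
    {g : ℝ → ℝ} (hg : ∀ᵐ ω ∂μ, ContDiffAt ℝ 1 g (vl β Y ω) ∧ deriv g (vl β Y ω) ≠ 0)
    {a : ℕ → ℕ} (ha : StrictMono a) {C : ℝ} (hC : ∀ᶠ k : ℕ in atTop, (a k : ℝ) ≤ C * k) (r : ℕ) (y : ℕ → Fin r → ℝ) :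
    ∀ᵐ ω ∂μ, ∀ ε : ℝ, 0 < ε → ∀ᶠ K : ℕ in atTop, ∀ α γ : Fin r → ℝ, (∀ i, 0 ≤ α i ∧ α i ≤ γ i ∧ γ i ≤ 1) →
      |(((Finset.range K).filter (fun k => ∀ i : Fin r, α i ≤ Int.fract (g (vl β Y ω) * q ^ (a k + i) + y k i) ∧
        Int.fract (g (vl β Y ω) * q ^ (a k + i) + y k i) < γ i)).card : ℝ) / K - ∏ i, (γ i - α i)| ≤ ε := by
  obtain ⟨T, D', hD', hP⟩ := pre_dig_all hβ hq hT hY hi hD hc0 hu hc
  have hX := vl_meas hβ hY hD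
  have hXp : IsProbabilityMeasure (μ.map (vl β Y)) := Measure.isProbabilityMeasure_map hX.aemeasurable
  exact rand_core hX hT (fun G hG hG0 => core_pre hβ hq hD' hP hG hG0) hg ha hC r y

/-- type (B): self-similar laws -/
theorem rand_ss {Ω : Type} {mΩ : MeasurableSpace Ω} {μ : Measure Ω} [IsProbabilityMeasure μ] {X : Ω → ℝ}
    (hX : Measurable X) {ι : Type} [Fintype ι] {p r v : ι → ℝ} (hp : ∀ i, 0 < p i) (hr : ∀ i, r i ≠ 0 ∧ |r i| < 1)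
    (hν : μ.map X = ∑ i, ENNReal.ofReal (p i) • (μ.map X).map (fun x => r i * x + v i))
    (hne : ∃ i j, v i * (1 - r j) ≠ v j * (1 - r i))
    {q : ℝ} (hq : 1 < q) (hT : Transcendental ℚ q)
    {g : ℝ → ℝ} (hg : ∀ᵐ ω ∂μ, ContDiffAt ℝ 1 g (X ω) ∧ deriv g (X ω) ≠ 0)
    {a : ℕ → ℕ} (ha : StrictMono a) {C : ℝ} (hC : ∀ᶠ k : ℕ in atTop, (a k : ℝ) ≤ C * k) (s : ℕ) (y : ℕ → Fin s → ℝ) :
    ∀ᵐ ω ∂μ, ∀ ε : ℝ, 0 < ε → ∀ᶠ K : ℕ in atTop, ∀ α γ : Fin s → ℝ, (∀ i, 0 ≤ α i ∧ α i ≤ γ i ∧ γ i ≤ 1) →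
      |(((Finset.range K).filter (fun k => ∀ i : Fin s, α i ≤ Int.fract (g (X ω) * q ^ (a k + i) + y k i) ∧
        Int.fract (g (X ω) * q ^ (a k + i) + y k i) < γ i)).card : ℝ) / K - ∏ i, (γ i - α i)| ≤ ε := by
  have hXp : IsProbabilityMeasure (μ.map X) := Measure.isProbabilityMeasure_map hX.aemeasurable
  have h : SSim p r v (μ.map X) := ⟨hp, fun i => (hr i).1, fun i => (hr i).2, hν⟩
  exact rand_core hX hT (fun G hG hG0 => main_ss h hne hq hT hG hG0) hg ha hC s y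

end Pool.Agent.J4H75.CN
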