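import Pool.Agent.J4H40.Ed

set_option autoImplicit false

/-! The second moment of a block of an exponential sum. -/

namespace Pool.Agent.J4H75.CN

open MeasureTheory Finset Filter Topology
open scoped Real ComplexConjugate
open Pool.Agent.J4H75.PN (ee norm_ee ee_add)
open Pool.Agent.J4H40.Ca (ee_conj ee_cont)

variable {ρ : Measure ℝ}

lemma ee_in [IsProbabilityMeasure ρ] (t : ℝ) : Integrable (fun y => ee (t * y)) ρ := by
  apply Integrable.of_bound (C := 1)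
  · exact (ee_cont.measurable.comp (measurable_id.const_mul t)).aestronglyMeasurable
  · filter_upwards with y
    rw [norm_ee]

lemma sec [IsProbabilityMeasure ρ] (S : Finset ℕ) (w : ℕ → ℂ) (hw : ∀ n, ‖w n‖ ≤ 1) (t : ℕ → ℝ) :
    ∫ y, ‖∑ n ∈ S, w n * ee (t n * y)‖ ^ 2 ∂ρ ≤ ∑ n ∈ S, ∑ m ∈ S, ‖∫ y, ee ((t m - t n) * y) ∂ρ‖ := by
  have h1 : ∀ y, (((‖∑ n ∈ S, w n * ee (t n * y)‖ ^ 2 : ℝ)) : ℂ) =
      ∑ n ∈ S, ∑ m ∈ S, w m * conj (w n) * ee ((t m - t n) * y) := by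
    intro y
    have h2 := RCLike.mul_conj (∑ n ∈ S, w n * ee (t n * y))
    rw [Complex.ofReal_pow]
    rw [← show ((‖∑ n ∈ S, w n * ee (t n * y)‖ : ℂ)) = (RCLike.ofReal ‖∑ n ∈ S, w n * ee (t n * y)‖ : ℂ) from rfl] at h2
    rw [← h2, map_sum, Finset.sum_mul_sum, Finset.sum_comm]
    refine Finset.sum_congr rfl fun n _ => Finset.sum_congr rfl fun m _ => ?_
    have h3 : ee ((t m - t n) * y) = ee (t m * y) * ee (-(t n * y)) := by
      rw [← ee_add]
      congr 1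
      ring
    rw [map_mul, ee_conj, h3]
    ring
  have h2 : ((∫ y, ‖∑ n ∈ S, w n * ee (t n * y)‖ ^ 2 ∂ρ : ℝ) : ℂ) =
      ∑ n ∈ S, ∑ m ∈ S, w m * conj (w n) * ∫ y, ee ((t m - t n) * y) ∂ρ := by
    rw [← integral_complex_ofReal]
    simp only [h1]
    rw [integral_finsetSum]
    · refine Finset.sum_congr rfl fun k _ => ?_
      rw [integral_finsetSum]
      · refine Finset.sum_congr rfl fun l _ => ?_
        rw [integral_const_mul]
      · intro l _
        exact (ee_in _).const_mul _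
    · intro k _
      apply integrable_finsetSum
      intro l _
      exact (ee_in _).const_mul _
  have h3 : ∫ y, ‖∑ n ∈ S, w n * ee (t n * y)‖ ^ 2 ∂ρ =
      ‖((∫ y, ‖∑ n ∈ S, w n * ee (t n * y)‖ ^ 2 ∂ρ : ℝ) : ℂ)‖ := by
    rw [Complex.norm_real, Real.norm_eq_abs, abs_of_nonneg]
    exact integral_nonneg fun y => by positivity
  rw [h3, h2]
  refine (norm_sum_le _ _).trans (Finset.sum_le_sum fun n _ => (norm_sum_le _ _).trans (Finset.sum_le_sum fun m _ => ?_))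
  rw [norm_mul, norm_mul, RCLike.norm_conj]
  have h4 : ‖w m‖ * ‖w n‖ ≤ 1 := mul_le_one₀ (hw m) (norm_nonneg _) (hw n)
  exact mul_le_of_le_one_left (norm_nonneg _) h4

/-- few large Fourier coefficients among the geometric progressions of frequencies -/
def Few (q : ℝ) (T : ℕ → ℝ) (ρ : Measure ℝ) : Prop :=
  ∀ (K : ℕ) (θ τ0 : ℝ), T K ≤ |θ| → ∑ m ∈ range (K + 1), ‖∫ y, ee ((θ * q ^ m - τ0) * y) ∂ρ‖ ≤ 3

lemma sum_windows {f : ℕ → ℝ} (hf : ∀ m, 0 ≤ f m) {C : ℝ} (K a : ℕ)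
    (hC : ∀ i, ∑ l ∈ range (K + 1), f (a + (i * (K + 1) + l)) ≤ C) (n : ℕ) :
    ∑ m ∈ Ico a (a + n), f m ≤ ((n / (K + 1) + 1 : ℕ) : ℝ) * C := by
  have h1 : ∀ A : ℕ, ∑ m ∈ range (A * (K + 1)), f (a + m) ≤ A * C := by
    intro A
    induction A with
    | zero => simp
    | succ A ih =>
      have e1 : (A + 1) * (K + 1) = A * (K + 1) + (K + 1) := by ring
      rw [e1, Finset.sum_range_add]
      have := hC A
      push_cast
      linarith
  refine le_trans ?_ (h1 (n / (K + 1) + 1))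
  have h2 : n ≤ (n / (K + 1) + 1) * (K + 1) := by
    have e1 := Nat.div_add_mod n (K + 1)
    have e2 := Nat.mod_lt n (show 0 < K + 1 by omega)
    have e3 : (n / (K + 1) + 1) * (K + 1) = (K + 1) * (n / (K + 1)) + (K + 1) := by ring
    omega
  rw [Finset.sum_Ico_eq_sum_range, Nat.add_sub_cancel_left]
  exact Finset.sum_le_sum_of_subset_of_nonneg (Finset.range_subset_range.2 h2) fun m _ _ => hf _

/-- the block length -/
lemma blockB {β : ℝ} (hβ : 1 < β) {q : ℝ} (hq : 1 < q) (T : ℕ → ℝ) {Cl δ : ℝ} (hCl : 0 < Cl) (hδ : 0 < δ) :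
    ∃ B : ℕ, 1 ≤ B ∧ ∀ (θ : ℝ) (N0 G : ℕ) (ρ : Measure ℝ)
    [IsProbabilityMeasure ρ] (w : ℕ → ℂ), β ^ G ≤ Cl * |θ| * q ^ N0 → Few q T ρ → (∀ n, ‖w n‖ ≤ 1) →
    ∫ y, ‖∑ n ∈ Ico N0 (N0 + B), w n * ee (θ * q ^ n / β ^ G * y)‖ ^ 2 ∂ρ ≤ (δ * B) ^ 2 := by
  have hβ0 : (0 : ℝ) < β := by linarith
  have hq0 : 0 < q := by linarith
  obtain ⟨K, hK⟩ := exists_nat_gt (12 / δ ^ 2)
  obtain ⟨ns, hns⟩ := pow_unbounded_of_one_lt (max (T K) 1 * Cl) hq
  obtain ⟨B, hB⟩ := exists_nat_gt ((ns + 3) * (2 / δ ^ 2))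
  have hB0 : (0 : ℝ) < B := lt_of_le_of_lt (by positivity) hB
  refine ⟨B, by exact_mod_cast hB0, ?_⟩
  intro θ N0 G ρ _ w hG hF hw
  refine (sec _ w hw _).trans ?_
  have hone : ∀ n ∈ Ico N0 (N0 + B), ∑ m ∈ Ico N0 (N0 + B),
      ‖∫ y, ee ((θ * q ^ m / β ^ G - θ * q ^ n / β ^ G) * y) ∂ρ‖ ≤ δ ^ 2 * B := by
    intro n _
    have hφ1 : ∀ τ : ℝ, ‖∫ y, ee (τ * y) ∂ρ‖ ≤ 1 := by
      intro τ
      refine (norm_integral_le_integral_norm _).trans ?_
      simp only [norm_ee]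
      rw [integral_const, probReal_univ, one_smul]
    obtain ⟨f, hf⟩ : ∃ f : ℕ → ℝ, f = fun m => ‖∫ y, ee ((θ * q ^ m / β ^ G - θ * q ^ n / β ^ G) * y) ∂ρ‖ := ⟨_, rfl⟩
    have hf0 : ∀ m, 0 ≤ f m := by intro m; rw [hf]; exact norm_nonneg _
    have hf1 : ∀ m, f m ≤ 1 := by intro m; rw [hf]; exact hφ1 _
    have h1 : ∑ m ∈ Ico N0 (N0 + B), f m ≤ ∑ m ∈ Ico N0 (N0 + ns), f m + ∑ m ∈ Ico (N0 + ns) (N0 + ns + B), f m := by
      rw [Finset.sum_Ico_consecutive _ (by omega) (by omega)]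
      apply Finset.sum_le_sum_of_subset_of_nonneg
      · intro m hm
        rw [Finset.mem_Ico] at hm ⊢
        omega
      · intro m _ _
        exact hf0 m
    have h2 : ∑ m ∈ Ico N0 (N0 + ns), f m ≤ ns := by
      refine (Finset.sum_le_sum fun m _ => hf1 m).trans ?_
      rw [Finset.sum_const, Nat.card_Ico, Nat.add_sub_cancel_left, nsmul_eq_mul, mul_one]
    have h3 : ∑ m ∈ Ico (N0 + ns) (N0 + ns + B), f m ≤ ((B / (K + 1) + 1 : ℕ) : ℝ) * 3 := by
      apply sum_windows hf0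
      intro i
      have h4 := hF K (θ * q ^ (N0 + ns + i * (K + 1)) / β ^ G) (θ * q ^ n / β ^ G) (by
        have h5 : T K * Cl ≤ q ^ ns := by
          refine le_trans ?_ hns.le
          exact mul_le_mul_of_nonneg_right (le_max_left _ _) hCl.le
        rw [abs_div, abs_mul, abs_of_pos (pow_pos hq0 _), abs_of_pos (pow_pos hβ0 G), le_div_iff₀ (by positivity)]
        rcases le_or_gt (T K) 0 with h6 | h6
        · have : T K * β ^ G ≤ 0 := mul_nonpos_of_nonpos_of_nonneg h6 (by positivity)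
          exact this.trans (by positivity)
        · calc T K * β ^ G ≤ T K * (Cl * |θ| * q ^ N0) := mul_le_mul_of_nonneg_left hG h6.le
            _ = (T K * Cl) * (|θ| * q ^ N0) := by ring
            _ ≤ q ^ ns * (|θ| * q ^ N0) := mul_le_mul_of_nonneg_right h5 (by positivity)
            _ = |θ| * q ^ (N0 + ns) := by rw [pow_add]; ring
            _ ≤ |θ| * q ^ (N0 + ns + i * (K + 1)) := by
                apply mul_le_mul_of_nonneg_left _ (abs_nonneg _)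
                exact pow_le_pow_right₀ hq.le (Nat.le_add_right _ _))
      refine le_trans (le_of_eq ?_) h4
      refine Finset.sum_congr rfl fun l _ => ?_
      rw [hf]
      simp only
      congr 3
      ext y
      congr 2
      rw [← add_assoc, pow_add q (N0 + ns + i * (K + 1)) l]
      ring
    have h4 : ((B / (K + 1) : ℕ) : ℝ) ≤ (B : ℝ) / ((K + 1 : ℕ) : ℝ) := Nat.cast_div_le
    have h5 : (B : ℝ) / ((K + 1 : ℕ) : ℝ) ≤ δ ^ 2 / 12 * B := by
      rw [div_le_iff₀ (by positivity)]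
      have h5 : 1 ≤ δ ^ 2 / 12 * ((K + 1 : ℕ) : ℝ) := by
        rw [div_lt_iff₀ (by positivity)] at hK
        push_cast
        nlinarith [sq_nonneg δ]
      calc (B : ℝ) = 1 * B := (one_mul _).symm
        _ ≤ (δ ^ 2 / 12 * ((K + 1 : ℕ) : ℝ)) * B := mul_le_mul_of_nonneg_right h5 hB0.le
        _ = _ := by ring
    have c3 : (ns : ℝ) + 3 ≤ δ ^ 2 / 2 * B := by
      have h1 : ((ns : ℝ) + 3) * (2 / δ ^ 2) * (δ ^ 2 / 2) = ns + 3 := by
        field_simp
      have h2 := mul_le_mul_of_nonneg_right hB.le (show 0 ≤ δ ^ 2 / 2 by positivity)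
      rw [h1] at h2
      linarith
    have c5 : 0 ≤ δ ^ 2 * B := by positivity
    rw [hf] at h1 h2 h3
    push_cast at h3 h4 h5
    linarith
  refine (Finset.sum_le_sum hone).trans (le_of_eq ?_)
  rw [Finset.sum_const, Nat.card_Ico, Nat.add_sub_cancel_left, nsmul_eq_mul]
  ring

end Pool.Agent.J4H75.CN
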