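import Pool.Agent.J4H75.CN.Pis
import Pool.Agent.J4H75.CN.Block

set_option autoImplicit false

/-! Good digit positions to a real base. -/

namespace Pool.Agent.J4H75.CN

open MeasureTheory Finset Filter Topology Polynomial
open Pool.Agent.J4H75.PN (ee norm_ee ee_add)
open Pool.Agent.J4H40.Ca (dn dn_nn dn_le dn_half)

/-- `τ` has `I` good positions to base `β` -/
def Gp (β δ : ℝ) (I : ℕ) (τ : ℝ) : Prop := ∃ F : Finset ℕ, F.card = I ∧ ∀ j ∈ F, δ ≤ dn (τ / β ^ (j + 1))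

/-- a good position in a given range of scales -/
def Stg (β q δ : ℝ) (K W len : ℕ) : Prop :=
  ∀ (θ τ0 : ℝ) (m1 m2 m3 t : ℕ), m1 < m2 → m2 < m3 → m3 ≤ m1 + K → β ^ t ≤ |θ| * (q - 1) * q ^ m1 →
    |θ| * (q - 1) * q ^ m1 < β ^ (t + 1) → W + len ≤ t →
    ∃ j, t - (W + len) ≤ j ∧ j < t - W ∧ ∃ m ∈ ({m1, m2, m3} : Finset ℕ), δ ≤ dn ((θ * q ^ m - τ0) / β ^ (j + 1))

lemma dn_sub (a b : ℝ) : dn (a - b) ≤ dn a + dn b := by
  have h1 := dn_le (a - b) (round a - round b)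
  refine h1.trans ?_
  unfold dn
  have h2 : a - b - ((round a - round b : ℤ) : ℝ) = (a - round a) - (b - round b) := by
    push_cast
    ring
  rw [h2]
  exact abs_sub _ _

lemma stg_alg {β : ℝ} (hβ1 : 1 < β) {P : ℤ[X]} (hP : P ≠ 0) (hPβ : aeval β P = 0) {δ : ℝ} (hδ1 : 2 * δ < 1 / 2)
    (hδ : (∑ i ∈ range (P.natDegree + 1), |(P.coeff i : ℝ)|) * (2 * δ) < 1) {q : ℝ} (hq : 1 < q)
    (hT : Transcendental ℚ q) (K W : ℕ) : ∃ len : ℕ, 1 ≤ len ∧ Stg β q δ K W len := by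
  have hβ0 : 0 < β := by linarith
  have hq0 : 0 < q := by linarith
  have hq1 : 0 < q - 1 := by linarith
  obtain ⟨C, hC⟩ : ∃ C : ℝ, C = β ^ (W + 1) * q ^ K / (q - 1) := ⟨_, rfl⟩
  have h1 : ∀ z : ℕ × ℕ, ∃ len : ℕ, 1 ≤ z.1 → z.1 < z.2 → ∀ x : ℝ, 1 ≤ |x| → |x| ≤ C →
      ∃ i < len, 2 * δ < dn (x * β ^ i) ∨ 2 * δ < dn ((q ^ z.2 - 1) / (q ^ z.1 - 1) * x * β ^ i) := by
    intro z
    by_cases hz : 1 ≤ z.1 ∧ z.1 < z.2
    · obtain ⟨len, hlen⟩ := len_ex hβ1 hP hPβ hδ1 hδ (kap hq hT hz.1 hz.2) C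
      exact ⟨len, fun _ _ => hlen⟩
    · refine ⟨0, fun h2 h3 => absurd ⟨h2, h3⟩ hz⟩
  choose len hlen using h1
  obtain ⟨M, hM⟩ : ∃ M, M = (range (K + 1) ×ˢ range (K + 1)).sup len + 1 := ⟨_, rfl⟩
  refine ⟨M, by omega, ?_⟩
  intro θ τ0 m1 m2 m3 t h12 h23 h3K ht1 ht2 hWt
  by_contra hcon
  push Not at hcon
  obtain ⟨Bt, hBt⟩ : ∃ Bt : ℝ, Bt = β ^ (t - W) := ⟨_, rfl⟩
  have hBt0 : 0 < Bt := by rw [hBt]; positivity
  obtain ⟨x0, hx0⟩ : ∃ x0 : ℝ, x0 = θ * q ^ m1 / Bt := ⟨_, rfl⟩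
  obtain ⟨p, hp⟩ : ∃ p, p = m2 - m1 := ⟨_, rfl⟩
  obtain ⟨p', hp'⟩ : ∃ p', p' = m3 - m1 := ⟨_, rfl⟩
  have e1 : θ * q ^ m1 = x0 * Bt := by
    rw [hx0]
    field_simp
  have e2 : θ * q ^ m2 = x0 * q ^ p * Bt := by
    have : m2 = m1 + p := by omega
    rw [this, pow_add, ← mul_assoc, e1]
    ring
  have e3 : θ * q ^ m3 = x0 * q ^ p' * Bt := by
    have : m3 = m1 + p' := by omega
    rw [this, pow_add, ← mul_assoc, e1]
    ring
  have hp1 : 1 ≤ p := by omega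
  have hpp : p < p' := by omega
  have hpK : p' ≤ K := by omega
  have hBW : Bt * β ^ W = β ^ t := by
    rw [hBt, ← pow_add]
    congr 1
    omega
  have hWp : (1 : ℝ) ≤ β ^ W := one_le_pow₀ (by linarith)
  have hx0a : |x0| = |θ| * q ^ m1 / Bt := by
    rw [hx0, abs_div, abs_mul, abs_of_pos (pow_pos hq0 m1), abs_of_pos hBt0]
  have hxl : 1 ≤ |x0| * (q - 1) := by
    rw [hx0a, div_mul_eq_mul_div, le_div_iff₀ hBt0, one_mul]
    have h1 : Bt ≤ β ^ t := by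
      rw [← hBW]
      exact le_mul_of_one_le_right hBt0.le hWp
    linarith
  have hxu : |x0| * (q - 1) ≤ β ^ (W + 1) := by
    rw [hx0a, div_mul_eq_mul_div, div_le_iff₀ hBt0]
    have h1 : β ^ (W + 1) * Bt = β ^ (t + 1) := by
      rw [pow_succ, pow_succ, ← hBW]
      ring
    rw [h1]
    linarith
  have hqp : ∀ i, 1 ≤ i → i ≤ K → q - 1 ≤ q ^ i - 1 ∧ q ^ i - 1 ≤ q ^ K := by
    intro i hi1 hi2
    have h1 : q ^ 1 ≤ q ^ i := pow_le_pow_right₀ hq.le hi1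
    have h2 : q ^ i ≤ q ^ K := pow_le_pow_right₀ hq.le hi2
    rw [pow_one] at h1
    exact ⟨by linarith, by linarith⟩
  obtain ⟨k1, k2⟩ := hqp p hp1 (by omega)
  have hqp0 : 0 < q ^ p - 1 := by linarith
  have hd2a : 1 ≤ |x0 * (q ^ p - 1)| := by
    rw [abs_mul, abs_of_pos hqp0]
    have := mul_le_mul_of_nonneg_left k1 (abs_nonneg x0)
    linarith
  have hup : |x0 * (q ^ p - 1)| ≤ C := by
    rw [abs_mul, abs_of_pos hqp0, hC, le_div_iff₀ hq1]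
    calc |x0| * (q ^ p - 1) * (q - 1) = (|x0| * (q - 1)) * (q ^ p - 1) := by ring
      _ ≤ β ^ (W + 1) * q ^ K := mul_le_mul hxu k2 (by linarith) (by positivity)
  obtain ⟨i, hi, hi2⟩ := hlen (p, p') hp1 hpp (x0 * (q ^ p - 1)) hd2a hup
  have hiM : i < M := by
    have h4 : len (p, p') ≤ (range (K + 1) ×ˢ range (K + 1)).sup len := by
      apply Finset.le_sup (f := len)
      rw [Finset.mem_product, Finset.mem_range, Finset.mem_range]
      simp only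
      omega
    omega
  have hj := hcon (t - W - 1 - i) (by omega) (by omega)
  have hj1 : t - W - 1 - i + 1 = t - W - i := by omega
  rw [hj1] at hj
  have hsc : β ^ (t - W - i) * β ^ i = Bt := by
    rw [← pow_add, hBt]
    congr 1
    omega
  have hsc0 : 0 < β ^ (t - W - i) := by positivity
  have g1 := hj m1 (by simp)
  have g2 := hj m2 (by simp)
  have g3 := hj m3 (by simp)
  simp only at hi2
  rcases hi2 with h4 | h4
  · have h5 := dn_sub ((θ * q ^ m2 - τ0) / β ^ (t - W - i)) ((θ * q ^ m1 - τ0) / β ^ (t - W - i))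
    have h6 : (θ * q ^ m2 - τ0) / β ^ (t - W - i) - (θ * q ^ m1 - τ0) / β ^ (t - W - i) = x0 * (q ^ p - 1) * β ^ i := by
      rw [e1, e2, ← hsc]
      field_simp
      ring
    rw [h6] at h5
    linarith
  · have h5 := dn_sub ((θ * q ^ m3 - τ0) / β ^ (t - W - i)) ((θ * q ^ m1 - τ0) / β ^ (t - W - i))
    have h6 : (θ * q ^ m3 - τ0) / β ^ (t - W - i) - (θ * q ^ m1 - τ0) / β ^ (t - W - i) =
        (q ^ p' - 1) / (q ^ p - 1) * (x0 * (q ^ p - 1)) * β ^ i := by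
      rw [e1, e3, ← hsc]
      field_simp
      ring
    rw [h6] at h5
    linarith

/-- many disjoint ranges -/
lemma stgR {β q δ : ℝ} {K : ℕ} (hS : ∀ W, ∃ len : ℕ, 1 ≤ len ∧ Stg β q δ K W len) : ∃ R : ℕ → ℕ,
    (∀ s, R s < R (s + 1)) ∧
    ∀ (s : ℕ) (θ τ0 : ℝ) (m1 m2 m3 t : ℕ), m1 < m2 → m2 < m3 → m3 ≤ m1 + K → β ^ t ≤ |θ| * (q - 1) * q ^ m1 →
      |θ| * (q - 1) * q ^ m1 < β ^ (t + 1) → R (s + 1) ≤ t →
      ∃ j, t - R (s + 1) ≤ j ∧ j < t - R s ∧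
        ∃ m ∈ ({m1, m2, m3} : Finset ℕ), δ ≤ dn ((θ * q ^ m - τ0) / β ^ (j + 1)) := by
  choose len hlen1 hlen using hS
  refine ⟨fun s => Nat.rec 0 (fun _ W => W + len W) s, ?_, ?_⟩
  · intro s
    have := hlen1 (Nat.rec 0 (fun _ W => W + len W) s)
    simp only
    omega
  · intro s θ τ0 m1 m2 m3 t h12 h23 h3 h4 h5 h6
    exact hlen _ θ τ0 m1 m2 m3 t h12 h23 h3 h4 h5 h6

/-- one of three nearby exponents has many good positions -/
lemma stgL {β q δ : ℝ} (hβ : 1 < β) {K : ℕ} (hS : ∀ W, ∃ len : ℕ, 1 ≤ len ∧ Stg β q δ K W len) (L : ℕ) : ∃ R : ℕ,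
    ∀ (θ τ0 : ℝ) (m1 m2 m3 : ℕ), m1 < m2 → m2 < m3 → m3 ≤ m1 + K → β ^ R ≤ |θ| * (q - 1) * q ^ m1 →
      ∃ m ∈ ({m1, m2, m3} : Finset ℕ), Gp β δ L (θ * q ^ m - τ0) := by
  obtain ⟨R, hR1, hR⟩ := stgR hS
  have hRm : StrictMono R := strictMono_nat_of_lt_succ hR1
  refine ⟨R (3 * L), ?_⟩
  intro θ τ0 m1 m2 m3 h12 h23 h3 h4
  obtain ⟨t, ht1, ht2⟩ := exists_nat_pow_near (x := |θ| * (q - 1) * q ^ m1) (y := β)
    (le_trans (one_le_pow₀ (by linarith)) h4) (by linarith)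
  have hGt : R (3 * L) ≤ t := by
    have h5 := h4.trans_lt ht2
    rw [pow_lt_pow_iff_right₀ (by linarith)] at h5
    omega
  have h5 : ∀ s ∈ range (3 * L), ∃ j, t - R (s + 1) ≤ j ∧ j < t - R s ∧
        ∃ m ∈ ({m1, m2, m3} : Finset ℕ), δ ≤ dn ((θ * q ^ m - τ0) / β ^ (j + 1)) := by
    intro s hs
    rw [Finset.mem_range] at hs
    exact hR s θ τ0 m1 m2 m3 t h12 h23 h3 ht1 ht2 (le_trans (hRm.monotone (by omega)) (by omega : R (3 * L) ≤ t))
  choose! j hj1 hj2 m hm1 hm2 using h5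
  obtain ⟨M, hM, hcard⟩ := Finset.exists_le_card_fiber_of_mul_le_card_of_maps_to (s := range (3 * L))
    (t := ({m1, m2, m3} : Finset ℕ)) (f := m) (n := L) hm1 ⟨m1, by simp⟩ (by
      rw [card_range]
      exact Nat.mul_le_mul_right _ Finset.card_le_three)
  obtain ⟨F, hF1, hF2⟩ := Finset.exists_subset_card_eq hcard
  refine ⟨M, hM, F.image j, ?_, ?_⟩
  · rw [Finset.card_image_of_injOn, hF2]
    intro s hs s' hs' hss
    have k1 := (Finset.mem_filter.1 (hF1 hs)).1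
    have k2 := (Finset.mem_filter.1 (hF1 hs')).1
    have k3 := hj1 s k1
    have k4 := hj1 s' k2
    have k5 := hj2 s k1
    have k6 := hj2 s' k2
    rw [Finset.mem_range] at k1 k2
    have k7 : R (s + 1) ≤ R (3 * L) := hRm.monotone (by omega)
    have k8 : R (s' + 1) ≤ R (3 * L) := hRm.monotone (by omega)
    rcases lt_trichotomy s s' with h | h | h
    · have k9 : R (s + 1) ≤ R s' := hRm.monotone h
      omega
    · exact h
    · have k9 : R (s' + 1) ≤ R s := hRm.monotone h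
      omega
  · intro i hi
    obtain ⟨s, hs, rfl⟩ := Finset.mem_image.1 hi
    obtain ⟨k1, k2⟩ := Finset.mem_filter.1 (hF1 hs)
    have k4 := hm2 s k1
    rw [k2] at k4
    exact k4

lemma card_two (S : Finset ℕ) (h3 : ∀ m1 ∈ S, ∀ m2 ∈ S, ∀ m3 ∈ S, m1 < m2 → m2 < m3 → False) : S.card ≤ 2 := by
  by_contra hcon
  push Not at hcon
  obtain ⟨x, kx, y, ky, z, kz, hxy, hxz, hyz⟩ := Finset.two_lt_card.1 hcon
  rcases lt_or_gt_of_ne hxy with a1 | a1 <;> rcases lt_or_gt_of_ne hxz with a2 | a2 <;>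
    rcases lt_or_gt_of_ne hyz with a3 | a3
  · exact h3 x kx y ky z kz a1 a3
  · exact h3 x kx z kz y ky a2 a3
  · omega
  · exact h3 z kz x kx y ky a2 a1
  · exact h3 y ky x kx z kz a1 a2
  · omega
  · exact h3 y ky z kz x kx a3 a2
  · exact h3 z kz y ky x kx a3 a1

/-- the property `Few` from the good positions -/
lemma few_of {β q δ : ℝ} (hβ : 1 < β) (hq : 1 < q) (hS : ∀ K W, ∃ len : ℕ, 1 ≤ len ∧ Stg β q δ K W len)
    {c c0 : ℝ} (hc : 0 < c) (hc1 : c < 1) (h0 : 0 < c0) : ∃ T : ℕ → ℝ, ∀ (ρ : Measure ℝ) [IsProbabilityMeasure ρ],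
      (∃ g : ℝ, c0 ≤ |g| ∧ ∀ τ I, Gp β δ I (g * τ) → ‖∫ y, ee (τ * y) ∂ρ‖ ≤ c ^ I) → Few q T ρ := by
  have hβ0 : 0 < β := by linarith
  have hq0 : 0 < q := by linarith
  have hq1 : 0 < q - 1 := by linarith
  have h1 : ∀ K : ℕ, ∃ L : ℕ, c ^ L < 1 / ((K : ℝ) + 1) := fun K => exists_pow_lt_of_lt_one (by positivity) hc1
  choose L hL using h1
  choose R hR using fun K => stgL hβ (hS K) (L K)
  refine ⟨fun K => β ^ (R K) / (c0 * (q - 1)), ?_⟩
  rintro ρ _ ⟨g, hg, hF⟩ K θ τ0 hθ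
  simp only at hθ
  have hφ1 : ∀ τ : ℝ, ‖∫ y, ee (τ * y) ∂ρ‖ ≤ 1 := by
    intro τ
    refine (norm_integral_le_integral_norm _).trans ?_
    simp only [norm_ee]
    rw [integral_const, probReal_univ, one_smul]
  classical
  obtain ⟨S, hSd⟩ : ∃ S : Finset ℕ, S = (range (K + 1)).filter fun m => ¬ Gp β δ (L K) (g * (θ * q ^ m - τ0)) := ⟨_, rfl⟩
  have hcard : S.card ≤ 2 := by
    apply card_two
    intro m1 k1 m2 k2 m3 k3 h12 h23
    rw [hSd, Finset.mem_filter, Finset.mem_range] at k1 k2 k3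
    have h5 : β ^ (R K) ≤ |g * θ| * (q - 1) * q ^ m1 := by
      rw [div_le_iff₀ (by positivity)] at hθ
      calc β ^ (R K) ≤ |θ| * (c0 * (q - 1)) := hθ
        _ = (c0 * |θ| * (q - 1)) * 1 := by ring
        _ ≤ (|g| * |θ| * (q - 1)) * q ^ m1 := by
            apply mul_le_mul _ (one_le_pow₀ hq.le) (by norm_num) (by positivity)
            gcongr
        _ = |g * θ| * (q - 1) * q ^ m1 := by rw [abs_mul]
    obtain ⟨m, hm, hmG⟩ := hR K (g * θ) (g * τ0) m1 m2 m3 h12 h23 (by omega) h5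
    have e : g * θ * q ^ m - g * τ0 = g * (θ * q ^ m - τ0) := by ring
    rw [e] at hmG
    rw [Finset.mem_insert, Finset.mem_insert, Finset.mem_singleton] at hm
    rcases hm with rfl | rfl | rfl
    · exact k1.2 hmG
    · exact k2.2 hmG
    · exact k3.2 hmG
  have hle : ∀ m ∈ range (K + 1), ‖∫ y, ee ((θ * q ^ m - τ0) * y) ∂ρ‖ ≤ (if m ∈ S then (1 : ℝ) else 0) + 1 / ((K : ℝ) + 1) := by
    intro m hm
    have hK0 : (0 : ℝ) < 1 / ((K : ℝ) + 1) := by positivity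
    by_cases h2 : m ∈ S
    · rw [if_pos h2]
      have := hφ1 (θ * q ^ m - τ0)
      linarith
    · rw [if_neg h2, zero_add]
      rw [hSd, Finset.mem_filter] at h2
      push Not at h2
      exact (hF _ _ (h2 hm)).trans (hL K).le
  refine (Finset.sum_le_sum hle).trans ?_
  rw [Finset.sum_add_distrib, Finset.sum_const, card_range, nsmul_eq_mul, Finset.sum_ite_mem, Finset.sum_const,
    nsmul_eq_mul, mul_one]
  have c1 : (((range (K + 1) ∩ S).card : ℕ) : ℝ) ≤ 2 := by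
    have h1 := (Finset.card_le_card (Finset.inter_subset_right (s₁ := range (K + 1)) (s₂ := S))).trans hcard
    exact_mod_cast h1
  have c2 : ((K + 1 : ℕ) : ℝ) * (1 / ((K : ℝ) + 1)) = 1 := by
    push_cast
    field_simp
  linarith

end Pool.Agent.J4H75.CN
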