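import Pool.Agent.J4H75.CN.Lay
import Pool.Agent.J4H75.CN.Stg

set_option autoImplicit false

/-! Random numbers with independent digits in a real base. -/

namespace Pool.Agent.J4H75.CN

open MeasureTheory ProbabilityTheory Finset Filter Topology
open scoped Real ENNReal
open Pool.Agent.J4H75.PN (ee norm_ee ee_add)
open Pool.Agent.J4H40.Ca (dn dn_nn dn_half ee_cont digit_char)

variable {Ω : Type*} {mΩ : MeasurableSpace Ω} {μ : Measure Ω}

/-- the random number with the digits `Y` -/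
noncomputable def vl (β : ℝ) (Y : ℕ → Ω → ℝ) (ω : Ω) : ℝ := ∑' j, Y j ω / β ^ (j + 1)

lemma vl_summable {β : ℝ} (hβ : 1 < β) {Y : ℕ → Ω → ℝ} {D : ℝ} (hD : ∀ j ω, |Y j ω| ≤ D) (ω : Ω) :
    Summable fun j => Y j ω / β ^ (j + 1) := by
  have hβ0 : 0 < β := by linarith
  have hD0 : (0 : ℝ) ≤ D := (abs_nonneg _).trans (hD 0 ω)
  apply Summable.of_norm_bounded (g := fun j => D / β * (1 / β) ^ j)
  · apply Summable.mul_left
    apply summable_geometric_of_lt_one (by positivity)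
    rw [div_lt_one hβ0]
    exact hβ
  · intro j
    rw [norm_div, norm_pow, Real.norm_eq_abs, Real.norm_eq_abs, abs_of_pos hβ0]
    have h2 : D / β * (1 / β) ^ j = D / β ^ (j + 1) := by
      rw [pow_succ, one_div, inv_pow]
      field_simp
    rw [h2]
    exact div_le_div_of_nonneg_right (hD j ω) (by positivity)

lemma vl_tendsto {β : ℝ} (hβ : 1 < β) {Y : ℕ → Ω → ℝ} {D : ℝ} (hD : ∀ j ω, |Y j ω| ≤ D) (ω : Ω) :
    Tendsto (fun J => ∑ j ∈ range J, Y j ω / β ^ (j + 1)) atTop (𝓝 (vl β Y ω)) :=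
  (vl_summable hβ hD ω).hasSum.tendsto_sum_nat

lemma psum_abs {β : ℝ} (hβ : 1 < β) {Y : ℕ → Ω → ℝ} {D : ℝ} (hD : ∀ j ω, |Y j ω| ≤ D) (ω : Ω) (J : ℕ) :
    |∑ j ∈ range J, Y j ω / β ^ (j + 1)| ≤ D / (β - 1) := by
  have hβ0 : 0 < β := by linarith
  have hD0 : (0 : ℝ) ≤ D := (abs_nonneg _).trans (hD 0 ω)
  refine (Finset.abs_sum_le_sum_abs _ _).trans ?_
  have h1 : ∀ j ∈ range J, |Y j ω / β ^ (j + 1)| ≤ D / β * (1 / β) ^ j := by
    intro j _
    rw [abs_div, abs_of_pos (pow_pos hβ0 _)]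
    have h2 : D / β * (1 / β) ^ j = D / β ^ (j + 1) := by
      rw [pow_succ, one_div, inv_pow]
      field_simp
    rw [h2]
    exact div_le_div_of_nonneg_right (hD j ω) (by positivity)
  refine (Finset.sum_le_sum h1).trans ?_
  rw [← Finset.mul_sum]
  have h3 : 1 / β < 1 := by
    rw [div_lt_one hβ0]
    exact hβ
  have h2 : ∑ j ∈ range J, (1 / β) ^ j ≤ 1 / (1 - 1 / β) := by
    rw [geom_sum_eq h3.ne]
    have h4 : ((1 / β) ^ J - 1) / (1 / β - 1) = (1 - (1 / β) ^ J) / (1 - 1 / β) := by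
      rw [← neg_sub, ← neg_sub 1 (1 / β), neg_div_neg_eq]
    rw [h4]
    apply div_le_div_of_nonneg_right _ (by linarith)
    have : 0 ≤ (1 / β) ^ J := by positivity
    linarith
  calc D / β * ∑ j ∈ range J, (1 / β) ^ j ≤ D / β * (1 / (1 - 1 / β)) := mul_le_mul_of_nonneg_left h2 (by positivity)
    _ = D / (β - 1) := by
        have : β - 1 ≠ 0 := by linarith
        field_simp

lemma vl_abs {β : ℝ} (hβ : 1 < β) {Y : ℕ → Ω → ℝ} {D : ℝ} (hD : ∀ j ω, |Y j ω| ≤ D) (ω : Ω) :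
    |vl β Y ω| ≤ D / (β - 1) := by
  apply le_of_tendsto (vl_tendsto hβ hD ω).abs
  exact Eventually.of_forall fun J => psum_abs hβ hD ω J

lemma vl_meas {β : ℝ} (hβ : 1 < β) {Y : ℕ → Ω → ℝ} (hY : ∀ j, Measurable (Y j)) {D : ℝ} (hD : ∀ j ω, |Y j ω| ≤ D) :
    Measurable (vl β Y) := by
  apply measurable_of_tendsto_metrizable (f := fun J ω => ∑ j ∈ range J, Y j ω / β ^ (j + 1))
  · intro J
    exact Finset.measurable_fun_sum _ fun j _ => (hY j).div_const _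
  · rw [tendsto_pi_nhds]
    exact vl_tendsto hβ hD

lemma vl_split {β : ℝ} (hβ : 1 < β) {Y : ℕ → Ω → ℝ} {D : ℝ} (hD : ∀ j ω, |Y j ω| ≤ D) (G : ℕ) (ω : Ω) :
    vl β Y ω = ∑ j ∈ range G, Y j ω / β ^ (j + 1) + vl β (fun j => Y (G + j)) ω / β ^ G := by
  have hβ0 : 0 < β := by linarith
  unfold vl
  rw [← (vl_summable hβ hD ω).sum_add_tsum_nat_add G, ← tsum_div_const]
  congr 1
  refine tsum_congr fun j => ?_
  show Y (j + G) ω / β ^ (j + G + 1) = Y (G + j) ω / β ^ (j + 1) / β ^ G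
  rw [div_div, ← pow_add, add_comm G j]
  congr 2
  omega

/-- the characteristic function of the random number -/
lemma vl_char [IsProbabilityMeasure μ] {β : ℝ} (hβ : 1 < β) {Y : ℕ → Ω → ℝ} (hY : ∀ j, Measurable (Y j))
    (hi : iIndepFun Y μ) {D : ℝ} (hD : ∀ j ω, |Y j ω| ≤ D) (τ : ℝ) (F : Finset ℕ) :
    ‖∫ ω, ee (τ * vl β Y ω) ∂μ‖ ≤ ∏ j ∈ F, ‖∫ ω, ee (τ / β ^ (j + 1) * Y j ω) ∂μ‖ := by
  have hpt : ∀ J ω, ee (τ * ∑ j ∈ range J, Y j ω / β ^ (j + 1)) =
      ∏ j : Fin J, ee (τ / β ^ ((j : ℕ) + 1) * Y j ω) := by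
    intro J ω
    rw [← Finset.prod_range fun j => ee (τ / β ^ (j + 1) * Y j ω)]
    induction J with
    | zero => simp [ee]
    | succ J ih =>
      rw [Finset.sum_range_succ, mul_add, ee_add, ih, Finset.prod_range_succ]
      congr 2
      ring
  have hint : ∀ J, ∫ ω, ee (τ * ∑ j ∈ range J, Y j ω / β ^ (j + 1)) ∂μ =
      ∏ j ∈ range J, ∫ ω, ee (τ / β ^ (j + 1) * Y j ω) ∂μ := by
    intro J
    simp only [hpt]
    have hind : iIndepFun (fun j : Fin J => Y (j : ℕ)) μ := hi.precomp Fin.val_injective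
    rw [hind.integral_fun_prod_comp (f := fun (j : Fin J) (v : ℝ) => ee (τ / β ^ ((j : ℕ) + 1) * v))
      (fun j => (hY j).aemeasurable)
      (fun j => (ee_cont.comp (continuous_const.mul continuous_id)).aestronglyMeasurable)]
    rw [← Finset.prod_range fun j => ∫ ω, ee (τ / β ^ (j + 1) * Y j ω) ∂μ]
  have hmeasJ : ∀ J, Measurable fun ω => ∑ j ∈ range J, Y j ω / β ^ (j + 1) := by
    intro J
    exact Finset.measurable_fun_sum _ fun j _ => (hY j).div_const _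
  have hlim : Tendsto (fun J => ∫ ω, ee (τ * ∑ j ∈ range J, Y j ω / β ^ (j + 1)) ∂μ) atTop
      (𝓝 (∫ ω, ee (τ * vl β Y ω) ∂μ)) := by
    apply tendsto_integral_of_dominated_convergence (fun _ => (1 : ℝ))
    · intro J
      exact (ee_cont.measurable.comp ((hmeasJ J).const_mul τ)).aestronglyMeasurable
    · exact integrable_const _
    · intro J
      filter_upwards with ω
      rw [norm_ee]
    · filter_upwards with ω
      exact (ee_cont.tendsto _).comp ((vl_tendsto hβ hD ω).const_mul τ)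
  have hle : ∀ j, ‖∫ ω, ee (τ / β ^ (j + 1) * Y j ω) ∂μ‖ ≤ 1 := by
    intro j
    refine (norm_integral_le_integral_norm _).trans ?_
    simp only [norm_ee]
    rw [integral_const, probReal_univ, one_smul]
  apply le_of_tendsto hlim.norm
  filter_upwards [eventually_ge_atTop (F.sup id + 1)] with J hJ
  rw [hint, norm_prod]
  have hsub : F ⊆ range J := by
    intro j hj
    have h1 : j ≤ F.sup id := Finset.le_sup (f := id) hj
    exact Finset.mem_range.2 (by omega)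
  rw [← Finset.prod_sdiff hsub]
  exact mul_le_of_le_one_left (Finset.prod_nonneg fun j _ => norm_nonneg _)
    (Finset.prod_le_one (fun j _ => norm_nonneg _) fun j _ => hle j)

/-- the bound for the characteristic function by the number of good positions -/
lemma vl_char_pow [IsProbabilityMeasure μ] {β : ℝ} (hβ : 1 < β) {Y : ℕ → Ω → ℝ} (hY : ∀ j, Measurable (Y j))
    (hi : iIndepFun Y μ) {D : ℝ} (hD : ∀ j ω, |Y j ω| ≤ D) {c u δ : ℝ} (hc0 : 0 < c) (hu : 0 < u) (hδ : 0 < δ) {H : ℕ}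
    (hc : ∀ j, ∃ (v : ℝ) (k : ℕ), 1 ≤ k ∧ k ≤ H ∧ c ≤ μ.real (Y j ⁻¹' {v}) ∧ c ≤ μ.real (Y j ⁻¹' {v + k * u}))
    (τ : ℝ) (I : ℕ) (hG : Gp β δ I (H.factorial * u * τ)) :
    ‖∫ ω, ee (τ * vl β Y ω) ∂μ‖ ≤ (1 - 4 * c * δ ^ 2 / (H.factorial : ℝ) ^ 2) ^ I := by
  obtain ⟨F, hFc, hF⟩ := hG
  refine (vl_char hβ hY hi hD τ F).trans ?_
  rw [← hFc, ← Finset.prod_const]
  refine Finset.prod_le_prod (fun j _ => norm_nonneg _) fun j hj => ?_
  obtain ⟨v, k, hk1, hkH, h1, h2⟩ := hc j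
  have hG : 1 ≤ H.factorial := Nat.factorial_pos H
  refine (digit_char (hY j) hc0.le hk1 (Nat.dvd_factorial hk1 hkH) hG h1 h2 hu _).trans ?_
  have hG0 : (0 : ℝ) < H.factorial := by exact_mod_cast hG
  have h3 := hF j hj
  have h5 : (H.factorial : ℝ) * u * (τ / β ^ (j + 1)) = H.factorial * u * τ / β ^ (j + 1) := by ring
  rw [h5]
  have h4 : δ ^ 2 ≤ dn (H.factorial * u * τ / β ^ (j + 1)) ^ 2 := pow_le_pow_left₀ hδ.le h3 2
  have h7 : 4 * c * δ ^ 2 / (H.factorial : ℝ) ^ 2 ≤ 4 * c * dn (H.factorial * u * τ / β ^ (j + 1)) ^ 2 / (H.factorial : ℝ) ^ 2 := by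
    apply div_le_div_of_nonneg_right _ (by positivity)
    exact mul_le_mul_of_nonneg_left h4 (by positivity)
  linarith

/-- the prefix and the tail are independent -/
lemma vl_indep {β : ℝ} (hβ : 1 < β) {Y : ℕ → Ω → ℝ} (hY : ∀ j, Measurable (Y j))
    (hi : iIndepFun Y μ) {D : ℝ} (hD : ∀ j ω, |Y j ω| ≤ D) (G : ℕ) :
    IndepFun (fun ω => ∑ j ∈ range G, Y j ω / β ^ (j + 1)) (vl β fun j => Y (G + j)) μ := by
  have h1 : Indep (⨆ i ∈ (Set.Iio G), MeasurableSpace.comap (Y i) inferInstance)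
      (⨆ i ∈ (Set.Ici G), MeasurableSpace.comap (Y i) inferInstance) μ := by
    apply indep_iSup_of_disjoint (fun i => (hY i).comap_le) hi
    rw [Set.disjoint_left]
    intro i hi1 hi2
    have h3 := Set.mem_Iio.1 hi1
    have h4 := Set.mem_Ici.1 hi2
    omega
  rw [IndepFun_iff_Indep]
  refine indep_of_indep_of_le_left (indep_of_indep_of_le_right h1 ?_) ?_
  · rw [← measurable_iff_comap_le]
    apply vl_meas (mΩ := ⨆ i ∈ (Set.Ici G), MeasurableSpace.comap (Y i) inferInstance) hβ (D := D)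
    · intro j
      rw [measurable_iff_comap_le]
      exact le_iSup₂_of_le (G + j) (Set.mem_Ici.2 (Nat.le_add_right G j)) le_rfl
    · intro j ω
      exact hD _ _
  · rw [← measurable_iff_comap_le]
    apply Finset.measurable_fun_sum
    intro j hj
    apply Measurable.div_const
    rw [measurable_iff_comap_le]
    exact le_iSup₂_of_le j (Set.mem_Iio.2 (Finset.mem_range.1 hj)) le_rfl

lemma lin_split [IsProbabilityMeasure μ] {V R : Ω → ℝ} (hV : Measurable V) (hR : Measurable R) (h : IndepFun V R μ)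
    {F : ℝ × ℝ → ℝ≥0∞} (hF : Measurable F) :
    ∫⁻ ω, F (V ω, R ω) ∂μ = ∫⁻ ω, ∫⁻ y, F (V ω, y) ∂(μ.map R) ∂μ := by
  have h1 := (indepFun_iff_map_prod_eq_prod_map_map hV.aemeasurable hR.aemeasurable).1 h
  have h2 : ∫⁻ ω, F (V ω, R ω) ∂μ = ∫⁻ z, F z ∂(μ.map fun ω => (V ω, R ω)) :=
    (lintegral_map hF (hV.prodMk hR)).symm
  have := Measure.isProbabilityMeasure_map (μ := μ) hR.aemeasurable
  rw [h2, h1, lintegral_prod _ hF.aemeasurable]
  rw [lintegral_map _ hV]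
  exact hF.lintegral_prod_right'


open Polynomial in
/-- an algebraic base has good positions -/
lemma stg_ex {β : ℝ} (hβ1 : 1 < β) (hβ : IsAlgebraic ℚ β) : ∃ δ : ℝ, 0 < δ ∧ δ ≤ 1 / 8 ∧
    ∀ q : ℝ, 1 < q → Transcendental ℚ q → ∀ K W, ∃ len : ℕ, 1 ≤ len ∧ Stg β q δ K W len := by
  rw [← IsFractionRing.isAlgebraic_iff ℤ ℚ ℝ] at hβ
  obtain ⟨P, hP, hPβ⟩ := hβ
  obtain ⟨A, hA⟩ : ∃ A : ℝ, A = ∑ i ∈ range (P.natDegree + 1), |(P.coeff i : ℝ)| := ⟨_, rfl⟩
  have hA0 : 0 ≤ A := by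
    rw [hA]
    exact Finset.sum_nonneg fun i _ => abs_nonneg _
  refine ⟨1 / (8 * (A + 1)), by positivity, ?_, ?_⟩
  · apply one_div_le_one_div_of_le (by norm_num)
    linarith
  · intro q hq hT K W
    have h1 : 2 * (1 / (8 * (A + 1))) ≤ 1 / 4 := by
      rw [mul_one_div, div_le_div_iff₀ (by positivity) (by norm_num)]
      linarith
    apply stg_alg hβ1 hP hPβ (by linarith) _ hq hT K W
    rw [← hA, mul_one_div, mul_div_assoc', div_lt_one (by positivity)]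
    linarith

/-- the layers of a random number with independent digits -/
theorem pre_dig {Ω : Type} {mΩ : MeasurableSpace Ω} {μ : Measure Ω} [IsProbabilityMeasure μ] {β : ℝ} (hβ : 1 < β)
    (hβA : IsAlgebraic ℚ β) {q : ℝ} (hq : 1 < q) (hT : Transcendental ℚ q) {Y : ℕ → Ω → ℝ} (hY : ∀ j, Measurable (Y j))
    (hi : iIndepFun Y μ) {D : ℝ} (hD : ∀ j ω, |Y j ω| ≤ D) {c u : ℝ} (hc0 : 0 < c) (hu : 0 < u) {H : ℕ}
    (hc : ∀ j, ∃ (v : ℝ) (k : ℕ), 1 ≤ k ∧ k ≤ H ∧ c ≤ μ.real (Y j ⁻¹' {v}) ∧ c ≤ μ.real (Y j ⁻¹' {v + k * u})) :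
    ∃ (T : ℕ → ℝ) (D' : ℝ), 0 ≤ D' ∧ ∀ G, Pre β q T D' G (μ.map (vl β Y)) := by
  obtain ⟨δ, hδ0, hδ1, hS⟩ := stg_ex hβ hβA
  have hβ0 : 0 < β := by linarith
  have hF1 : (1 : ℝ) ≤ H.factorial := by exact_mod_cast Nat.factorial_pos H
  have hF0 : (0 : ℝ) < H.factorial := by linarith
  have hc1 : c ≤ 1 := by
    obtain ⟨v, k, _, _, h1, _⟩ := hc 0
    exact h1.trans measureReal_le_one
  have hx : 0 < 4 * c * δ ^ 2 / (H.factorial : ℝ) ^ 2 := by positivity
  have hx1 : 4 * c * δ ^ 2 / (H.factorial : ℝ) ^ 2 ≤ 1 / 2 := by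
    rw [div_le_iff₀ (by positivity)]
    have h1 : 4 * c * δ ^ 2 ≤ 1 / 2 := by nlinarith
    have h2 : (1 : ℝ) ≤ (H.factorial : ℝ) ^ 2 := one_le_pow₀ hF1
    linarith
  obtain ⟨T, hTT⟩ := few_of hβ hq (hS q hq hT) (c := 1 - 4 * c * δ ^ 2 / (H.factorial : ℝ) ^ 2) (c0 := H.factorial * u)
    (by linarith) (by linarith) (by positivity)
  have hD0 : (0 : ℝ) ≤ D := by
    have : Nonempty Ω := by
      by_contra h
      rw [not_nonempty_iff] at h
      have h1 : μ Set.univ = 1 := measure_univ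
      rw [Set.univ_eq_empty_iff.2 h, measure_empty] at h1
      exact zero_ne_one h1
    exact (abs_nonneg _).trans (hD 0 this.some)
  refine ⟨T, D / (β - 1), div_nonneg hD0 (by linarith), ?_⟩
  intro G
  have hYG : ∀ j, Measurable ((fun j => Y (G + j)) j) := fun j => hY _
  have hDG : ∀ j ω, |(fun j => Y (G + j)) j ω| ≤ D := fun j ω => hD _ _
  have hiG : iIndepFun (fun j => Y (G + j)) μ := hi.precomp (add_right_injective G)
  have hR : Measurable (vl β fun j => Y (G + j)) := vl_meas hβ hYG hDG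
  have hV : Measurable fun ω => ∑ j ∈ range G, Y j ω / β ^ (j + 1) :=
    Finset.measurable_fun_sum _ fun j _ => (hY j).div_const _
  have hRp : IsProbabilityMeasure (μ.map (vl β fun j => Y (G + j))) := Measure.isProbabilityMeasure_map hR.aemeasurable
  refine ⟨Ω, mΩ, μ, fun ω => ∑ j ∈ range G, Y j ω / β ^ (j + 1), fun _ => μ.map (vl β fun j => Y (G + j)), ?_, ?_, ?_, ?_, ?_⟩
  · intro ω
    exact psum_abs hβ hD ω G
  · intro _
    exact hRp
  · intro _
    exact (ae_map_iff (p := fun y : ℝ => |y| ≤ D / (β - 1)) hR.aemeasurable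
      (measurableSet_le continuous_abs.measurable measurable_const)).2 (Eventually.of_forall fun ω => vl_abs hβ hDG ω)
  · intro _
    apply hTT
    refine ⟨H.factorial * u, ?_, ?_⟩
    · rw [abs_of_pos (by positivity)]
    · intro τ I hI
      have hcn : Continuous fun y : ℝ => ee (τ * y) := ee_cont.comp (continuous_const.mul continuous_id)
      rw [integral_map hR.aemeasurable hcn.aestronglyMeasurable]
      exact vl_char_pow hβ hYG hiG hDG hc0 hu hδ0 (fun j => hc _) τ I hI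
  · intro f hf
    rw [lintegral_map hf (vl_meas hβ hY hD)]
    have h1 := lin_split (μ := μ) hV hR (vl_indep hβ hY hi hD G) (F := fun z => f (z.1 + z.2 / β ^ G))
      (hf.comp (measurable_fst.add (measurable_snd.div_const _)))
    simp only at h1
    rw [← h1]
    refine lintegral_congr fun ω => ?_
    rw [vl_split hβ hD G ω]

/-- the almost sure behaviour of the exponential sums of `g (X)` -/
theorem core_pre {β q : ℝ} (hβ : 1 < β) (hq : 1 < q) {T : ℕ → ℝ} {D : ℝ} (hD : 0 ≤ D) {ν : Measure ℝ} [IsFiniteMeasure ν]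
    (hP : ∀ G, Pre β q T D G ν) {g : ℝ → ℝ} (hg : ContDiff ℝ 1 g) (h0 : ∀ x, deriv g x ≠ 0) :
    ∀ θ : ℝ, θ ≠ 0 → ∀ w : ℕ → ℂ, (∀ n, ‖w n‖ ≤ 1) →
      ∀ᵐ x ∂(ν.map g), ∀ lam : ℝ, 0 < lam → ∀ᶠ N : ℕ in atTop, ‖∑ n ∈ range N, w n * ee (θ * q ^ n * x)‖ ≤ lam * N := by
  obtain ⟨T', D', hD', hL⟩ := lay_of_pre hβ hD hP hg h0
  intro θ hθ w hw
  exact core' hβ hq hD' hL θ hθ w hw

end Pool.Agent.J4H75.CN
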