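import Pool.Agent.J4H75.CN.Ren

set_option autoImplicit false

/-! The potential of a random walk with dense steps is asymptotically at most the integral. -/

namespace Pool.Agent.J4H75.CN

open MeasureTheory Finset Filter Topology
open scoped ENNReal

variable {ι : Type} [Fintype ι] {p : ι → ℝ} {x : ι → ℝ} {c : ℝ}

theorem Vo_limsup (hp : ∀ i, 0 < p i) (hps : ∑ i, p i = 1) (hc : 0 < c) (hx : ∀ i, c ≤ x i) {xm : ℝ} (hxm : ∀ i, x i ≤ xm)
    (hd : Dense (AddSubgroup.closure (Set.range x) : Set ℝ)) {g : ℝ → ℝ} (hg : Continuous g) (hgu : UniformContinuous g)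
    (hg0 : ∀ y, 0 ≤ g y) {Bd : ℝ} (hgB : ∀ y, g y ≤ Bd) {m : ℝ} {L : ℕ} (hs : ∀ y, y ∉ Set.Ico m (m + L * c) → g y = 0)
    (hgi : Integrable g) {η : ℝ} (hη : 0 < η) :
    ∀ᶠ y in atTop, (Vo (fun i => ENNReal.ofReal (p i)) x (fun y => ENNReal.ofReal (g y)) y).toReal ≤ (∫ y, g y) / c + η := by
  obtain ⟨P, hPdef⟩ : ∃ P : ι → ℝ≥0∞, P = fun i => ENNReal.ofReal (p i) := ⟨_, rfl⟩
  obtain ⟨f, hf⟩ : ∃ f : ℝ → ℝ≥0∞, f = fun y => ENNReal.ofReal (g y) := ⟨_, rfl⟩
  rw [← hPdef, ← hf]
  have hx0 : ∀ i, 0 < x i := fun i => hc.trans_le (hx i)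
  have hP : ∑ i, P i = 1 := by
    rw [hPdef, ← ENNReal.ofReal_sum_of_nonneg (fun i _ => (hp i).le), hps, ENNReal.ofReal_one]
  have hBd0 : 0 ≤ Bd := (hg0 0).trans (hgB 0)
  have hfm : Measurable f := by rw [hf]; exact hg.measurable.ennreal_ofReal
  have hf0 : ∀ y, y ∉ Set.Ico m (m + L * c) → f y = 0 := by
    intro y hy
    rw [hf]
    simp only
    rw [hs y hy, ENNReal.ofReal_zero]
  have hVb : ∀ y, Vo P x f y ≤ L * ENNReal.ofReal Bd := by
    intro y
    apply Vo_bdd hP hc hx (m := m)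
    intro y
    by_cases hy : y ∈ Set.Ico m (m + L * c)
    · rw [Set.indicator_of_mem hy, hf]
      exact ENNReal.ofReal_le_ofReal (hgB y)
    · rw [Set.indicator_of_notMem hy, hf0 y hy]
  have hVt : ∀ y, Vo P x f y ≠ ∞ := by
    intro y
    exact ne_top_of_le_ne_top (ENNReal.mul_ne_top (ENNReal.natCast_ne_top L) ENNReal.ofReal_ne_top) (hVb y)
  obtain ⟨v, hv⟩ : ∃ v : ℝ → ℝ, v = fun y => (Vo P x f y).toReal := ⟨_, rfl⟩
  have hv0 : ∀ y, 0 ≤ v y := by intro y; rw [hv]; exact ENNReal.toReal_nonneg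
  have hvB : ∀ y, v y ≤ L * Bd := by
    intro y
    rw [hv]
    have h1 := ENNReal.toReal_mono (ENNReal.mul_ne_top (ENNReal.natCast_ne_top L) ENNReal.ofReal_ne_top) (hVb y)
    rw [ENNReal.toReal_mul, ENNReal.toReal_natCast, ENNReal.toReal_ofReal hBd0] at h1
    exact h1
  have hveq : ∀ y, m + L * c ≤ y → v y = ∑ i, p i * v (y - x i) := by
    intro y hy
    rw [hv]
    simp only
    rw [Vo_eq, hf0 y (fun h => absurd h.2 (not_lt.2 hy)), zero_add, ENNReal.toReal_sum]
    · refine Finset.sum_congr rfl fun i _ => ?_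
      rw [ENNReal.toReal_mul, hPdef]
      simp only
      rw [ENNReal.toReal_ofReal (hp i).le]
    · intro i _
      rw [hPdef]
      exact ENNReal.mul_ne_top ENNReal.ofReal_ne_top (by rw [hPdef] at hVt; exact hVt _)
  have hvu : ∀ ε : ℝ, 0 < ε → ∃ δ : ℝ, 0 < δ ∧ ∀ y h, |h| ≤ δ → v y ≤ v (y + h) + ε := by
    intro ε hε
    rw [Metric.uniformContinuous_iff] at hgu
    obtain ⟨δ, hδ, hδ2⟩ := hgu (ε / (L + 1)) (by positivity)
    refine ⟨δ / 2, by positivity, ?_⟩
    intro y h hh
    have h1 : ∀ y, f y ≤ (fun y => f (y + h)) y +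
        (fun y => ENNReal.ofReal (ε / (L + 1)) * Set.indicator (Set.Ico m (m + L * c)) (fun _ => 1) y) y := by
      intro y
      by_cases hy : y ∈ Set.Ico m (m + L * c)
      · simp only
        rw [Set.indicator_of_mem hy, mul_one, hf]
        simp only
        rw [← ENNReal.ofReal_add (hg0 _) (by positivity)]
        apply ENNReal.ofReal_le_ofReal
        have h2 := hδ2 (a := y) (b := y + h) (by
          rw [Real.dist_eq, sub_add_cancel_left, abs_neg]
          linarith)
        rw [Real.dist_eq] at h2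
        linarith [(abs_lt.1 h2).2]
      · rw [hf0 y hy]
        exact zero_le
    have h2 := Vo_mono (P := P) (x := x) h1 y
    rw [Vo_add, Vo_shift, Vo_smul] at h2
    have h3 := Vo_bdd hP hc hx (f := Set.indicator (Set.Ico m (m + L * c)) (fun _ => 1)) (b := 1) (m := m) (L := L)
      (fun _ => le_rfl) y
    rw [mul_one] at h3
    have h4 : Vo P x f y ≤ Vo P x f (y + h) + ENNReal.ofReal (ε / (L + 1)) * L := by
      refine h2.trans ?_
      gcongr
    have h5 := ENNReal.toReal_mono (ENNReal.add_ne_top.2 ⟨hVt _, ENNReal.mul_ne_top ENNReal.ofReal_ne_top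
      (ENNReal.natCast_ne_top L)⟩) h4
    rw [ENNReal.toReal_add (hVt _) (ENNReal.mul_ne_top ENNReal.ofReal_ne_top (ENNReal.natCast_ne_top L)),
      ENNReal.toReal_mul, ENNReal.toReal_natCast, ENNReal.toReal_ofReal (by positivity)] at h5
    rw [hv]
    simp only
    refine h5.trans ?_
    have h6 : ε / (L + 1) * L ≤ ε := by
      rw [div_mul_eq_mul_div, div_le_iff₀ (by positivity)]
      nlinarith
    linarith
  -- the upper limit
  obtain ⟨S, hS⟩ : ∃ S : Set ℝ, S = {a | ∀ᶠ y in atTop, v y ≤ a} := ⟨_, rfl⟩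
  have hSne : S.Nonempty := by
    refine ⟨L * Bd, ?_⟩
    rw [hS]
    exact Eventually.of_forall hvB
  have hSb : BddBelow S := by
    refine ⟨0, fun a ha => ?_⟩
    rw [hS] at ha
    obtain ⟨y, hy⟩ := ha.exists
    exact (hv0 y).trans hy
  obtain ⟨α, hα⟩ : ∃ α, α = sInf S := ⟨_, rfl⟩
  have hα1 : ∀ ε : ℝ, 0 < ε → ∀ᶠ y in atTop, v y ≤ α + ε := by
    intro ε hε
    obtain ⟨a, haS, ha⟩ := exists_lt_of_csInf_lt hSne (show sInf S < α + ε by rw [← hα]; linarith)
    rw [hS] at haS
    filter_upwards [haS] with y hy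
    linarith
  have hα2 : ∀ ε : ℝ, 0 < ε → ∀ Y : ℝ, ∃ y, Y ≤ y ∧ α - ε < v y := by
    intro ε hε Y
    by_contra hcon
    push Not at hcon
    have h1 : α - ε ∈ S := by
      rw [hS]
      filter_upwards [eventually_ge_atTop Y] with y hy
      exact hcon y hy
    have h2 := csInf_le hSb h1
    rw [← hα] at h2
    linarith
  obtain ⟨Φ, hΦ⟩ : ∃ Φ : ℝ, Φ = ∫ y, g y := ⟨_, rfl⟩
  have hΦ0 : 0 ≤ Φ := by rw [hΦ]; exact integral_nonneg hg0
  have hΦf : ∫⁻ y, f y = ENNReal.ofReal Φ := by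
    rw [hΦ, hf, ofReal_integral_eq_lintegral_ofReal hgi (Eventually.of_forall hg0)]
  have main : ∀ ε : ℝ, 0 < ε → α ≤ Φ / c + 3 * ε := by
    intro ε hε
    obtain ⟨R, hR⟩ : ∃ R : ℝ, R = (L + 1) * Φ / ε + 1 := ⟨_, rfl⟩
    have hR0 : 0 < R := by rw [hR]; positivity
    have hRΦ : (L + 1) * Φ ≤ ε * R := by
      rw [hR, mul_add, mul_one]
      have : ε * ((L + 1) * Φ / ε) = (L + 1) * Φ := by field_simp
      linarith
    obtain ⟨δ, hδ0, hδ⟩ := hvu ε hε
    obtain ⟨y0, hy0⟩ := ws_dense hx0 hd (show 0 < δ / 2 by positivity)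
    obtain ⟨J, hJ⟩ := exists_nat_ge (R / (δ / 2))
    have hw : ∀ j ∈ range (J + 1), ∃ w : List ι, |(w.map x).sum - (y0 + j * (δ / 2))| ≤ δ / 2 := by
      intro j _
      obtain ⟨s, ⟨w, hw⟩, hs⟩ := hy0 (y0 + j * (δ / 2)) (by
        have : 0 ≤ (j : ℝ) * (δ / 2) := by positivity
        linarith)
      exact ⟨w, by rw [hw]; exact hs⟩
    choose! w hw using hw
    obtain ⟨ps, hps0, hpsm⟩ : ∃ a : ℝ, 0 < a ∧ ∀ j ∈ range (J + 1), a ≤ ((w j).map p).prod := by
      obtain ⟨z, hz, hm⟩ := (range (J + 1)).exists_min_image (fun e => ((w e).map p).prod) ⟨0, Finset.mem_range.2 (by omega)⟩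
      exact ⟨_, prod_pos' hp (w z), hm⟩
    obtain ⟨ε', hε'⟩ : ∃ ε' : ℝ, ε' = ε * ps / 2 := ⟨_, rfl⟩
    have hε'0 : 0 < ε' := by rw [hε']; positivity
    obtain ⟨Y1, hY1⟩ := eventually_atTop.1 (hα1 ε' hε'0)
    obtain ⟨Y2, hY2⟩ : ∃ Y2, Y2 = max Y1 (m + L * c) := ⟨_, rfl⟩
    have hvY : ∀ y, Y2 ≤ y → v y ≤ α + ε' := fun y hy => hY1 y (le_trans (by rw [hY2]; exact le_max_left _ _) hy)
    have hword : ∀ w : List ι, ∀ y, Y2 ≤ y - (w.map x).sum - xm →
        v y ≤ (1 - (w.map p).prod) * (α + ε') + (w.map p).prod * v (y - (w.map x).sum) := by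
      intro w
      induction w with
      | nil => intro y _; simp
      | cons i w ih =>
        intro y hy
        rw [List.map_cons, List.sum_cons] at hy
        rw [List.map_cons, List.map_cons, List.sum_cons, List.prod_cons]
        have hws := ws_nn hx0 (s := (w.map x).sum) ⟨w, rfl⟩
        have h2 := ih (y - x i) (by linarith)
        have hy2 : m + L * c ≤ y := by
          have h3 : m + L * c ≤ Y2 := by rw [hY2]; exact le_max_right _ _
          have h4 := hx0 i
          have h5 := hxm i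
          linarith
        have h3 : ∑ j, p j * v (y - x j) ≤ (α + ε') - p i * ((α + ε') - v (y - x i)) := by
          have h4 := Finset.single_le_sum (f := fun j => p j * ((α + ε') - v (y - x j))) (s := univ) (fun j _ => by
            have h6 := hxm j
            have h7 := hx0 i
            exact mul_nonneg (hp j).le (sub_nonneg.2 (hvY _ (by linarith)))) (Finset.mem_univ i)
          have h5 : ∑ j, p j * ((α + ε') - v (y - x j)) = (α + ε') - ∑ j, p j * v (y - x j) := by
            simp only [mul_sub]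
            rw [Finset.sum_sub_distrib, ← Finset.sum_mul, hps, one_mul]
          rw [h5] at h4
          linarith
        have h4 := mul_le_mul_of_nonneg_left h2 (hp i).le
        rw [← hveq y hy2] at h3
        rw [← sub_sub]
        have h6 : (α + ε') - p i * ((α + ε') - v (y - x i)) = (1 - p i) * (α + ε') + p i * v (y - x i) := by ring
        calc v y ≤ (1 - p i) * (α + ε') + p i * v (y - x i) := by linarith
          _ ≤ (1 - p i) * (α + ε') + p i * ((1 - (w.map p).prod) * (α + ε') + (w.map p).prod * v (y - x i - (w.map x).sum)) := by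
              linarith
          _ = _ := by ring
    obtain ⟨Sm, hSm⟩ : ∃ Sm : ℝ, Sm = |y0| + (J + 1) * δ := ⟨_, rfl⟩
    obtain ⟨ys, hys1, hys2⟩ := hα2 ε' hε'0 (Y2 + Sm + xm)
    have hlow : ∀ j ∈ range (J + 1), α - ε ≤ v (ys - ((w j).map x).sum) := by
      intro j hj
      have h1 := hw j hj
      have h2 := hpsm j hj
      have hjJ : (j : ℝ) ≤ J := by
        have := Finset.mem_range.1 hj
        have h3 : j ≤ J := by omega
        exact_mod_cast h3
      have h3 : ((w j).map x).sum ≤ Sm := by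
        have h4 := (abs_le.1 h1).2
        have h5 : (j : ℝ) * (δ / 2) ≤ J * (δ / 2) := mul_le_mul_of_nonneg_right hjJ (by positivity)
        have h6 := le_abs_self y0
        have h7 : 0 ≤ (J : ℝ) * δ := by positivity
        rw [hSm]
        nlinarith
      have h4 := hword (w j) ys (by linarith)
      obtain ⟨pw, hpw⟩ : ∃ pw, pw = ((w j).map p).prod := ⟨_, rfl⟩
      rw [← hpw] at h2 h4
      have hpw0 : 0 < pw := lt_of_lt_of_le hps0 h2
      have h5 : pw * (α - ε) ≤ pw * v (ys - ((w j).map x).sum) := by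
        have h6 : ε * ps ≤ ε * pw := mul_le_mul_of_nonneg_left h2 hε.le
        have h7 : 2 * ε' = ε * ps := by rw [hε']; ring
        have h8 : 0 < pw * ε' := by positivity
        nlinarith
      exact le_of_mul_le_mul_left h5 hpw0
    have hlow2 : ∀ y ∈ Set.Icc y0 (y0 + R), α - 2 * ε ≤ v (ys - y) := by
      intro y hy
      obtain ⟨j, hj⟩ : ∃ j, j = ⌊(y - y0) / (δ / 2)⌋₊ := ⟨_, rfl⟩
      have h1 : 0 ≤ (y - y0) / (δ / 2) := div_nonneg (by linarith [hy.1]) (by positivity)
      have h2 := Nat.floor_le h1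
      have h3 := Nat.lt_floor_add_one ((y - y0) / (δ / 2))
      rw [← hj] at h2 h3
      have hjm : j ∈ range (J + 1) := by
        rw [Finset.mem_range]
        have h4 : (y - y0) / (δ / 2) ≤ R / (δ / 2) := div_le_div_of_nonneg_right (by linarith [hy.2]) (by positivity)
        have h5 : (j : ℝ) ≤ J := by linarith
        have h6 : j ≤ J := by exact_mod_cast h5
        omega
      rw [le_div_iff₀ (by positivity)] at h2
      rw [div_lt_iff₀ (by positivity)] at h3
      have h4 := abs_le.1 (hw j hjm)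
      have h5 := hδ (ys - ((w j).map x).sum) (((w j).map x).sum - y) (by
        rw [abs_le]
        constructor <;> linarith [h4.1, h4.2])
      have h6 : ys - ((w j).map x).sum + (((w j).map x).sum - y) = ys - y := by ring
      rw [h6] at h5
      have h7 := hlow j hjm
      linarith
    obtain ⟨L', hL'⟩ : ∃ L' : ℕ, L' = ⌊R / c⌋₊ + L + 1 := ⟨_, rfl⟩
    have h8 : R / c < ⌊R / c⌋₊ + 1 := Nat.lt_floor_add_one _
    have h9 : ((⌊R / c⌋₊ : ℕ) : ℝ) ≤ R / c := Nat.floor_le (by positivity)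
    have hup := Vo_avg hP hc hx hfm hf0 (y0 := y0) (R := R) (L' := L') (by
      rw [div_lt_iff₀ hc] at h8
      rw [hL']
      push_cast
      linarith) ys
    have hdn : ENNReal.ofReal (α - 2 * ε) * ENNReal.ofReal R ≤ ∫⁻ y in Set.Icc y0 (y0 + R), Vo P x f (ys - y) := by
      have h10 : ∫⁻ _ in Set.Icc y0 (y0 + R), ENNReal.ofReal (α - 2 * ε) = ENNReal.ofReal (α - 2 * ε) * ENNReal.ofReal R := by
        rw [setLIntegral_const, Real.volume_Icc, add_sub_cancel_left]
      rw [← h10]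
      apply setLIntegral_mono' measurableSet_Icc
      intro y hy
      have h11 := hlow2 y hy
      rw [hv] at h11
      simp only at h11
      rw [← ENNReal.ofReal_toReal (hVt (ys - y))]
      exact ENNReal.ofReal_le_ofReal h11
    have h10' : ENNReal.ofReal (R * (α - 2 * ε)) ≤ ENNReal.ofReal (L' * Φ) := by
      rw [ENNReal.ofReal_mul hR0.le, ENNReal.ofReal_mul (Nat.cast_nonneg L'), mul_comm (ENNReal.ofReal R),
        ENNReal.ofReal_natCast, ← hΦf]
      exact hdn.trans hup
    have h10 : R * (α - 2 * ε) ≤ L' * Φ := (ENNReal.ofReal_le_ofReal_iff (by positivity)).1 h10'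
    have h11 : (L' : ℝ) ≤ R / c + L + 1 := by
      rw [hL']
      push_cast
      linarith
    have h12 : (L' : ℝ) * Φ ≤ (R / c + L + 1) * Φ := mul_le_mul_of_nonneg_right h11 hΦ0
    have h13 : R * (α - 2 * ε) ≤ R * (Φ / c + ε) := by
      have h14 : (R / c + L + 1) * Φ = R * (Φ / c) + (L + 1) * Φ := by ring
      linarith
    have h14 := le_of_mul_le_mul_left h13 hR0
    linarith
  have hαΦ : α ≤ Φ / c := by
    apply le_of_forall_pos_le_add
    intro ε hε
    have := main (ε / 3) (by positivity)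
    linarith
  rw [← hΦ]
  filter_upwards [hα1 η hη] with y hy
  rw [hv] at hy
  simp only at hy
  linarith

end Pool.Agent.J4H75.CN
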