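import Pool.Agent.J4H75.CN.Wie
import Pool.Agent.J4H75.CN.Blk

set_option autoImplicit false

/-! The Fourier transform of a self-similar measure with incommensurable ratios tends to zero. -/

namespace Pool.Agent.J4H75.CN

open MeasureTheory Finset Filter Topology
open scoped Real ENNReal

variable {ι : Type} [Fintype ι] {p r v : ι → ℝ} {ν : Measure ℝ}

lemma log_avg [IsProbabilityMeasure ν] {a b : ℝ} (hab : a ≤ b) :
    ∫ y in a..b, Qf ν (Real.exp y) ^ 2 ≤
      Real.exp (b - a) * ((1 / Real.exp b) * ∫ t in (0 : ℝ)..(Real.exp b), Qf ν t ^ 2) := by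
  have hQc : Continuous fun t => Qf ν t ^ 2 := Qf_cont.pow 2
  have h1 : ∫ y in a..b, Qf ν (Real.exp y) ^ 2 ≤
      ∫ y in a..b, Real.exp (-a) * (Qf ν (Real.exp y) ^ 2 * Real.exp y) := by
    apply intervalIntegral.integral_mono_on hab
    · exact (hQc.comp Real.continuous_exp).intervalIntegrable _ _
    · exact (continuous_const.mul ((hQc.comp Real.continuous_exp).mul Real.continuous_exp)).intervalIntegrable _ _
    · intro y hy
      have h2 : 1 ≤ Real.exp (-a) * Real.exp y := by
        rw [← Real.exp_add]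
        apply Real.one_le_exp
        linarith [hy.1]
      calc Qf ν (Real.exp y) ^ 2 = Qf ν (Real.exp y) ^ 2 * 1 := (mul_one _).symm
        _ ≤ Qf ν (Real.exp y) ^ 2 * (Real.exp (-a) * Real.exp y) := mul_le_mul_of_nonneg_left h2 (by positivity)
        _ = _ := by ring
  refine h1.trans ?_
  rw [intervalIntegral.integral_const_mul]
  have h2 : ∫ y in a..b, (Qf ν (Real.exp y) ^ 2 * Real.exp y) = ∫ t in (Real.exp a)..(Real.exp b), Qf ν t ^ 2 :=
    intervalIntegral.integral_comp_mul_deriv (f := Real.exp) (f' := Real.exp) (g := fun t => Qf ν t ^ 2)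
      (fun x _ => Real.hasDerivAt_exp x) Real.continuous_exp.continuousOn hQc
  rw [h2]
  have h3 : ∫ t in (Real.exp a)..(Real.exp b), Qf ν t ^ 2 ≤ ∫ t in (0 : ℝ)..(Real.exp b), Qf ν t ^ 2 := by
    apply intervalIntegral.integral_mono_interval (Real.exp_pos a).le (Real.exp_le_exp.2 hab) le_rfl
    · filter_upwards with t
      positivity
    · exact hQc.intervalIntegrable _ _
  have h4 : Real.exp (b - a) * ((1 / Real.exp b) * ∫ t in (0 : ℝ)..(Real.exp b), Qf ν t ^ 2) =
      Real.exp (-a) * ∫ t in (0 : ℝ)..(Real.exp b), Qf ν t ^ 2 := by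
    have : Real.exp (b - a) = Real.exp (-a) * Real.exp b := by
      rw [← Real.exp_add]
      congr 1
      ring
    rw [this]
    have := Real.exp_ne_zero b
    field_simp
  rw [h4]
  exact mul_le_mul_of_nonneg_left h3 (Real.exp_pos _).le

/-- the incommensurable case -/
theorem SSim.decay_dense [IsProbabilityMeasure ν] (h : SSim p r v ν) (hne : ∃ i j, v i * (1 - r j) ≠ v j * (1 - r i))
    (hd : Dense (AddSubgroup.closure (Set.range fun i => -Real.log |r i|) : Set ℝ)) : Tendsto (Qf ν) atTop (𝓝 0) := by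
  obtain ⟨r0, r1, V, h0, hr1, hr10, hV, hr, hv⟩ := h.consts
  obtain ⟨x, hx⟩ : ∃ x : ι → ℝ, x = fun i => -Real.log |r i| := ⟨_, rfl⟩
  rw [← hx] at hd
  obtain ⟨c, hc⟩ : ∃ c : ℝ, c = -Real.log r1 := ⟨_, rfl⟩
  obtain ⟨xm, hxm⟩ : ∃ xm : ℝ, xm = -Real.log r0 := ⟨_, rfl⟩
  have hc0 : 0 < c := by
    rw [hc]
    have := Real.log_neg hr10 hr1
    linarith
  have hxc : ∀ i, c ≤ x i := by
    intro i
    rw [hc, hx]
    simp only
    have := Real.log_le_log (h0.trans_le (hr i).1) (hr i).2
    linarith
  have hxx : ∀ i, x i ≤ xm := by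
    intro i
    rw [hxm, hx]
    simp only
    have := Real.log_le_log h0 (hr i).1
    linarith
  have hxm0 : 0 < xm := by
    have := h.nonempty
    exact hc0.trans_le ((hxc this.some).trans (hxx this.some))
  have hQc : Continuous (Qf ν) := Qf_cont
  have hW := wiener (h.no_atoms hne)
  have main : ∀ η : ℝ, 0 < η → ∀ᶠ y in atTop, Qf ν (Real.exp y) ≤ η := by
    intro η hη
    obtain ⟨Λ, hΛ⟩ : ∃ Λ : ℝ, Λ = xm + 2 := ⟨_, rfl⟩
    have hΛ0 : 0 < Λ := by rw [hΛ]; positivity
    obtain ⟨s, hs⟩ : ∃ s : ℝ, s = c * η / (4 * Λ) := ⟨_, rfl⟩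
    have hs0 : 0 < s := by rw [hs]; positivity
    obtain ⟨T0, hT0⟩ := eventually_atTop.1 (hW.eventually (gt_mem_nhds (show 0 < s * (c * η / 4) / Real.exp Λ by positivity)))
    obtain ⟨X0, hX0⟩ : ∃ X0 : ℝ, X0 = |T0| := ⟨_, rfl⟩
    have hT : T0 ≤ Real.exp (X0 + 1) := by
      have h1 := Real.add_one_le_exp (X0 + 1)
      have h2 := le_abs_self T0
      rw [hX0] at h1 ⊢
      linarith
    obtain ⟨a, ha⟩ : ∃ a : ℝ, a = X0 - xm - 1 := ⟨_, rfl⟩
    obtain ⟨b, hb⟩ : ∃ b : ℝ, b = X0 + 1 := ⟨_, rfl⟩
    have hab : b - a = Λ := by rw [ha, hb, hΛ]; ring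
    have hab' : a ≤ b := by linarith
    have hI2 : ∫ y in a..b, Qf ν (Real.exp y) ^ 2 ≤ s * (c * η / 4) := by
      refine (log_avg hab').trans ?_
      rw [hab]
      have h1 := (hT0 _ hT).le
      rw [← hb] at h1
      have h2 := mul_le_mul_of_nonneg_left h1 (Real.exp_pos Λ).le
      refine h2.trans (le_of_eq ?_)
      have := Real.exp_ne_zero Λ
      field_simp
    obtain ⟨χ, hχ⟩ : ∃ χ : ℝ → ℝ, χ = fun y => max 0 (min 1 (min (y - a) (b - y))) := ⟨_, rfl⟩
    have hχ0 : ∀ y, 0 ≤ χ y := by intro y; rw [hχ]; exact le_max_left _ _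
    have hχ1 : ∀ y, χ y ≤ 1 := by
      intro y
      rw [hχ]
      exact max_le zero_le_one (min_le_left _ _)
    have hχc : Continuous χ := by
      rw [hχ]
      fun_prop
    have hχa : ∀ y, y ≤ a → χ y = 0 := by
      intro y hy
      rw [hχ]
      apply max_eq_left
      exact (min_le_right _ _).trans ((min_le_left _ _).trans (by linarith))
    have hχb : ∀ y, b ≤ y → χ y = 0 := by
      intro y hy
      rw [hχ]
      apply max_eq_left
      exact (min_le_right _ _).trans ((min_le_right _ _).trans (by linarith))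
    have hχm : ∀ y, X0 - xm ≤ y → y ≤ X0 → χ y = 1 := by
      intro y hy1 hy2
      rw [hχ]
      simp only
      rw [min_eq_left (le_min (by linarith) (by linarith)), max_eq_right zero_le_one]
    obtain ⟨g, hg⟩ : ∃ g : ℝ → ℝ, g = fun y => Qf ν (Real.exp y) * χ y := ⟨_, rfl⟩
    have hgc : Continuous g := by
      rw [hg]
      exact (hQc.comp Real.continuous_exp).mul hχc
    have hg0 : ∀ y, 0 ≤ g y := by
      intro y
      rw [hg]
      exact mul_nonneg (Qf_nn _) (hχ0 y)
    have hgQ : ∀ y, g y ≤ Qf ν (Real.exp y) := by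
      intro y
      rw [hg]
      exact mul_le_of_le_one_right (Qf_nn _) (hχ1 y)
    have hgout : ∀ y, (y ≤ a ∨ b ≤ y) → g y = 0 := by
      intro y hy
      rw [hg]
      simp only
      rcases hy with hy | hy
      · rw [hχa y hy, mul_zero]
      · rw [hχb y hy, mul_zero]
    have hgcs : HasCompactSupport g := by
      apply HasCompactSupport.intro (isCompact_Icc (a := a) (b := b))
      intro y hy
      apply hgout
      by_contra hcon
      push Not at hcon
      exact hy ⟨hcon.1.le, hcon.2.le⟩
    have hgi : Integrable g := hgc.integrable_of_hasCompactSupport hgcs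
    have hgu : UniformContinuous g := hgcs.uniformContinuous_of_continuous hgc
    obtain ⟨L, hL⟩ := exists_nat_gt (Λ / c)
    rw [div_lt_iff₀ hc0] at hL
    have hgs : ∀ y, y ∉ Set.Ico a (a + L * c) → g y = 0 := by
      intro y hy
      apply hgout
      by_contra hcon
      push Not at hcon
      exact hy ⟨hcon.1.le, by linarith [hcon.2]⟩
    have hgint : ∫ y, g y ≤ c * η / 2 := by
      have h1 : ∫ y in a..b, g y = ∫ y, g y := by
        apply intervalIntegral.integral_eq_integral_of_support_subset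
        intro y hy
        by_contra hcon
        apply hy
        apply hgout
        by_contra hcon2
        push Not at hcon2
        exact hcon ⟨hcon2.1, hcon2.2.le⟩
      rw [← h1]
      have h2 : ∫ y in a..b, g y ≤ ∫ y in a..b, (s + (1 / s) * Qf ν (Real.exp y) ^ 2) := by
        apply intervalIntegral.integral_mono_on hab'
        · exact hgc.intervalIntegrable _ _
        · exact (continuous_const.add (continuous_const.mul ((hQc.comp Real.continuous_exp).pow 2))).intervalIntegrable _ _
        · intro y _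
          refine (hgQ y).trans ?_
          obtain ⟨Q, hQ⟩ : ∃ Q, Q = Qf ν (Real.exp y) := ⟨_, rfl⟩
          rw [← hQ]
          have h3 : 0 ≤ (Q - s) ^ 2 / s := by positivity
          have h4 : (Q - s) ^ 2 / s = s + 1 / s * Q ^ 2 - 2 * Q := by
            field_simp
            ring
          have h5 : 0 ≤ Q := by rw [hQ]; exact Qf_nn _
          linarith
      refine h2.trans ?_
      rw [intervalIntegral.integral_add, intervalIntegral.integral_const, intervalIntegral.integral_const_mul, hab, smul_eq_mul]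
      · have h3 : 1 / s * ∫ y in a..b, Qf ν (Real.exp y) ^ 2 ≤ 1 / s * (s * (c * η / 4)) :=
          mul_le_mul_of_nonneg_left hI2 (by positivity)
        have h4 : 1 / s * (s * (c * η / 4)) = c * η / 4 := by field_simp
        have h5 : Λ * s = c * η / 4 := by
          rw [hs]
          field_simp
        linarith
      · exact continuous_const.intervalIntegrable _ _
      · exact (continuous_const.mul ((hQc.comp Real.continuous_exp).pow 2)).intervalIntegrable _ _
    have hcomp := Vo_comp (P := fun i => ENNReal.ofReal (p i)) (M := fun y => ENNReal.ofReal (Qf ν (Real.exp y)))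
      (f := fun y => ENNReal.ofReal (g y)) (X0 := X0) hc0 hxc hxx ?_ ?_
    · have hlim := Vo_limsup h.p_pos h.psum hc0 hxc hxx hd hgc hgu hg0 (Bd := 1)
        (fun y => (hgQ y).trans (Qf_le _)) hgs hgi (show 0 < η / 2 by positivity)
      filter_upwards [hlim, eventually_ge_atTop (X0 - xm)] with y hy1 hy2
      have h1 := hcomp y hy2
      have hP1 : ∑ i, ENNReal.ofReal (p i) = 1 := by
        rw [← ENNReal.ofReal_sum_of_nonneg (fun i _ => (h.p_pos i).le), h.psum, ENNReal.ofReal_one]
      have h2 : Vo (fun i => ENNReal.ofReal (p i)) x (fun y => ENNReal.ofReal (g y)) y ≤ L * 1 := by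
        apply Vo_bdd hP1 hc0 hxc (m := a)
        intro y
        by_cases hy : y ∈ Set.Ico a (a + L * c)
        · rw [Set.indicator_of_mem hy, ← ENNReal.ofReal_one]
          exact ENNReal.ofReal_le_ofReal ((hgQ y).trans (Qf_le _))
        · rw [Set.indicator_of_notMem hy, hgs y hy, ENNReal.ofReal_zero]
      have h3 : Vo (fun i => ENNReal.ofReal (p i)) x (fun y => ENNReal.ofReal (g y)) y ≠ ∞ :=
        ne_top_of_le_ne_top (by rw [mul_one]; exact ENNReal.natCast_ne_top L) h2
      have h4 := ENNReal.toReal_mono h3 h1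
      rw [ENNReal.toReal_ofReal (Qf_nn _)] at h4
      refine h4.trans (hy1.trans ?_)
      have h5 : (∫ y, g y) / c ≤ η / 2 := by
        rw [div_le_iff₀ hc0]
        linarith
      linarith
    · intro y
      have h1 := h.q1 (Real.exp y)
      have h2 : ∀ i, Qf ν (r i * Real.exp y) = Qf ν (Real.exp (y - x i)) := by
        intro i
        apply Qf_abs2
        rw [abs_mul, Real.abs_exp, Real.abs_exp, Real.exp_sub, hx]
        simp only
        rw [Real.exp_neg, Real.exp_log (abs_pos.2 (h.r_ne i))]
        field_simp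
      simp only [h2] at h1
      refine (ENNReal.ofReal_le_ofReal h1).trans (le_of_eq ?_)
      rw [ENNReal.ofReal_sum_of_nonneg (fun i _ => mul_nonneg (h.p_pos i).le (Qf_nn _))]
      refine Finset.sum_congr rfl fun i _ => ?_
      rw [ENNReal.ofReal_mul (h.p_pos i).le]
    · intro y hy1 hy2
      rw [hg]
      simp only
      rw [hχm y hy1 hy2, mul_one]
  have h1 : Tendsto (fun y => Qf ν (Real.exp y)) atTop (𝓝 0) := by
    rw [Metric.tendsto_nhds]
    intro ε hε
    filter_upwards [main (ε / 2) (by positivity)] with y hy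
    rw [Real.dist_eq, sub_zero, abs_of_nonneg (Qf_nn _)]
    linarith
  refine (h1.comp Real.tendsto_log_atTop).congr' ?_
  filter_upwards [eventually_gt_atTop 0] with t ht
  simp only [Function.comp]
  rw [Real.exp_log ht]

end Pool.Agent.J4H75.CN
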