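import Pool.Agent.J4H75.CN.Psv
import Pool.Agent.J4H75.CN.Non
import Pool.Agent.J4H75.CN.Dig

set_option autoImplicit false

/-! All self-similar measures which are not a point mass satisfy the condition `Few` for every transcendental base. -/

namespace Pool.Agent.J4H75.CN

open MeasureTheory Finset Filter Topology
open Pool.Agent.J4H40.Ca (dn dn_nn dn_half)

/-- a transcendental base has large sums of squares of distances -/
lemma tr_len {β : ℝ} (hβ : 1 < β) (hβT : ¬ IsAlgebraic ℚ β) (C : ℝ) :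
    ∃ J : ℕ, ∀ x ∈ Set.Icc (1 : ℝ) β, C < ∑ j ∈ range J, dn (x * β ^ j) ^ 2 := by
  by_contra hcon
  push Not at hcon
  obtain ⟨S, hS⟩ : ∃ S : ℕ → Set ℝ, S = fun J => {x | x ∈ Set.Icc (1 : ℝ) β ∧ ∑ j ∈ range J, dn (x * β ^ j) ^ 2 ≤ C} :=
    ⟨_, rfl⟩
  have hcont : ∀ J, Continuous fun x : ℝ => ∑ j ∈ range J, dn (x * β ^ j) ^ 2 := fun J =>
    continuous_finsetSum _ fun j _ => (dn_cont.comp (continuous_id.mul continuous_const)).pow 2
  have hcl : ∀ J, IsClosed (S J) := by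
    intro J
    rw [hS]
    exact isClosed_Icc.inter (isClosed_le (hcont J) continuous_const)
  have hc0 : IsCompact (S 0) := by
    apply isCompact_Icc.of_isClosed_subset (hcl 0)
    intro x hx
    rw [hS] at hx
    exact hx.1
  obtain ⟨x, hx⟩ := IsCompact.nonempty_iInter_of_sequence_nonempty_isCompact_isClosed S (by
    intro J x hx
    rw [hS] at hx ⊢
    refine ⟨hx.1, le_trans ?_ hx.2⟩
    rw [Finset.sum_range_succ]
    have := sq_nonneg (dn (x * β ^ J))
    linarith) (fun J => by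
      obtain ⟨x, h1, h2⟩ := hcon J
      refine ⟨x, ?_⟩
      rw [hS]
      exact ⟨h1, h2⟩) hc0 hcl
  rw [Set.mem_iInter] at hx
  have hx1 : ∀ J, x ∈ Set.Icc (1 : ℝ) β ∧ ∑ j ∈ range J, dn (x * β ^ j) ^ 2 ≤ C := by
    intro J
    have := hx J
    rw [hS] at this
    exact this
  apply hβT
  apply pisot hβ (x := x) (by linarith [(hx1 0).1.1])
  exact summable_of_sum_range_le (fun j => sq_nonneg _) (fun J => (hx1 J).2)

variable {ι : Type} [Fintype ι] {p r v : ι → ℝ} {ν : Measure ℝ}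

/-- the commensurable case with a transcendental base -/
theorem SSim.decay_tr [IsProbabilityMeasure ν] (h : SSim p r v ν) (hne : ∃ i j, v i * (1 - r j) ≠ v j * (1 - r i))
    {β : ℝ} (hβ : 1 < β) (hβT : ¬ IsAlgebraic ℚ β) {k : ι → ℕ} (hk : ∀ i, 1 ≤ k i ∧ |r i| = 1 / β ^ (k i))
    (hn : ∃ B ∈ WS k, B + 1 ∈ WS k) : Tendsto (fun t => Qf ν t) atTop (𝓝 0) := by
  obtain ⟨s0, a', u, ha', hu, hdec⟩ := h.lat_decay hne hβ hk hn
  have hβ0 : 0 < β := by linarith
  rw [Metric.tendsto_atTop]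
  intro ε hε
  obtain ⟨J, hJ⟩ := tr_len hβ hβT (-Real.log ε / a')
  refine ⟨β ^ (s0 + J) / u, fun t ht => ?_⟩
  rw [Real.dist_eq, sub_zero, abs_of_nonneg (Qf_nn t)]
  have ht1 : β ^ (s0 + J) ≤ u * t := by
    rw [ge_iff_le, div_le_iff₀ hu] at ht
    linarith
  have ht2 : 1 ≤ u * t := (one_le_pow₀ hβ.le).trans ht1
  obtain ⟨n, hn1, hn2⟩ := exists_nat_pow_near ht2 hβ
  have hnJ : s0 + J ≤ n := by
    by_contra h1
    push Not at h1
    have h2 : β ^ (n + 1) ≤ β ^ (s0 + J) := pow_le_pow_right₀ hβ.le (by omega)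
    linarith
  obtain ⟨x, hx⟩ : ∃ x : ℝ, x = u * t / β ^ n := ⟨_, rfl⟩
  have hxm : x ∈ Set.Icc (1 : ℝ) β := by
    have hp : 0 < β ^ n := pow_pos hβ0 n
    rw [hx]
    constructor
    · rw [le_div_iff₀ hp, one_mul]
      exact hn1
    · rw [div_le_iff₀ hp, ← pow_succ']
      exact hn2.le
  have h1 := hJ x hxm
  have h2 : ∑ j ∈ range J, dn (x * β ^ j) ^ 2 ≤ ∑ j ∈ range (n + 1), dn (u * t / β ^ (s0 + j)) ^ 2 := by
    have e3 : ∑ j ∈ range J, dn (x * β ^ j) ^ 2 =
        ∑ i ∈ (range J).image (fun j => n - s0 - j), dn (u * t / β ^ (s0 + i)) ^ 2 := by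
      rw [Finset.sum_image]
      · refine Finset.sum_congr rfl fun j hj => ?_
        have hj' := Finset.mem_range.1 hj
        congr 2
        rw [hx, div_mul_eq_mul_div, div_eq_div_iff (pow_pos hβ0 _).ne' (pow_pos hβ0 _).ne', mul_assoc, ← pow_add]
        congr 2
        omega
      · intro i hi j hj hij
        rw [Finset.mem_coe, Finset.mem_range] at hi hj
        simp only at hij
        omega
    rw [e3]
    apply Finset.sum_le_sum_of_subset_of_nonneg
    · intro i hi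
      obtain ⟨j, hj, rfl⟩ := Finset.mem_image.1 hi
      exact Finset.mem_range.2 (by omega)
    · intro i _ _
      positivity
  refine (hdec t (n + 1)).trans_lt ?_
  rw [← Real.lt_log_iff_exp_lt hε]
  have h3 := h1.trans_le h2
  rw [div_lt_iff₀ ha'] at h3
  linarith

/-- **the condition `Few` for all self-similar measures** -/
theorem SSim.few_all [IsProbabilityMeasure ν] (h : SSim p r v ν) (hne : ∃ i j, v i * (1 - r j) ≠ v j * (1 - r i))
    {q : ℝ} (hq : 1 < q) (hT : Transcendental ℚ q) : ∃ T : ℕ → ℝ, Few q T ν := by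
  rcases AddSubgroup.dense_or_cyclic (AddSubgroup.closure (Set.range fun i => -Real.log |r i|)) with hd | ⟨a, ha⟩
  · exact few_of_decay (h.decay_dense hne hd) hq
  · obtain ⟨x, hx⟩ : ∃ x : ι → ℝ, x = fun i => -Real.log |r i| := ⟨_, rfl⟩
    rw [← hx] at ha
    have hx0 : ∀ i, 0 < x i := by
      intro i
      rw [hx]
      simp only
      have := Real.log_neg (abs_pos.2 (h.r_ne i)) (h.r_lt i)
      linarith
    have hm : ∀ i, ∃ m : ℤ, m • a = x i := by
      intro i
      have h1 : x i ∈ AddSubgroup.closure (Set.range x) := AddSubgroup.subset_closure ⟨i, rfl⟩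
      rw [ha, AddSubgroup.mem_closure_singleton] at h1
      exact h1
    choose m hm using hm
    obtain ⟨i0⟩ := h.nonempty
    have ha0 : a ≠ 0 := by
      rintro rfl
      have := hm i0
      rw [smul_zero] at this
      exact (hx0 i0).ne this
    have hb0 : 0 < |a| := abs_pos.2 ha0
    obtain ⟨k, hk⟩ : ∃ k : ι → ℕ, k = fun i => (m i).natAbs := ⟨_, rfl⟩
    have hkx : ∀ i, x i = k i * |a| := by
      intro i
      rw [← abs_of_pos (hx0 i), ← hm i, hk, zsmul_eq_mul, abs_mul]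
      simp only [Nat.cast_natAbs, Int.cast_abs]
    have hk1 : ∀ i, 1 ≤ k i := by
      intro i
      by_contra hc
      have h1 : k i = 0 := by omega
      have h2 := hkx i
      rw [h1, Nat.cast_zero, zero_mul] at h2
      exact (hx0 i).ne' h2
    obtain ⟨β, hβ⟩ : ∃ β : ℝ, β = Real.exp |a| := ⟨_, rfl⟩
    have hβ1 : 1 < β := by
      rw [hβ]
      exact Real.one_lt_exp_iff.2 hb0
    have hkr : ∀ i, 1 ≤ k i ∧ |r i| = 1 / β ^ (k i) := by
      intro i
      refine ⟨hk1 i, ?_⟩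
      rw [hβ, ← Real.exp_nat_mul, ← hkx, hx, one_div, ← Real.exp_neg, neg_neg, Real.exp_log (abs_pos.2 (h.r_ne i))]
    have hword : ∀ w : List ι, (w.map x).sum = ((w.map k).sum : ℕ) * |a| := by
      intro w
      induction w with
      | nil => simp
      | cons i w ih =>
        rw [List.map_cons, List.sum_cons, ih, List.map_cons, List.sum_cons, hkx]
        push_cast
        ring
    have hn : ∃ B ∈ WS k, B + 1 ∈ WS k := by
      have h1 : |a| ∈ AddSubgroup.closure (Set.range x) := by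
        rw [ha]
        rcases abs_choice a with h2 | h2
        · rw [h2]
          exact AddSubgroup.subset_closure rfl
        · rw [h2]
          exact neg_mem (AddSubgroup.subset_closure rfl)
      obtain ⟨A, ⟨w, hw⟩, B, ⟨w', hw'⟩, hAB⟩ := ws_sub h1
      refine ⟨(w'.map k).sum, ⟨w', rfl⟩, ⟨w, ?_⟩⟩
      rw [← hw, ← hw', hword, hword] at hAB
      have h2 : (((w.map k).sum : ℕ) : ℝ) = ((w'.map k).sum : ℕ) + 1 := by
        have h3 : (((w.map k).sum : ℕ) : ℝ) * |a| = (((w'.map k).sum : ℕ) + 1) * |a| := by linarith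
        exact mul_right_cancel₀ hb0.ne' h3
      exact_mod_cast h2
    by_cases hβA : IsAlgebraic ℚ β
    · obtain ⟨δ, hδ0, _, hS⟩ := stg_ex hβ1 hβA
      exact h.few_alg hne hβ1 hkr hn hq hδ0 (hS q hq hT)
    · exact few_of_decay (h.decay_tr hne hβ1 hβA hkr hn) hq

/-- the theorem for self-similar measures -/
theorem main_ss [IsProbabilityMeasure ν] (h : SSim p r v ν) (hne : ∃ i j, v i * (1 - r j) ≠ v j * (1 - r i))
    {q : ℝ} (hq : 1 < q) (hT : Transcendental ℚ q) {g : ℝ → ℝ} (hg : ContDiff ℝ 1 g) (h0 : ∀ x, deriv g x ≠ 0) :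
    ∀ θ : ℝ, θ ≠ 0 → ∀ w : ℕ → ℂ, (∀ n, ‖w n‖ ≤ 1) →
      ∀ᵐ x ∂(ν.map g), ∀ lam : ℝ, 0 < lam → ∀ᶠ N : ℕ in atTop,
        ‖∑ n ∈ range N, w n * Pool.Agent.J4H75.PN.ee (θ * q ^ n * x)‖ ≤ lam * N := by
  obtain ⟨T, hF⟩ := h.few_all hne hq hT
  obtain ⟨T', D, hD, hP⟩ := h.pre hF
  exact core_pre (by norm_num) hq hD hP hg h0

end Pool.Agent.J4H75.CN
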