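import Pool.Agent.J4H75.CN.Block

set_option autoImplicit false

/-! Exponential sums at almost every point of a measure with nice layers. -/

namespace Pool.Agent.J4H75.CN

open MeasureTheory Finset Filter Topology
open scoped Real ENNReal
open Pool.Agent.J4H75.PN (ee norm_ee ee_add)
open Pool.Agent.J4H40.Ca (ee_cont)

/-- at level `G` the measure `ν` is a mixture of small, nearly affine copies of nice measures -/
def Lay (β q : ℝ) (T : ℕ → ℝ) (D η : ℝ) (G : ℕ) (ν : Measure ℝ) : Prop :=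
  ∃ (W : Type) (_ : MeasurableSpace W) (P : Measure W) (v : W → ℝ) (ρ : W → Measure ℝ) (φ : W → ℝ → ℝ),
    (∀ w, IsProbabilityMeasure (ρ w)) ∧
    (∀ w, ∀ᵐ y ∂(ρ w), |y| ≤ D ∧ |φ w y - (v w + y / β ^ G)| ≤ η / β ^ G) ∧
    (∀ w, Few q T (ρ w)) ∧
    ∀ f : ℝ → ℝ≥0∞, Measurable f → ∫⁻ x, f x ∂ν = ∫⁻ w, ∫⁻ y, f (φ w y) ∂(ρ w) ∂P

lemma ee_lip (a a' : ℝ) : ‖ee a - ee a'‖ ≤ 2 * π * |a - a'| := by
  have h1 : ee a - ee a' = ee a' * (ee (a - a') - 1) := by
    rw [mul_sub, mul_one, ← ee_add]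
    congr 2
    ring
  have h2 : ee (a - a') = Complex.exp (Complex.I * ((2 * π * (a - a') : ℝ) : ℂ)) := by
    unfold ee
    congr 1
    push_cast
    ring
  rw [h1, norm_mul, norm_ee, one_mul, h2]
  refine (Real.norm_exp_I_mul_ofReal_sub_one_le (x := 2 * π * (a - a'))).trans ?_
  rw [Real.norm_eq_abs, abs_mul, abs_of_pos (by positivity)]

lemma sum_lip {q : ℝ} (hq : 1 < q) (θ : ℝ) (w : ℕ → ℂ) (hw : ∀ n, ‖w n‖ ≤ 1) (S : Finset ℕ) (N : ℕ)
    (hS : ∀ n ∈ S, n < N) (x x' : ℝ) :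
    |(∑ n ∈ S, w n * ee (θ * q ^ n * x)).re - (∑ n ∈ S, w n * ee (θ * q ^ n * x')).re| ≤
      2 * π * |θ| * (q ^ N / (q - 1)) * |x - x'| := by
  have hq0 : 0 < q := by linarith
  rw [← Complex.sub_re]
  refine (Complex.abs_re_le_norm _).trans ?_
  rw [← Finset.sum_sub_distrib]
  refine (norm_sum_le _ _).trans ?_
  have h1 : ∀ n ∈ S, ‖w n * ee (θ * q ^ n * x) - w n * ee (θ * q ^ n * x')‖ ≤ (2 * π * |θ| * |x - x'|) * q ^ n := by
    intro n _
    rw [← mul_sub, norm_mul]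
    refine (mul_le_of_le_one_left (norm_nonneg _) (hw n)).trans ((ee_lip _ _).trans (le_of_eq ?_))
    rw [← mul_sub, abs_mul, abs_mul, abs_of_pos (pow_pos hq0 n)]
    ring
  refine (Finset.sum_le_sum h1).trans ?_
  rw [← Finset.mul_sum]
  have h2 : ∑ n ∈ S, q ^ n ≤ q ^ N / (q - 1) := by
    have h3 : ∑ n ∈ S, q ^ n ≤ ∑ n ∈ range N, q ^ n :=
      Finset.sum_le_sum_of_subset_of_nonneg (fun n hn => Finset.mem_range.2 (hS n hn)) fun n _ _ => by positivity
    refine h3.trans ?_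
    rw [geom_sum_eq hq.ne']
    apply div_le_div_of_nonneg_right _ (by linarith)
    linarith
  calc 2 * π * |θ| * |x - x'| * ∑ n ∈ S, q ^ n ≤ 2 * π * |θ| * |x - x'| * (q ^ N / (q - 1)) :=
        mul_le_mul_of_nonneg_left h2 (by positivity)
    _ = _ := by ring

lemma chern {ρ : Measure ℝ} [IsProbabilityMeasure ρ] {Z : ℝ → ℝ} (hZm : Measurable Z) (hZ1 : ∀ y, |Z y| ≤ 1) {δ : ℝ}
    (hδ : 0 < δ) (h2 : ∫ y, Z y ^ 2 ∂ρ ≤ δ ^ 2) :
    ∫⁻ y, ENNReal.ofReal (Real.exp (Z y)) ∂ρ ≤ ENNReal.ofReal (Real.exp (δ + δ ^ 2)) := by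
  have hi1 : Integrable (fun y => Real.exp (Z y)) ρ := by
    apply Integrable.of_bound (C := Real.exp 1)
    · exact (Real.measurable_exp.comp hZm).aestronglyMeasurable
    · filter_upwards with y
      rw [Real.norm_eq_abs, Real.abs_exp, Real.exp_le_exp]
      exact (abs_le.1 (hZ1 y)).2
  have hi2 : Integrable (fun y => Z y ^ 2) ρ := by
    apply Integrable.of_bound (C := 1)
    · exact (hZm.pow_const 2).aestronglyMeasurable
    · filter_upwards with y
      rw [norm_pow, Real.norm_eq_abs]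
      exact pow_le_one₀ (abs_nonneg _) (hZ1 y)
  rw [← ofReal_integral_eq_lintegral_ofReal hi1 (by filter_upwards with y; exact (Real.exp_pos _).le)]
  apply ENNReal.ofReal_le_ofReal
  have h3 : ∀ y, Real.exp (Z y) ≤ (1 + δ / 2) + (1 / (2 * δ) + 1) * Z y ^ 2 := by
    intro y
    have h4 := abs_le.1 (Real.abs_exp_sub_one_sub_id_le (hZ1 y))
    have h5 : Z y ≤ δ / 2 + 1 / (2 * δ) * Z y ^ 2 := by
      have h6 : 0 ≤ (δ - Z y) ^ 2 / (2 * δ) := by positivity
      have h7 : (δ - Z y) ^ 2 / (2 * δ) = δ / 2 + 1 / (2 * δ) * Z y ^ 2 - Z y := by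
        field_simp
        ring
      linarith
    linarith [h4.2]
  have h4 : ∫ y, Real.exp (Z y) ∂ρ ≤ ∫ y, ((1 + δ / 2) + (1 / (2 * δ) + 1) * Z y ^ 2) ∂ρ :=
    integral_mono hi1 ((integrable_const _).add (hi2.const_mul _)) h3
  refine h4.trans ?_
  rw [integral_add (integrable_const _) (hi2.const_mul _), integral_const, probReal_univ, one_smul, integral_const_mul]
  have h5 : (1 / (2 * δ) + 1) * ∫ y, Z y ^ 2 ∂ρ ≤ (1 / (2 * δ) + 1) * δ ^ 2 :=
    mul_le_mul_of_nonneg_left h2 (by positivity)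
  have h6 : (1 / (2 * δ) + 1) * δ ^ 2 = δ / 2 + δ ^ 2 := by
    field_simp
  have h7 := Real.add_one_le_exp (δ + δ ^ 2)
  linarith

lemma re_bound (S : Finset ℕ) (w : ℕ → ℂ) (hw : ∀ n, ‖w n‖ ≤ 1) (z : ℕ → ℝ) :
    |(∑ n ∈ S, w n * ee (z n)).re| ≤ S.card := by
  refine (Complex.abs_re_le_norm _).trans ((norm_sum_le _ _).trans ?_)
  have h1 : ∀ n ∈ S, ‖w n * ee (z n)‖ ≤ 1 := by
    intro n _
    rw [norm_mul, norm_ee, mul_one]
    exact hw n
  refine (Finset.sum_le_sum h1).trans ?_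
  rw [Finset.sum_const, nsmul_eq_mul, mul_one]

lemma re_meas (S : Finset ℕ) (w : ℕ → ℂ) (t : ℕ → ℝ) : Measurable fun x : ℝ => (∑ n ∈ S, w n * ee (t n * x)).re := by
  apply Continuous.measurable
  apply Complex.continuous_re.comp
  refine continuous_finsetSum _ fun n _ => ?_
  exact continuous_const.mul (ee_cont.comp (continuous_const.mul continuous_id))

lemma step {β : ℝ} (hβ : 1 < β) {q : ℝ} (hq : 1 < q) {T : ℕ → ℝ} {D η : ℝ} {G N0 B : ℕ} (hB : 1 ≤ B) {ν : Measure ℝ}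
    (hL : Lay β q T D η G ν) (θ : ℝ) (w : ℕ → ℂ) (hw : ∀ n, ‖w n‖ ≤ 1) {ε δ : ℝ} (hδ : 0 < δ)
    (h1 : 2 * π * |θ| * (q ^ N0 / (q - 1)) * ((D + η) / β ^ G) ≤ ε)
    (h2 : 2 * π * |θ| * (q ^ (N0 + B) / (q - 1)) * (η / β ^ G) ≤ ε)
    (h3 : ∀ (ρ : Measure ℝ) [IsProbabilityMeasure ρ] (w : ℕ → ℂ), Few q T ρ → (∀ n, ‖w n‖ ≤ 1) →
      ∫ y, ‖∑ n ∈ Ico N0 (N0 + B), w n * ee (θ * q ^ n / β ^ G * y)‖ ^ 2 ∂ρ ≤ (δ * B) ^ 2) :
    ∫⁻ x, ENNReal.ofReal (Real.exp ((∑ n ∈ range (N0 + B), w n * ee (θ * q ^ n * x)).re / B)) ∂ν ≤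
      ENNReal.ofReal (Real.exp (3 * ε + (δ + δ ^ 2))) *
        ∫⁻ x, ENNReal.ofReal (Real.exp ((∑ n ∈ range N0, w n * ee (θ * q ^ n * x)).re / B)) ∂ν := by
  obtain ⟨W, _, P, v, ρ, φ, hρ, hφ, hF, hrep⟩ := hL
  have hB0 : (0 : ℝ) < B := by exact_mod_cast hB
  have hB1 : (1 : ℝ) ≤ B := by exact_mod_cast hB
  have hb0 : 0 < β := by linarith
  have hq0 : 0 < q := by linarith
  have hq1 : 0 < q - 1 := by linarith
  have hε0 : 0 ≤ ε ∨ ε < 0 := le_or_gt 0 ε
  have hm1 : ∀ N : ℕ, Measurable fun x : ℝ =>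
      ENNReal.ofReal (Real.exp ((∑ n ∈ range N, w n * ee (θ * q ^ n * x)).re / B)) := by
    intro N
    exact (Real.measurable_exp.comp ((re_meas _ _ _).div_const _)).ennreal_ofReal
  rw [hrep _ (hm1 _), hrep _ (hm1 _), ← lintegral_const_mul' _ _ ENNReal.ofReal_ne_top]
  refine lintegral_mono fun ω => ?_
  have := hρ ω
  have hgF := hF ω
  obtain ⟨S0, hS0⟩ : ∃ S0 : ℝ → ℝ, S0 = fun x => (∑ n ∈ range N0, w n * ee (θ * q ^ n * x)).re := ⟨_, rfl⟩
  obtain ⟨T, hT⟩ : ∃ T : ℝ → ℝ, T = fun x => (∑ n ∈ Ico N0 (N0 + B), w n * ee (θ * q ^ n * x)).re := ⟨_, rfl⟩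
  have hsplit : ∀ x, (∑ n ∈ range (N0 + B), w n * ee (θ * q ^ n * x)).re = S0 x + T x := by
    intro x
    rw [hS0, hT]
    simp only
    rw [← Complex.add_re, ← Finset.sum_range_add_sum_Ico _ (Nat.le_add_right N0 B)]
  have hl1 : ∀ᵐ y ∂(ρ ω), |S0 (φ ω y) - S0 (v ω)| ≤ ε ∧ |T (φ ω y) - T (v ω + y / β ^ G)| ≤ ε := by
    filter_upwards [hφ ω] with y hy
    have k1 : |φ ω y - v ω| ≤ (D + η) / β ^ G := by
      have e1 : φ ω y - v ω = (φ ω y - (v ω + y / β ^ G)) + y / β ^ G := by ring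
      rw [e1]
      refine (abs_add_le _ _).trans ?_
      rw [abs_div, abs_of_pos (pow_pos hb0 G), add_div, add_comm (D / _)]
      exact add_le_add hy.2 (div_le_div_of_nonneg_right hy.1 (by positivity))
    constructor
    · rw [hS0]
      refine (sum_lip hq θ w hw (range N0) N0 (fun n hn => Finset.mem_range.1 hn) _ _).trans ?_
      refine le_trans ?_ h1
      exact mul_le_mul_of_nonneg_left k1 (by positivity)
    · rw [hT]
      refine (sum_lip hq θ w hw (Ico N0 (N0 + B)) (N0 + B) (fun n hn => (Finset.mem_Ico.1 hn).2) _ _).trans ?_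
      refine le_trans ?_ h2
      exact mul_le_mul_of_nonneg_left hy.2 (by positivity)
  obtain ⟨Z, hZ⟩ : ∃ Z : ℝ → ℝ, Z = fun y => T (v ω + y / β ^ G) / B := ⟨_, rfl⟩
  have hTm : Measurable T := by rw [hT]; exact re_meas _ _ _
  have hZm : Measurable Z := by
    rw [hZ]
    exact (hTm.comp ((measurable_id.div_const _).const_add _)).div_const _
  have hZ1 : ∀ y, |Z y| ≤ 1 := by
    intro y
    rw [hZ, hT]
    simp only
    rw [abs_div, abs_of_pos hB0, div_le_one hB0]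
    refine (re_bound _ w hw _).trans (le_of_eq ?_)
    rw [Nat.card_Ico, Nat.add_sub_cancel_left]
  have hZ2 : ∫ y, Z y ^ 2 ∂(ρ ω) ≤ δ ^ 2 := by
    have k1 := h3 (ρ ω) (fun n => w n * ee (θ * q ^ n * v ω)) hgF (fun n => by
      rw [norm_mul, norm_ee, mul_one]
      exact hw n)
    obtain ⟨U, hU⟩ : ∃ U : ℝ → ℂ, U = fun y => ∑ n ∈ Ico N0 (N0 + B), w n * ee (θ * q ^ n * v ω) *
        ee (θ * q ^ n / β ^ G * y) := ⟨_, rfl⟩
    have k2 : ∀ y, Z y ^ 2 ≤ ‖U y‖ ^ 2 / (B : ℝ) ^ 2 := by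
      intro y
      have k3 : Z y = (U y).re / B := by
        rw [hZ, hT, hU]
        simp only
        congr 2
        refine Finset.sum_congr rfl fun n _ => ?_
        have k6 : ee (θ * q ^ n * (v ω + y / β ^ G)) = ee (θ * q ^ n * v ω) * ee (θ * q ^ n / β ^ G * y) := by
          rw [← ee_add]
          congr 1
          ring
        rw [k6]
        ring
      rw [k3, div_pow]
      apply div_le_div_of_nonneg_right _ (by positivity)
      rw [← sq_abs (U y).re]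
      exact pow_le_pow_left₀ (abs_nonneg _) (Complex.abs_re_le_norm _) 2
    have hUm : Measurable fun y => ‖U y‖ ^ 2 / (B : ℝ) ^ 2 := by
      apply Continuous.measurable
      apply Continuous.div_const
      apply Continuous.pow
      apply Continuous.norm
      rw [hU]
      refine continuous_finsetSum _ fun n _ => ?_
      exact continuous_const.mul (ee_cont.comp (continuous_const.mul continuous_id))
    have hUb : ∀ y, ‖U y‖ ≤ B := by
      intro y
      rw [hU]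
      refine (norm_sum_le _ _).trans ?_
      have k4 : ∀ n ∈ Ico N0 (N0 + B), ‖w n * ee (θ * q ^ n * v ω) * ee (θ * q ^ n / β ^ G * y)‖ ≤ 1 := by
        intro n _
        rw [norm_mul, norm_mul, norm_ee, norm_ee, mul_one, mul_one]
        exact hw n
      refine (Finset.sum_le_sum k4).trans ?_
      rw [Finset.sum_const, Nat.card_Ico, Nat.add_sub_cancel_left, nsmul_eq_mul, mul_one]
    have hi1 : Integrable (fun y => ‖U y‖ ^ 2 / (B : ℝ) ^ 2) (ρ ω) := by
      apply Integrable.of_bound (C := 1) hUm.aestronglyMeasurable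
      filter_upwards with y
      rw [Real.norm_eq_abs, abs_of_nonneg (by positivity), div_le_one (by positivity)]
      exact pow_le_pow_left₀ (norm_nonneg _) (hUb y) 2
    have hi2 : Integrable (fun y => Z y ^ 2) (ρ ω) := by
      apply Integrable.of_bound (C := 1)
      · exact (hZm.pow_const 2).aestronglyMeasurable
      · filter_upwards with y
        rw [norm_pow, Real.norm_eq_abs]
        exact pow_le_one₀ (abs_nonneg _) (hZ1 y)
    have k5 := integral_mono hi2 hi1 k2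
    refine k5.trans ?_
    rw [integral_div, div_le_iff₀ (by positivity)]
    rw [hU]
    refine k1.trans (le_of_eq (by ring))
  have k1 := chern hZm hZ1 hδ hZ2
  have k2 : ∫⁻ y, ENNReal.ofReal (Real.exp ((∑ n ∈ range (N0 + B), w n * ee (θ * q ^ n * φ ω y)).re / B)) ∂(ρ ω) ≤
      ∫⁻ y, ENNReal.ofReal (Real.exp (S0 (v ω) / B + 2 * ε)) * ENNReal.ofReal (Real.exp (Z y)) ∂(ρ ω) := by
    apply lintegral_mono_ae
    filter_upwards [hl1] with y hy
    rw [← ENNReal.ofReal_mul (Real.exp_pos _).le, ← Real.exp_add]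
    apply ENNReal.ofReal_le_ofReal
    apply Real.exp_le_exp.2
    rw [hsplit, hZ, add_div]
    simp only
    have hε : 0 ≤ ε := (abs_nonneg _).trans hy.1
    have a1 : S0 (φ ω y) / B ≤ S0 (v ω) / B + ε := by
      rw [div_le_iff₀ hB0, add_mul, div_mul_cancel₀ _ hB0.ne']
      have := (abs_le.1 hy.1).2
      nlinarith
    have a2 : T (φ ω y) / B ≤ T (v ω + y / β ^ G) / B + ε := by
      rw [div_le_iff₀ hB0, add_mul, div_mul_cancel₀ _ hB0.ne']
      have := (abs_le.1 hy.2).2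
      nlinarith
    linarith
  have k3 : ENNReal.ofReal (Real.exp (S0 (v ω) / B - ε)) ≤
      ∫⁻ y, ENNReal.ofReal (Real.exp ((∑ n ∈ range N0, w n * ee (θ * q ^ n * φ ω y)).re / B)) ∂(ρ ω) := by
    have k4 : ∫⁻ _, ENNReal.ofReal (Real.exp (S0 (v ω) / B - ε)) ∂(ρ ω) = ENNReal.ofReal (Real.exp (S0 (v ω) / B - ε)) := by
      rw [lintegral_const, measure_univ, mul_one]
    rw [← k4]
    apply lintegral_mono_ae
    filter_upwards [hl1] with y hy
    apply ENNReal.ofReal_le_ofReal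
    apply Real.exp_le_exp.2
    have hε : 0 ≤ ε := (abs_nonneg _).trans hy.1
    have a1 : S0 (v ω) / B ≤ S0 (φ ω y) / B + ε := by
      rw [div_le_iff₀ hB0, add_mul, div_mul_cancel₀ _ hB0.ne']
      have := (abs_le.1 hy.1).1
      nlinarith
    rw [hS0] at a1 ⊢
    simp only at a1 ⊢
    linarith
  refine k2.trans ?_
  rw [lintegral_const_mul' _ _ ENNReal.ofReal_ne_top]
  calc ENNReal.ofReal (Real.exp (S0 (v ω) / B + 2 * ε)) * ∫⁻ y, ENNReal.ofReal (Real.exp (Z y)) ∂(ρ ω)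
      ≤ ENNReal.ofReal (Real.exp (S0 (v ω) / B + 2 * ε)) * ENNReal.ofReal (Real.exp (δ + δ ^ 2)) := by gcongr
    _ = ENNReal.ofReal (Real.exp (3 * ε + (δ + δ ^ 2))) * ENNReal.ofReal (Real.exp (S0 (v ω) / B - ε)) := by
        rw [← ENNReal.ofReal_mul (Real.exp_pos _).le, ← ENNReal.ofReal_mul (Real.exp_pos _).le, ← Real.exp_add,
          ← Real.exp_add]
        congr 2
        ring
    _ ≤ _ := by gcongr

theorem core {β : ℝ} (hβ : 1 < β) {q : ℝ} (hq : 1 < q) {T : ℕ → ℝ} {D : ℝ}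
    (hD : 0 ≤ D) {ν : Measure ℝ} [IsFiniteMeasure ν] (hL : ∀ η : ℝ, 0 < η → ∀ᶠ G : ℕ in atTop, Lay β q T D η G ν)
    (θ : ℝ) (hθ : θ ≠ 0) (w : ℕ → ℂ) (hw : ∀ n, ‖w n‖ ≤ 1) (lam : ℝ) (hlam : 0 < lam) :
    ∀ᵐ x ∂ν, ∀ᶠ N : ℕ in atTop, (∑ n ∈ range N, w n * ee (θ * q ^ n * x)).re ≤ lam * N := by
  have hb0 : 0 < β := by linarith
  have hq0 : 0 < q := by linarith
  have hq1 : 0 < q - 1 := by linarith
  have hθ0 : 0 < |θ| := abs_pos.2 hθ
  obtain ⟨l, hl⟩ : ∃ l : ℝ, l = min lam 1 / 2 := ⟨_, rfl⟩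
  have hl0 : 0 < l := by rw [hl]; positivity
  have hl1 : l ≤ 1 / 2 := by
    rw [hl]
    have := min_le_right lam 1
    linarith
  have hl2 : 2 * l ≤ lam := by
    rw [hl]
    have := min_le_left lam 1
    linarith
  obtain ⟨ε, hε⟩ : ∃ ε : ℝ, ε = l / 16 := ⟨_, rfl⟩
  obtain ⟨δ, hδ⟩ : ∃ δ : ℝ, δ = l / 8 := ⟨_, rfl⟩
  have hε0 : 0 < ε := by rw [hε]; positivity
  have hδ0 : 0 < δ := by rw [hδ]; positivity
  have hκ : 3 * ε + (δ + δ ^ 2) ≤ l / 2 := by
    rw [hε, hδ]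
    nlinarith
  obtain ⟨Cl, hCl⟩ : ∃ Cl : ℝ, Cl = 2 * π * (D + 1) / ((q - 1) * ε) := ⟨_, rfl⟩
  have hCl0 : 0 < Cl := by rw [hCl]; positivity
  obtain ⟨B, hB1, hB⟩ := blockB (Cl := β * Cl) hβ hq T (by positivity) hδ0
  have hB0 : (0 : ℝ) < B := by exact_mod_cast hB1
  obtain ⟨η, hη⟩ : ∃ η : ℝ, η = min 1 (ε * ((q - 1) * Cl) / (2 * π * q ^ B)) := ⟨_, rfl⟩
  have hη0 : 0 < η := by
    rw [hη]
    apply lt_min one_pos
    positivity
  have hη1 : η ≤ 1 := by rw [hη]; exact min_le_left _ _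
  have hη2 : 2 * π * q ^ B * η ≤ ε * ((q - 1) * Cl) := by
    have h1 : η ≤ ε * ((q - 1) * Cl) / (2 * π * q ^ B) := by rw [hη]; exact min_le_right _ _
    rw [le_div_iff₀ (by positivity)] at h1
    linarith
  obtain ⟨G0, hG0⟩ := eventually_atTop.1 (hL η hη0)
  obtain ⟨M0, hM0⟩ := pow_unbounded_of_one_lt (β ^ G0 / (Cl * |θ|)) hq
  obtain ⟨A, hA⟩ : ∃ A : ℕ → ℝ≥0∞, A = fun M =>
      ∫⁻ x, ENNReal.ofReal (Real.exp ((∑ n ∈ range (M * B), w n * ee (θ * q ^ n * x)).re / B)) ∂ν := ⟨_, rfl⟩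
  obtain ⟨κ, hκ'⟩ : ∃ κ : ℝ, κ = 3 * ε + (δ + δ ^ 2) := ⟨_, rfl⟩
  have hstep : ∀ M, M0 ≤ M → A (M + 1) ≤ ENNReal.ofReal (Real.exp κ) * A M := by
    intro M hM
    have h1 : β ^ G0 ≤ Cl * |θ| * q ^ (M * B) := by
      have h2 : q ^ M0 ≤ q ^ (M * B) := pow_le_pow_right₀ hq.le (hM.trans (Nat.le_mul_of_pos_right _ hB1))
      rw [div_lt_iff₀ (by positivity)] at hM0
      calc β ^ G0 ≤ q ^ M0 * (Cl * |θ|) := hM0.le
        _ ≤ q ^ (M * B) * (Cl * |θ|) := mul_le_mul_of_nonneg_right h2 (by positivity)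
        _ = _ := by ring
    obtain ⟨n, hn1, hn2⟩ := exists_nat_pow_near (x := Cl * |θ| * q ^ (M * B)) (y := β)
      (le_trans (one_le_pow₀ (by linarith)) h1) (by linarith)
    have hGn : G0 ≤ n + 1 := by
      have h3 := h1.trans_lt hn2
      rw [pow_lt_pow_iff_right₀ (by linarith)] at h3
      omega
    obtain ⟨G, hG⟩ : ∃ G, G = n + 1 := ⟨_, rfl⟩
    rw [← hG] at hn2 hGn
    have hGup : β ^ G ≤ β * Cl * |θ| * q ^ (M * B) := by
      rw [hG, pow_succ]
      calc β ^ n * β ≤ (Cl * |θ| * q ^ (M * B)) * β := mul_le_mul_of_nonneg_right hn1 hb0.le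
        _ = _ := by ring
    have e1 := step hβ hq (N0 := M * B) hB1 (hG0 G hGn) θ w hw (ε := ε) hδ0 (by
      have h3 : 2 * π * |θ| * (q ^ (M * B) / (q - 1)) * ((D + η) / β ^ G) ≤
          2 * π * |θ| * (q ^ (M * B) / (q - 1)) * ((D + 1) / (Cl * |θ| * q ^ (M * B))) := by
        gcongr
      refine h3.trans (le_of_eq ?_)
      rw [hCl]
      have : D + 1 ≠ 0 := by positivity
      field_simp) (by
      have h3 : 2 * π * |θ| * (q ^ (M * B + B) / (q - 1)) * (η / β ^ G) ≤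
          2 * π * |θ| * (q ^ (M * B + B) / (q - 1)) * (η / (Cl * |θ| * q ^ (M * B))) := by
        gcongr
      refine h3.trans ?_
      have h4 : 2 * π * |θ| * (q ^ (M * B + B) / (q - 1)) * (η / (Cl * |θ| * q ^ (M * B))) =
          2 * π * q ^ B * η / ((q - 1) * Cl) := by
        rw [pow_add]
        field_simp
      rw [h4, div_le_iff₀ (by positivity)]
      exact hη2) (fun ρ _ w' hF hw' => hB θ (M * B) G ρ w' (by
        refine hGup.trans (le_of_eq ?_)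
        ring) hF hw')
    have e2 : (M + 1) * B = M * B + B := by ring
    rw [hA, hκ']
    simp only [e2]
    exact e1
  have hgrow : ∀ k, A (M0 + k) ≤ ENNReal.ofReal (Real.exp κ) ^ k * A M0 := by
    intro k
    induction k with
    | zero => simp
    | succ k ih =>
      refine (hstep (M0 + k) (by omega)).trans ?_
      rw [pow_succ']
      rw [mul_assoc]
      gcongr
  have hAfin : A M0 ≠ ∞ := by
    rw [hA]
    simp only
    have h1 : ∫⁻ x, ENNReal.ofReal (Real.exp ((∑ n ∈ range (M0 * B), w n * ee (θ * q ^ n * x)).re / B)) ∂ν ≤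
        ∫⁻ _, ENNReal.ofReal (Real.exp ((M0 * B : ℕ) / B)) ∂ν := by
      refine lintegral_mono fun x => ?_
      apply ENNReal.ofReal_le_ofReal
      apply Real.exp_le_exp.2
      apply div_le_div_of_nonneg_right _ hB0.le
      refine (le_abs_self _).trans ((re_bound _ w hw _).trans ?_)
      rw [card_range]
    refine ne_top_of_le_ne_top ?_ h1
    rw [lintegral_const]
    exact ENNReal.mul_ne_top ENNReal.ofReal_ne_top (measure_ne_top _ _)
  obtain ⟨s, hs⟩ : ∃ s : ℕ → Set ℝ, s = fun k => {x | l * ((M0 + k : ℕ) : ℝ) ≤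
      (∑ n ∈ range ((M0 + k) * B), w n * ee (θ * q ^ n * x)).re / B} := ⟨_, rfl⟩
  have hsm : ∀ k, ν (s k) ≤ A M0 * ENNReal.ofReal (Real.exp (-(l / 2))) ^ k := by
    intro k
    have h1 := mul_meas_ge_le_lintegral (μ := ν) (f := fun x =>
      ENNReal.ofReal (Real.exp ((∑ n ∈ range ((M0 + k) * B), w n * ee (θ * q ^ n * x)).re / B)))
      ((Real.measurable_exp.comp ((re_meas _ _ _).div_const _)).ennreal_ofReal)
      (ENNReal.ofReal (Real.exp (l * ((M0 + k : ℕ) : ℝ))))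
    have h2 : s k = {x | ENNReal.ofReal (Real.exp (l * ((M0 + k : ℕ) : ℝ))) ≤
        ENNReal.ofReal (Real.exp ((∑ n ∈ range ((M0 + k) * B), w n * ee (θ * q ^ n * x)).re / B))} := by
      rw [hs]
      ext x
      simp only [Set.mem_ofPred_eq]
      rw [ENNReal.ofReal_le_ofReal_iff (Real.exp_pos _).le, Real.exp_le_exp]
    rw [← h2] at h1
    have h3 : ENNReal.ofReal (Real.exp (l * ((M0 + k : ℕ) : ℝ))) * ν (s k) ≤ ENNReal.ofReal (Real.exp κ) ^ k * A M0 := by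
      refine h1.trans ?_
      have := hgrow k
      rw [hA] at this ⊢
      exact this
    have h4 : ν (s k) = ENNReal.ofReal (Real.exp (-(l * ((M0 + k : ℕ) : ℝ)))) *
        (ENNReal.ofReal (Real.exp (l * ((M0 + k : ℕ) : ℝ))) * ν (s k)) := by
      rw [← mul_assoc, ← ENNReal.ofReal_mul (Real.exp_pos _).le, ← Real.exp_add, neg_add_cancel, Real.exp_zero,
        ENNReal.ofReal_one, one_mul]
    rw [h4]
    calc ENNReal.ofReal (Real.exp (-(l * ((M0 + k : ℕ) : ℝ)))) *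
        (ENNReal.ofReal (Real.exp (l * ((M0 + k : ℕ) : ℝ))) * ν (s k)) ≤
        ENNReal.ofReal (Real.exp (-(l * ((M0 + k : ℕ) : ℝ)))) * (ENNReal.ofReal (Real.exp κ) ^ k * A M0) := by gcongr
      _ = (ENNReal.ofReal (Real.exp (-(l * ((M0 + k : ℕ) : ℝ)))) * ENNReal.ofReal (Real.exp κ) ^ k) * A M0 := by ring
      _ ≤ ENNReal.ofReal (Real.exp (-(l / 2))) ^ k * A M0 := by
          gcongr
          rw [← ENNReal.ofReal_pow (Real.exp_pos _).le, ← ENNReal.ofReal_pow (Real.exp_pos _).le,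
            ← ENNReal.ofReal_mul (Real.exp_pos _).le]
          apply ENNReal.ofReal_le_ofReal
          rw [← Real.exp_nat_mul, ← Real.exp_nat_mul, ← Real.exp_add]
          apply Real.exp_le_exp.2
          push_cast
          have h5 : κ * k ≤ l / 2 * k := mul_le_mul_of_nonneg_right (by rw [hκ']; exact hκ) (Nat.cast_nonneg k)
          have h6 : 0 ≤ l * M0 := by positivity
          linarith
      _ = _ := by ring
  have hsum : ∑' k, ν (s k) ≠ ∞ := by
    refine ne_top_of_le_ne_top ?_ (ENNReal.tsum_le_tsum hsm)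
    rw [ENNReal.tsum_mul_left]
    apply ENNReal.mul_ne_top hAfin
    rw [ENNReal.tsum_geometric]
    apply ENNReal.inv_ne_top.2
    have h1 : ENNReal.ofReal (Real.exp (-(l / 2))) < 1 := by
      rw [← ENNReal.ofReal_one]
      apply (ENNReal.ofReal_lt_ofReal_iff one_pos).2
      rw [Real.exp_lt_one_iff]
      linarith
    exact (tsub_pos_of_lt h1).ne'
  filter_upwards [ae_eventually_notMem hsum] with x hx
  obtain ⟨k0, hk0⟩ := eventually_atTop.1 hx
  obtain ⟨N1, hN1⟩ := exists_nat_ge ((B : ℝ) / l)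
  filter_upwards [eventually_ge_atTop ((M0 + k0 + 1) * B), eventually_ge_atTop N1] with N hN hNN
  obtain ⟨M, hM⟩ : ∃ M, M = N / B := ⟨_, rfl⟩
  have hMB : M * B ≤ N := by rw [hM]; exact Nat.div_mul_le_self N B
  have hMB2 : N < M * B + B := by
    rw [hM]
    have h1 := Nat.div_add_mod N B
    have h2 := Nat.mod_lt N (show 0 < B by omega)
    rw [mul_comm] at h1
    omega
  have hMM : M0 + k0 ≤ M := by
    rw [hM, Nat.le_div_iff_mul_le (by omega)]
    refine le_trans ?_ hN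
    exact Nat.mul_le_mul_right _ (by omega)
  have h1 := hk0 (M - M0) (by omega)
  rw [hs] at h1
  simp only [Set.mem_ofPred_eq, not_le] at h1
  have h2 : M0 + (M - M0) = M := by omega
  rw [h2, div_lt_iff₀ hB0] at h1
  rw [← Finset.sum_range_add_sum_Ico _ hMB, Complex.add_re]
  have h3 : (∑ n ∈ Ico (M * B) N, w n * ee (θ * q ^ n * x)).re ≤ B := by
    refine (le_abs_self _).trans ((re_bound _ w hw _).trans ?_)
    rw [Nat.card_Ico]
    have : N - M * B ≤ B := by omega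
    exact_mod_cast this
  have h4 : l * M * B ≤ l * N := by
    rw [mul_assoc]
    apply mul_le_mul_of_nonneg_left _ hl0.le
    exact_mod_cast hMB
  have h5 : (B : ℝ) ≤ l * N := by
    rw [div_le_iff₀ hl0] at hN1
    have : (N1 : ℝ) ≤ N := by exact_mod_cast hNN
    nlinarith
  have h6 : 2 * l * N ≤ lam * N := mul_le_mul_of_nonneg_right hl2 (Nat.cast_nonneg N)
  linarith

/-- the complex form -/
theorem core' {β : ℝ} (hβ : 1 < β) {q : ℝ} (hq : 1 < q) {T : ℕ → ℝ} {D : ℝ}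
    (hD : 0 ≤ D) {ν : Measure ℝ} [IsFiniteMeasure ν] (hL : ∀ η : ℝ, 0 < η → ∀ᶠ G : ℕ in atTop, Lay β q T D η G ν)
    (θ : ℝ) (hθ : θ ≠ 0) (w : ℕ → ℂ) (hw : ∀ n, ‖w n‖ ≤ 1) :
    ∀ᵐ x ∂ν, ∀ lam : ℝ, 0 < lam → ∀ᶠ N : ℕ in atTop, ‖∑ n ∈ range N, w n * ee (θ * q ^ n * x)‖ ≤ lam * N := by
  have h1 : ∀ u : ℂ, ‖u‖ ≤ 1 → ∀ᵐ x ∂ν, ∀ j : ℕ, ∀ᶠ N : ℕ in atTop,
      (∑ n ∈ range N, (u * w n) * ee (θ * q ^ n * x)).re ≤ 1 / ((j : ℝ) + 1) * N := by
    intro u hu
    rw [ae_all_iff]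
    intro j
    exact core hβ hq hD hL θ hθ (fun n => u * w n) (fun n => by
      rw [norm_mul]
      exact mul_le_one₀ hu (norm_nonneg _) (hw n)) _ (by positivity)
  filter_upwards [h1 1 (by simp), h1 (-1) (by simp), h1 Complex.I (by simp), h1 (-Complex.I) (by simp)] with x e1 e2 e3 e4
  intro lam hlam
  obtain ⟨j, hj⟩ := exists_nat_one_div_lt (show 0 < lam / 2 by positivity)
  filter_upwards [e1 j, e2 j, e3 j, e4 j] with N f1 f2 f3 f4
  obtain ⟨z, hz⟩ : ∃ z : ℂ, z = ∑ n ∈ range N, w n * ee (θ * q ^ n * x) := ⟨_, rfl⟩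
  have g : ∀ u : ℂ, ∑ n ∈ range N, (u * w n) * ee (θ * q ^ n * x) = u * z := by
    intro u
    rw [hz, Finset.mul_sum]
    refine Finset.sum_congr rfl fun n _ => by ring
  rw [g] at f1 f2 f3 f4
  rw [← hz]
  obtain ⟨t, ht⟩ : ∃ t : ℝ, t = 1 / ((j : ℝ) + 1) * N := ⟨_, rfl⟩
  rw [← ht] at f1 f2 f3 f4
  have k1 : |z.re| ≤ t := by
    rw [abs_le]
    constructor
    · have : (-1 * z).re = -z.re := by simp
      rw [this] at f2
      linarith
    · rw [one_mul] at f1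
      exact f1
  have k2 : |z.im| ≤ t := by
    rw [abs_le]
    constructor
    · have : (Complex.I * z).re = -z.im := by simp
      rw [this] at f3
      linarith
    · have : (-Complex.I * z).re = z.im := by simp
      rw [this] at f4
      exact f4
  have k3 : ‖z‖ ≤ |z.re| + |z.im| := Complex.norm_le_abs_re_add_abs_im z
  have k4 : t ≤ lam / 2 * N := by
    rw [ht]
    exact mul_le_mul_of_nonneg_right hj.le (Nat.cast_nonneg N)
  linarith

end Pool.Agent.J4H75.CN
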