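import Pool.Agent.J4H75.CN.Ss
import Pool.Agent.J4H40.Ef

set_option autoImplicit false

/-! The Fourier transform of a self-similar measure. -/

namespace Pool.Agent.J4H75.CN

open MeasureTheory Finset Filter Topology
open scoped Real ENNReal ComplexConjugate
open Pool.Agent.J4H75.PN (ee norm_ee ee_add)
open Pool.Agent.J4H40.Ca (ee_cont ee_conj dn dn_nn dn_abs_mul two_atoms)

variable {ι : Type} [Fintype ι] {p r v : ι → ℝ} {ν : Measure ℝ}

/-- the modulus of the Fourier transform -/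
noncomputable def Qf (ν : Measure ℝ) (t : ℝ) : ℝ := ‖∫ x, ee (t * x) ∂ν‖

lemma Qf_nn (t : ℝ) : 0 ≤ Qf ν t := norm_nonneg _

lemma Qf_le [IsProbabilityMeasure ν] (t : ℝ) : Qf ν t ≤ 1 := by
  refine (norm_integral_le_integral_norm _).trans ?_
  simp only [norm_ee]
  rw [integral_const, probReal_univ, one_smul]

lemma Qf_neg (t : ℝ) : Qf ν (-t) = Qf ν t := by
  unfold Qf
  have h3 : ∀ x : ℝ, ee (-t * x) = conj (ee (t * x)) := by
    intro x
    rw [ee_conj]
    congr 1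
    ring
  simp only [h3]
  rw [integral_conj, RCLike.norm_conj]

lemma Qf_abs (t : ℝ) : Qf ν |t| = Qf ν t := by
  rcases abs_choice t with h | h
  · rw [h]
  · rw [h, Qf_neg]

lemma Qf_abs2 {t s : ℝ} (h : |t| = |s|) : Qf ν t = Qf ν s := by
  rw [← Qf_abs t, ← Qf_abs s, h]

lemma SSim.four [IsProbabilityMeasure ν] (h : SSim p r v ν) (τ : ℝ) :
    ∫ x, ee (τ * x) ∂ν = ∑ i, (p i : ℂ) * (ee (τ * v i) * ∫ x, ee (r i * τ * x) ∂ν) := by
  have hee : ∀ τ : ℝ, Continuous fun x : ℝ => ee (τ * x) := fun τ => ee_cont.comp (continuous_const.mul continuous_id)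
  have hint : ∀ (τ : ℝ) (m : Measure ℝ) [IsFiniteMeasure m], Integrable (fun x : ℝ => ee (τ * x)) m := by
    intro τ m _
    refine Integrable.of_bound (hee τ).aestronglyMeasurable 1 ?_
    filter_upwards with x
    rw [norm_ee]
  have hpm : ∀ i, IsProbabilityMeasure (ν.map fun x => r i * x + v i) := fun i =>
    Measure.isProbabilityMeasure_map (SSim.meas r v i).aemeasurable
  have h0 : ∀ i ∈ (univ : Finset ι), Integrable (fun x : ℝ => ee (τ * x)) (ENNReal.ofReal (p i) • ν.map (fun x => r i * x + v i)) := by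
    intro i _
    have := hpm i
    exact (hint τ _).smul_measure ENNReal.ofReal_ne_top
  conv_lhs => rw [h.eq]
  rw [integral_finsetSum_measure h0]
  refine Finset.sum_congr rfl fun i _ => ?_
  rw [integral_smul_measure, ENNReal.toReal_ofReal (h.p_pos i).le, Complex.real_smul,
    integral_map (SSim.meas r v i).aemeasurable (hee τ).aestronglyMeasurable]
  congr 1
  rw [← integral_const_mul]
  refine integral_congr_ae ?_
  filter_upwards with x
  rw [← ee_add]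
  congr 1
  ring

lemma SSim.q1 [IsProbabilityMeasure ν] (h : SSim p r v ν) (t : ℝ) : Qf ν t ≤ ∑ i, p i * Qf ν (r i * t) := by
  unfold Qf
  rw [h.four]
  refine (norm_sum_le _ _).trans (Finset.sum_le_sum fun i _ => ?_)
  rw [norm_mul, norm_mul, norm_ee, one_mul, Complex.norm_real, Real.norm_eq_abs, abs_of_pos (h.p_pos i)]

lemma SSim.q2 [IsProbabilityMeasure ν] (h : SSim p r v ν) (hne : ∃ i j, v i * (1 - r j) ≠ v j * (1 - r i)) :
    ∃ u κ : ℝ, 0 < u ∧ 0 < κ ∧ κ ≤ 1 ∧ ∀ t R : ℝ, (∀ i j, Qf ν (r i * r j * t) ≤ R) →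
      Qf ν t ≤ (1 - κ * dn (u * t) ^ 2) * R := by
  classical
  obtain ⟨i0, j0, hij⟩ := hne
  have hii : i0 ≠ j0 := by
    rintro rfl
    exact hij rfl
  have hp := h.p_pos
  have hps := h.psum
  have hF1 := h.four
  have hF2 : ∀ τ : ℝ, ∫ x, ee (τ * x) ∂ν = ∑ z : ι × ι, ((p z.1 * p z.2 : ℝ) : ℂ) *
      (ee (τ * (v z.1 + r z.1 * v z.2)) * ∫ x, ee (r z.1 * r z.2 * τ * x) ∂ν) := by
    intro τ
    rw [hF1 τ, Fintype.sum_prod_type]
    refine Finset.sum_congr rfl fun i _ => ?_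
    rw [hF1 (r i * τ), Finset.mul_sum, Finset.mul_sum]
    refine Finset.sum_congr rfl fun j _ => ?_
    have h1 : ee (τ * (v i + r i * v j)) = ee (τ * v i) * ee (r i * τ * v j) := by
      rw [← ee_add]
      congr 1
      ring
    have h2 : r j * (r i * τ) = r i * r j * τ := by ring
    rw [h1, h2]
    push_cast
    ring
  obtain ⟨u, hu⟩ : ∃ u : ℝ, u = (v j0 + r j0 * v i0) - (v i0 + r i0 * v j0) := ⟨_, rfl⟩
  have hu0 : u ≠ 0 := by
    intro h
    apply hij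
    rw [hu] at h
    linarith
  obtain ⟨κ, hκ⟩ : ∃ κ : ℝ, κ = 4 * (p i0 * p j0) := ⟨_, rfl⟩
  have hκ0 : 0 < κ := by
    rw [hκ]
    have := mul_pos (hp i0) (hp j0)
    linarith
  have hκ1 : κ ≤ 1 := by
    have h1 : p i0 + p j0 ≤ 1 := by
      rw [← hps, ← Finset.sum_pair hii]
      exact Finset.sum_le_sum_of_subset_of_nonneg (Finset.subset_univ _) fun i _ _ => (hp i).le
    rw [hκ]
    nlinarith [sq_nonneg (p i0 - p j0), hp i0, hp j0]
  refine ⟨|u|, κ, abs_pos.2 hu0, hκ0, hκ1, ?_⟩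
  intro τ R hRij
  unfold Qf at hRij ⊢
  have hzz : (i0, j0) ≠ (j0, i0) := by
    intro h
    exact hii (Prod.ext_iff.1 h).1
  obtain ⟨Sp, hSp⟩ : ∃ Sp : Finset (ι × ι), Sp = {(i0, j0), (j0, i0)} := ⟨_, rfl⟩
  rw [hF2 τ, ← Finset.sum_sdiff (Finset.subset_univ Sp)]
  have hw : ∑ z : ι × ι, p z.1 * p z.2 = 1 := by
    rw [Fintype.sum_prod_type, ← Finset.sum_mul_sum, hps, one_mul]
  have hw2 := hw
  rw [← Finset.sum_sdiff (Finset.subset_univ Sp)] at hw2
  have hw3 : ∑ z ∈ Sp, p z.1 * p z.2 = 2 * (p i0 * p j0) := by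
    rw [hSp, Finset.sum_pair hzz]
    ring
  have e1 : ‖∑ z ∈ univ \ Sp, ((p z.1 * p z.2 : ℝ) : ℂ) *
      (ee (τ * (v z.1 + r z.1 * v z.2)) * ∫ x, ee (r z.1 * r z.2 * τ * x) ∂ν)‖ ≤ (∑ z ∈ univ \ Sp, p z.1 * p z.2) * R := by
    rw [Finset.sum_mul]
    refine (norm_sum_le _ _).trans (Finset.sum_le_sum fun z _ => ?_)
    have h1 : 0 < p z.1 * p z.2 := mul_pos (hp _) (hp _)
    rw [norm_mul, norm_mul, norm_ee, one_mul, Complex.norm_real, Real.norm_eq_abs, abs_of_pos h1]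
    exact mul_le_mul_of_nonneg_left (hRij _ _) h1.le
  have e2 : ‖∑ z ∈ Sp, ((p z.1 * p z.2 : ℝ) : ℂ) *
      (ee (τ * (v z.1 + r z.1 * v z.2)) * ∫ x, ee (r z.1 * r z.2 * τ * x) ∂ν)‖ ≤
      p i0 * p j0 * (2 - 4 * dn (|u| * τ) ^ 2) * R := by
    rw [hSp, Finset.sum_pair hzz]
    simp only
    have h1 : ((p i0 * p j0 : ℝ) : ℂ) * (ee (τ * (v i0 + r i0 * v j0)) * ∫ x, ee (r i0 * r j0 * τ * x) ∂ν) +
        ((p j0 * p i0 : ℝ) : ℂ) * (ee (τ * (v j0 + r j0 * v i0)) * ∫ x, ee (r j0 * r i0 * τ * x) ∂ν) =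
        ((p i0 * p j0 : ℝ) : ℂ) * (ee (τ * (v i0 + r i0 * v j0)) * (1 + ee (u * τ))) * ∫ x, ee (r i0 * r j0 * τ * x) ∂ν := by
      have h2 : ee (τ * (v j0 + r j0 * v i0)) = ee (τ * (v i0 + r i0 * v j0)) * ee (u * τ) := by
        rw [← ee_add, hu]
        congr 1
        ring
      rw [h2, mul_comm (r j0) (r i0), mul_comm (p j0) (p i0)]
      ring
    have h3 : 0 < p i0 * p j0 := mul_pos (hp _) (hp _)
    have h4 := two_atoms (u * τ)
    rw [← dn_abs_mul] at h4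
    rw [h1, norm_mul, norm_mul, norm_mul, norm_ee, one_mul, Complex.norm_real, Real.norm_eq_abs, abs_of_pos h3]
    exact mul_le_mul (mul_le_mul_of_nonneg_left h4 h3.le) (hRij _ _) (norm_nonneg _)
      (mul_nonneg h3.le ((norm_nonneg _).trans h4))
  refine (norm_add_le _ _).trans ((add_le_add e1 e2).trans (le_of_eq ?_))
  rw [hκ]
  have h5 : ∑ z ∈ univ \ Sp, p z.1 * p z.2 = 1 - 2 * (p i0 * p j0) := by linarith
  rw [h5]
  ring

/-- decay implies the property `Few` -/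
lemma few_of_decay [IsProbabilityMeasure ν] (hφ : Tendsto (fun t => Qf ν t) atTop (𝓝 0)) {q : ℝ} (hq : 1 < q) :
    ∃ T : ℕ → ℝ, Few q T ν := by
  have h1 : ∀ K : ℕ, ∃ T0 : ℝ, ∀ t, T0 ≤ |t| → Qf ν t ≤ 1 / ((K : ℝ) + 1) := by
    intro K
    obtain ⟨T0, hT0⟩ := eventually_atTop.1 (hφ.eventually (gt_mem_nhds (show (0 : ℝ) < 1 / ((K : ℝ) + 1) by positivity)))
    refine ⟨T0, fun t ht => ?_⟩
    rw [← Qf_abs]
    exact (hT0 _ ht).le
  choose T0 hT0 using h1
  refine ⟨fun K => 2 * |T0 K| / (q - 1) + 1, ?_⟩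
  intro K θ τ0 hθ
  simp only at hθ
  have hq1 : 0 < q - 1 := by linarith
  have hθ0 : 0 < |θ| := lt_of_lt_of_le (by positivity) hθ
  have hθ1 : 2 * |T0 K| < |θ| * (q - 1) := by
    have h2 : 2 * |T0 K| / (q - 1) < |θ| := by linarith
    rwa [div_lt_iff₀ hq1] at h2
  classical
  obtain ⟨S, hS⟩ : ∃ S : Finset ℕ, S = (range (K + 1)).filter fun m => |θ * q ^ m - τ0| < |T0 K| := ⟨_, rfl⟩
  have hcard : S.card ≤ 1 := by
    rw [Finset.card_le_one]
    intro a ha b hb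
    rw [hS, Finset.mem_filter] at ha hb
    by_contra hab
    have key : ∀ a b : ℕ, a < b → |θ * q ^ a - τ0| < |T0 K| → |θ * q ^ b - τ0| < |T0 K| → False := by
      intro a b hlt ha hb
      have h3 : |θ * q ^ b - θ * q ^ a| < 2 * |T0 K| := by
        have : θ * q ^ b - θ * q ^ a = (θ * q ^ b - τ0) - (θ * q ^ a - τ0) := by ring
        rw [this]
        refine (abs_sub _ _).trans_lt ?_
        linarith
      have h4 : |θ| * (q - 1) ≤ |θ * q ^ b - θ * q ^ a| := by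
        rw [← mul_sub, abs_mul]
        apply mul_le_mul_of_nonneg_left _ hθ0.le
        have h5 : q ^ b = q ^ a * q ^ (b - a) := by
          rw [← pow_add]
          congr 1
          omega
        have h6 : 1 ≤ q ^ a := one_le_pow₀ hq.le
        have h7 : q ≤ q ^ (b - a) := by
          calc q = q ^ 1 := (pow_one q).symm
            _ ≤ q ^ (b - a) := pow_le_pow_right₀ hq.le (by omega)
        rw [h5]
        refine le_trans ?_ (le_abs_self _)
        nlinarith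
      linarith
    rcases lt_or_gt_of_ne hab with h2 | h2
    · exact key a b h2 ha.2 hb.2
    · exact key b a h2 hb.2 ha.2
  have hle : ∀ m ∈ range (K + 1), ‖∫ y, ee ((θ * q ^ m - τ0) * y) ∂ν‖ ≤ (if m ∈ S then (1 : ℝ) else 0) + 1 / ((K : ℝ) + 1) := by
    intro m hm
    have hK0 : (0 : ℝ) < 1 / ((K : ℝ) + 1) := by positivity
    by_cases h2 : m ∈ S
    · rw [if_pos h2]
      have : ‖∫ y, ee ((θ * q ^ m - τ0) * y) ∂ν‖ ≤ 1 := Qf_le _
      linarith
    · rw [if_neg h2, zero_add]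
      rw [hS, Finset.mem_filter] at h2
      push Not at h2
      exact hT0 K _ ((le_abs_self _).trans (h2 hm))
  refine (Finset.sum_le_sum hle).trans ?_
  rw [Finset.sum_add_distrib, Finset.sum_const, card_range, nsmul_eq_mul, Finset.sum_ite_mem, Finset.sum_const,
    nsmul_eq_mul, mul_one]
  have c1 : (((range (K + 1) ∩ S).card : ℕ) : ℝ) ≤ 1 := by
    have h1 := (Finset.card_le_card (Finset.inter_subset_right (s₁ := range (K + 1)) (s₂ := S))).trans hcard
    exact_mod_cast h1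
  have c2 : ((K + 1 : ℕ) : ℝ) * (1 / ((K : ℝ) + 1)) = 1 := by
    push_cast
    field_simp
  linarith

end Pool.Agent.J4H75.CN
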