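import Mathlib

set_option autoImplicit false

/-! Hankel determinants: Hadamard's inequality and Kronecker's theorem. -/

namespace Pool.Agent.J4H75.CN

open Finset Filter Topology Polynomial

/-- Hadamard's inequality -/
lemma had {m : ℕ} (A : Matrix (Fin m) (Fin m) ℝ) : |A.det| ≤ ∏ j, Real.sqrt (∑ i, A i j ^ 2) := by
  obtain ⟨b, hb⟩ : ∃ b : OrthonormalBasis (Fin m) ℝ (EuclideanSpace ℝ (Fin m)), b = EuclideanSpace.basisFun (Fin m) ℝ :=
    ⟨_, rfl⟩
  have hf : Fact (Module.finrank ℝ (EuclideanSpace ℝ (Fin m)) = m) := ⟨finrank_euclideanSpace_fin⟩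
  obtain ⟨v, hv⟩ : ∃ v : Fin m → EuclideanSpace ℝ (Fin m), v = fun j => WithLp.toLp 2 (fun i => A i j) := ⟨_, rfl⟩
  have h1 := b.toBasis.orientation.abs_volumeForm_apply_le v
  rw [b.toBasis.orientation.volumeForm_robust' b v] at h1
  have h2 : b.toBasis.det v = A.det := by
    rw [Module.Basis.det_apply]
    congr 1
    ext i j
    rw [Module.Basis.toMatrix_apply, hb, hv]
    simp
  rw [h2] at h1
  refine h1.trans (le_of_eq ?_)
  refine Finset.prod_congr rfl fun j _ => ?_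
  rw [hv, EuclideanSpace.norm_eq]
  simp

/-- the linear functional with the moments `n` -/
noncomputable def ell (n : ℕ → ℚ) : ℚ[X] →ₗ[ℚ] ℚ := Polynomial.lsum fun i => n i • (LinearMap.id : ℚ →ₗ[ℚ] ℚ)

lemma ell_mono (n : ℕ → ℚ) (i : ℕ) (a : ℚ) : ell n (monomial i a) = n i * a := by
  unfold ell
  rw [lsum_apply, sum_monomial_index]
  · rfl
  · simp

lemma ell_X (n : ℕ → ℚ) (F : ℚ[X]) (i N : ℕ) (hN : F.natDegree < N) : ell n (F * X ^ i) = ∑ j ∈ range N, F.coeff j * n (i + j) := by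
  conv_lhs => rw [F.as_sum_range' N hN]
  rw [Finset.sum_mul, map_sum]
  refine Finset.sum_congr rfl fun j _ => ?_
  rw [monomial_mul_X_pow, ell_mono, add_comm j i, mul_comm]

lemma ell_zero (n : ℕ → ℚ) {A : ℚ[X]} {N : ℕ} (h : ∀ i < N, ell n (A * X ^ i) = 0) {B : ℚ[X]} (hB : B.natDegree < N) :
    ell n (A * B) = 0 := by
  rw [B.as_sum_range' N hB, Finset.mul_sum, map_sum]
  refine Finset.sum_eq_zero fun i hi => ?_
  have h1 : A * monomial i (B.coeff i) = B.coeff i • (A * X ^ i) := by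
    rw [← C_mul_X_pow_eq_monomial, smul_eq_C_mul]
    ring
  rw [h1, map_smul, h i (Finset.mem_range.1 hi), smul_zero]

/-- the Hankel matrices -/
def Hk (n : ℕ → ℚ) (k : ℕ) : Matrix (Fin k) (Fin k) ℚ := fun i j => n (i + j)

/-- the polynomial of a vector -/
noncomputable def pv {k : ℕ} (a : Fin k → ℚ) : ℚ[X] := ∑ j : Fin k, monomial (j : ℕ) (a j)

lemma pv_coeff {k : ℕ} (a : Fin k → ℚ) (j : Fin k) : (pv a).coeff j = a j := by
  unfold pv
  rw [finsetSum_coeff, Finset.sum_eq_single j]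
  · rw [coeff_monomial, if_pos rfl]
  · intro i _ hi
    rw [coeff_monomial, if_neg]
    intro h
    exact hi (Fin.ext h)
  · intro h
    exact absurd (Finset.mem_univ j) h

lemma pv_deg {k : ℕ} (a : Fin k → ℚ) : (pv a).degree < k := by
  rw [degree_lt_iff_coeff_zero]
  intro m hm
  unfold pv
  rw [finsetSum_coeff]
  refine Finset.sum_eq_zero fun j _ => ?_
  rw [coeff_monomial, if_neg]
  have := j.2
  omega

lemma ell_pv (n : ℕ → ℚ) {k : ℕ} (a : Fin k → ℚ) (i : Fin k) : ell n (pv a * X ^ (i : ℕ)) = (Hk n k).mulVec a i := by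
  unfold pv
  rw [Finset.sum_mul, map_sum, Matrix.mulVec, dotProduct]
  refine Finset.sum_congr rfl fun j _ => ?_
  rw [monomial_mul_X_pow, ell_mono, Hk, add_comm (j : ℕ) (i : ℕ)]

lemma natDegree_lt_of_degree_lt {F : ℚ[X]} {k : ℕ} (hk : 0 < k) (h : F.degree < k) : F.natDegree < k := by
  by_cases h0 : F = 0
  · rw [h0, natDegree_zero]
    exact hk
  · exact (natDegree_lt_iff_degree_lt h0).2 h

/-- the orthogonal polynomial -/
lemma orth (n : ℕ → ℚ) {k : ℕ} (hk : (Hk n k).det ≠ 0) : ∃ P : ℚ[X], P.Monic ∧ P.natDegree = k ∧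
    ∀ i < k, ell n (P * X ^ i) = 0 := by
  obtain ⟨s, hs⟩ : ∃ s : Fin k → ℚ, (Hk n k).mulVec s = fun i : Fin k => -n ((i : ℕ) + k) := by
    refine ⟨(Hk n k)⁻¹.mulVec fun i : Fin k => -n ((i : ℕ) + k), ?_⟩
    rw [Matrix.mulVec_mulVec, Matrix.mul_nonsing_inv _ (Ne.isUnit hk), Matrix.one_mulVec]
  refine ⟨X ^ k + pv s, ?_, ?_, ?_⟩
  · exact monic_X_pow_add (pv_deg s)
  · apply natDegree_eq_of_degree_eq_some
    rw [degree_add_eq_left_of_degree_lt (by rw [degree_X_pow]; exact pv_deg s), degree_X_pow]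
  · intro i hi
    rw [add_mul, map_add, ell_pv n s ⟨i, hi⟩, hs, ← pow_add]
    have h1 : ell n (X ^ (k + i)) = n (k + i) := by
      rw [← monomial_one_right_eq_X_pow, ell_mono, mul_one]
    rw [h1, add_comm k i]
    simp

/-- the step of Kronecker's theorem -/
lemma kron_step (n : ℕ → ℚ) {k m : ℕ} (hk : (Hk n k).det ≠ 0) {P : ℚ[X]} (hP : P.Monic) (hPk : P.natDegree = k)
    (hz : ∀ i < m, ell n (P * X ^ i) = 0) (hm : ell n (P * X ^ m) ≠ 0) (hkm : k ≤ m) : (Hk n (m + 1)).det ≠ 0 := by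
  intro hdet
  obtain ⟨a, ha0, ha⟩ := Matrix.exists_mulVec_eq_zero_iff.2 hdet
  obtain ⟨A, hA⟩ : ∃ A, A = pv a := ⟨_, rfl⟩
  have hA0 : A ≠ 0 := by
    intro h
    apply ha0
    ext j
    rw [← pv_coeff a j, ← hA, h, coeff_zero]
    rfl
  have hAd : A.natDegree ≤ m := by
    have h1 := pv_deg a
    rw [← hA] at h1
    have := natDegree_lt_of_degree_lt (Nat.succ_pos m) h1
    omega
  have hAz : ∀ i < m + 1, ell n (A * X ^ i) = 0 := by
    intro i hi
    have h1 := ell_pv n a ⟨i, hi⟩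
    rw [ha] at h1
    rw [hA]
    exact h1
  obtain ⟨Q, hQ⟩ : ∃ Q, Q = A /ₘ P := ⟨_, rfl⟩
  obtain ⟨S, hS⟩ : ∃ S, S = A %ₘ P := ⟨_, rfl⟩
  have hdiv : A = P * Q + S := by
    rw [hQ, hS, add_comm]
    exact (modByMonic_add_div A P).symm
  have hQd : Q.natDegree = A.natDegree - k := by
    rw [hQ, natDegree_divByMonic A hP, hPk]
  have hSd : S.degree < k := by
    rw [hS]
    refine (degree_modByMonic_lt A hP).trans_le ?_
    rw [← hPk]
    exact degree_le_natDegree
  have hS0 : S = 0 := by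
    rcases Nat.eq_zero_or_pos k with h0 | h0
    · rw [h0] at hSd
      exact degree_eq_bot.1 (Nat.WithBot.lt_zero_iff.1 (by simpa using hSd))
    by_contra hne
    have hSn : S.natDegree < k := (natDegree_lt_iff_degree_lt hne).2 hSd
    have h1 : ∀ i < k, ell n (S * X ^ i) = 0 := by
      intro i hi
      have h2 : S * X ^ i = A * X ^ i - P * (Q * X ^ i) := by
        rw [hdiv]
        ring
      rw [h2, map_sub, hAz i (by omega), zero_sub, neg_eq_zero]
      apply ell_zero n hz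
      refine (natDegree_mul_le).trans_lt ?_
      rw [natDegree_X_pow, hQd]
      omega
    apply hk
    rw [← Matrix.exists_mulVec_eq_zero_iff]
    refine ⟨fun j => S.coeff j, ?_, ?_⟩
    · intro h
      apply hne
      ext j
      rw [coeff_zero]
      by_cases hj : j < k
      · exact congrFun h ⟨j, hj⟩
      · exact coeff_eq_zero_of_natDegree_lt (by omega)
    · ext i
      have h2 := h1 i i.2
      rw [ell_X n S i k hSn] at h2
      rw [Matrix.mulVec, dotProduct, Finset.sum_fin_eq_sum_range]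
      rw [Pi.zero_apply, ← h2]
      refine Finset.sum_congr rfl fun j hj => ?_
      rw [dif_pos (Finset.mem_range.1 hj), Hk, mul_comm]
  rw [hS0, add_zero] at hdiv
  have hQ0 : Q ≠ 0 := by
    rintro rfl
    rw [mul_zero] at hdiv
    exact hA0 hdiv
  have hdd : A.natDegree = k + Q.natDegree := by
    rw [hdiv, hP.natDegree_mul' hQ0, hPk]
  have h1 := hAz (m - Q.natDegree) (by omega)
  rw [hdiv, mul_assoc] at h1
  obtain ⟨G, hG⟩ : ∃ G, G = Q * X ^ (m - Q.natDegree) := ⟨_, rfl⟩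
  have hGd : G.natDegree = m := by
    rw [hG, natDegree_mul_X_pow _ hQ0]
    omega
  have hGl : G.coeff m = Q.leadingCoeff := by
    rw [hG]
    have e : m = Q.natDegree + (m - Q.natDegree) := by omega
    conv_lhs => rw [e]
    rw [show Q.natDegree + (m - Q.natDegree) - Q.natDegree = m - Q.natDegree by omega, coeff_mul_X_pow]
    rfl
  rw [← hG, G.as_sum_range' (m + 1) (by omega), Finset.mul_sum, map_sum, Finset.sum_range_succ] at h1
  have h2 : ∀ i, P * monomial i (G.coeff i) = G.coeff i • (P * X ^ i) := by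
    intro i
    rw [← C_mul_X_pow_eq_monomial, smul_eq_C_mul]
    ring
  have h3 : ∑ i ∈ range m, ell n (P * monomial i (G.coeff i)) = 0 := by
    refine Finset.sum_eq_zero fun i hi => ?_
    rw [h2, map_smul, hz i (Finset.mem_range.1 hi), smul_zero]
  rw [h3, zero_add, h2, map_smul, smul_eq_mul, hGl] at h1
  rcases mul_eq_zero.1 h1 with h4 | h4
  · exact hQ0 (leadingCoeff_eq_zero.1 h4)
  · exact hm h4

/-- Kronecker's theorem -/
theorem kron (n : ℕ → ℚ) {k0 : ℕ} (h : ∀ k, k0 ≤ k → (Hk n k).det = 0) : ∃ P : ℚ[X], P.Monic ∧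
    ∀ i, ∑ j ∈ range (P.natDegree + 1), P.coeff j * n (i + j) = 0 := by
  classical
  have h0 : (Hk n 0).det ≠ 0 := by
    rw [Matrix.det_isEmpty]
    exact one_ne_zero
  obtain ⟨k, hk, hmax⟩ : ∃ k, (Hk n k).det ≠ 0 ∧ ∀ m, k < m → (Hk n m).det = 0 := by
    have h1 : ∃ k, ∀ m, k ≤ m → (Hk n m).det = 0 := ⟨k0, h⟩
    have h2 := Nat.find_spec h1
    obtain ⟨K, hK⟩ : ∃ K, K = Nat.find h1 := ⟨_, rfl⟩
    rw [← hK] at h2
    have hK0 : 0 < K := by
      by_contra hc
      have : K = 0 := by omega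
      rw [this] at h2
      exact h0 (h2 0 le_rfl)
    refine ⟨K - 1, ?_, fun m hm => h2 m (by omega)⟩
    intro hc
    have h3 : ∀ m, K - 1 ≤ m → (Hk n m).det = 0 := by
      intro m hm
      rcases Nat.eq_or_lt_of_le hm with h4 | h4
      · rw [← h4]
        exact hc
      · exact h2 m (by omega)
    have h4 := Nat.find_min' h1 h3
    omega
  obtain ⟨P, hP, hPk, hz⟩ := orth n hk
  refine ⟨P, hP, ?_⟩
  have hall : ∀ i, ell n (P * X ^ i) = 0 := by
    by_contra hcon
    push Not at hcon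
    have h1 := Nat.find_spec hcon
    obtain ⟨m, hm⟩ : ∃ m, m = Nat.find hcon := ⟨_, rfl⟩
    have h2 : ∀ i < m, ell n (P * X ^ i) = 0 := by
      intro i hi
      by_contra h3
      have := Nat.find_min' hcon h3
      omega
    rw [← hm] at h1
    have hkm : k ≤ m := by
      by_contra h3
      push Not at h3
      exact h1 (hz m h3)
    exact kron_step n hk hP hPk h2 h1 hkm (hmax (m + 1) (by omega))
  intro i
  have h1 := hall i
  rwa [ell_X n P i (P.natDegree + 1) (by omega)] at h1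

end Pool.Agent.J4H75.CN
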