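import Pool.Agent.J4H75.CN.Four
import Pool.Agent.J4H75.CN.Stg

set_option autoImplicit false

/-! Self-similar measures with commensurable contraction ratios. -/

namespace Pool.Agent.J4H75.CN

open MeasureTheory Finset Filter Topology
open scoped Real
open Pool.Agent.J4H75.PN (ee norm_ee ee_add)
open Pool.Agent.J4H40.Ca (dn dn_nn dn_half)

section words

variable {ι α : Type*} [AddCommMonoid α]

/-- the sums over words -/
def WS (x : ι → α) : AddSubmonoid α where
  carrier := {s | ∃ w : List ι, (w.map x).sum = s}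
  zero_mem' := ⟨[], rfl⟩
  add_mem' := by
    rintro a b ⟨w, rfl⟩ ⟨w', rfl⟩
    exact ⟨w ++ w', by rw [List.map_append, List.sum_append]⟩

lemma ws_mem (x : ι → α) (i : ι) : x i ∈ WS x := ⟨[i], by simp⟩

lemma ws_large {k : ι → ℕ} (h : ∃ B ∈ WS k, B + 1 ∈ WS k) : ∃ D0 : ℕ, ∀ d, D0 ≤ d → d ∈ WS k := by
  obtain ⟨B, hBm, hAm⟩ := h
  obtain ⟨A, hAB⟩ : ∃ A, A = B + 1 := ⟨_, rfl⟩
  rw [← hAB] at hAm
  refine ⟨B * B, fun d hd => ?_⟩
  rcases Nat.eq_zero_or_pos B with h0 | h0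
  · rw [h0] at hAB
    have h1 : d = d • A := by rw [hAB, smul_eq_mul]; omega
    rw [h1]
    exact nsmul_mem hAm _
  · have h1 := Nat.div_add_mod d B
    have h2 := Nat.mod_lt d h0
    have h3 : B ≤ d / B := by
      rw [Nat.le_div_iff_mul_le h0]
      exact hd
    have h4 : d = (d / B - d % B) • B + (d % B) • A := by
      rw [smul_eq_mul, smul_eq_mul, hAB]
      obtain ⟨e, he⟩ : ∃ e, d / B = d % B + e := ⟨d / B - d % B, by omega⟩
      rw [he, Nat.add_sub_cancel_left]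
      rw [he] at h1
      have h5 : B * (d % B + e) + d % B = e * B + d % B * (B + 1) := by ring
      omega
    rw [h4]
    exact add_mem (nsmul_mem hBm _) (nsmul_mem hAm _)

end words

section seq

variable {ι : Type} [Fintype ι] {Q : ℕ → ℝ} {p : ι → ℝ} {k : ι → ℕ} {K : ℕ}

lemma seq_mono (hp : ∀ i, 0 < p i) (hps : ∑ i, p i = 1) (hk : ∀ i, 1 ≤ k i ∧ k i ≤ K)
    (h1 : ∀ n, Q n ≤ ∑ i, p i * Q (n + k i)) {N : ℕ} {R : ℝ} (hR : ∀ m, N ≤ m → m < N + K → Q m ≤ R) :
    ∀ m, m < N + K → Q m ≤ R := by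
  have key : ∀ e m, N + K - m ≤ e → m < N + K → Q m ≤ R := by
    intro e
    induction e with
    | zero => intro m h2 h3; omega
    | succ e ih =>
      intro m h2 h3
      by_cases h4 : N ≤ m
      · exact hR m h4 h3
      · refine (h1 m).trans ?_
        have h5 : ∀ i ∈ (univ : Finset ι), p i * Q (m + k i) ≤ p i * R := by
          intro i _
          have := hk i
          exact mul_le_mul_of_nonneg_left (ih _ (by omega) (by omega)) (hp i).le
        refine (Finset.sum_le_sum h5).trans ?_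
        rw [← Finset.sum_mul, hps, one_mul]
  intro m hm
  exact key _ m le_rfl hm

lemma seq_word (hp : ∀ i, 0 < p i) (hps : ∑ i, p i = 1) (hk : ∀ i, 1 ≤ k i ∧ k i ≤ K)
    (h1 : ∀ n, Q n ≤ ∑ i, p i * Q (n + k i)) {N : ℕ} {R : ℝ} (hR : ∀ m, m < N + K → Q m ≤ R) (w : List ι) :
    ∀ n, n + (w.map k).sum ≤ N → Q n ≤ (1 - (w.map p).prod) * R + (w.map p).prod * Q (n + (w.map k).sum) := by
  induction w with
  | nil => intro n _; simp
  | cons i w ih =>
    intro n hn
    rw [List.map_cons, List.sum_cons] at hn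
    rw [List.map_cons, List.map_cons, List.sum_cons, List.prod_cons]
    have hki := hk i
    have h2 := ih (n + k i) (by omega)
    have h3 : ∑ j, p j * Q (n + k j) ≤ R - p i * (R - Q (n + k i)) := by
      have h4 := Finset.single_le_sum (f := fun j => p j * (R - Q (n + k j))) (s := univ) (fun j _ => by
        have := hk j
        exact mul_nonneg (hp j).le (sub_nonneg.2 (hR _ (by omega)))) (Finset.mem_univ i)
      have h5 : ∑ j, p j * (R - Q (n + k j)) = R - ∑ j, p j * Q (n + k j) := by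
        simp only [mul_sub]
        rw [Finset.sum_sub_distrib, ← Finset.sum_mul, hps, one_mul]
      rw [h5] at h4
      linarith
    have h4 := mul_le_mul_of_nonneg_left h2 (hp i).le
    rw [← add_assoc]
    have h5 := h1 n
    have h6 : R - p i * (R - Q (n + k i)) = (1 - p i) * R + p i * Q (n + k i) := by ring
    calc Q n ≤ (1 - p i) * R + p i * Q (n + k i) := by linarith
      _ ≤ (1 - p i) * R + p i * ((1 - (w.map p).prod) * R + (w.map p).prod * Q (n + k i + (w.map k).sum)) := by linarith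
      _ = _ := by ring

lemma prod_pos' (hp : ∀ i, 0 < p i) (w : List ι) : 0 < (w.map p).prod := by
  induction w with
  | nil => simp
  | cons i w ih =>
    rw [List.map_cons, List.prod_cons]
    exact mul_pos (hp i) ih

/-- the decay lemma for sequences; the constants do not depend on the sequences -/
lemma seq_decay (hp : ∀ i, 0 < p i) (hps : ∑ i, p i = 1) (hk : ∀ i, 1 ≤ k i ∧ k i ≤ K) (hK : 1 ≤ K)
    (hn : ∃ B ∈ WS k, B + 1 ∈ WS k) {κ : ℝ} (hκ : 0 < κ) (hκ1 : κ ≤ 1) :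
    ∃ (s0 : ℕ) (a' : ℝ), 0 < a' ∧ ∀ Q d : ℕ → ℝ, (∀ n, Q n ≤ 1) → (∀ n, 0 ≤ d n ∧ d n ≤ 1) →
      (∀ n, Q n ≤ ∑ i, p i * Q (n + k i)) → (∀ n R, (∀ i j, Q (n + k i + k j) ≤ R) → Q n ≤ (1 - κ * d n ^ 2) * R) →
      ∀ J, Q 0 ≤ Real.exp (-(a' * ∑ j ∈ range J, d (s0 + j) ^ 2)) := by
  obtain ⟨D0, hD0⟩ := ws_large hn
  have hw : ∀ e ∈ Ioc D0 (D0 + K), ∃ w : List ι, (w.map k).sum = e := fun e he => hD0 e (Finset.mem_Ioc.1 he).1.le
  choose! w hw using hw
  obtain ⟨a, ha0, ha⟩ : ∃ a : ℝ, 0 < a ∧ ∀ e ∈ Ioc D0 (D0 + K), a ≤ ((w e).map p).prod := by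
    obtain ⟨x, hx, hm⟩ := (Ioc D0 (D0 + K)).exists_min_image (fun e => ((w e).map p).prod)
      ⟨D0 + 1, Finset.mem_Ioc.2 ⟨by omega, by omega⟩⟩
    exact ⟨_, prod_pos' hp (w x), hm⟩
  obtain ⟨B0, hB0⟩ : ∃ B0, B0 = 2 * K + D0 + 1 := ⟨_, rfl⟩
  have hB0r : (0 : ℝ) < B0 := by
    have : 0 < B0 := by omega
    exact_mod_cast this
  refine ⟨K + D0, a * κ / B0, by positivity, ?_⟩
  intro Q d hQ1 hd h1 h2 J
  have block : ∀ n R, 0 ≤ R → (∀ m, n + B0 ≤ m → m < n + B0 + K → Q m ≤ R) →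
      ∀ m, n ≤ m → m < n + K → Q m ≤ (1 - a * κ * d (n + (K + D0)) ^ 2) * R := by
    intro n R hR0 hR m hm1 hm2
    have hR' := seq_mono hp hps hk h1 hR
    have e1 : n + (K + D0) - m ∈ Ioc D0 (D0 + K) := by
      rw [Finset.mem_Ioc]
      omega
    have e2 := hw _ e1
    have e3 := seq_word hp hps hk h1 hR' (w (n + (K + D0) - m)) m (by rw [e2]; omega)
    rw [e2] at e3
    have e4 : m + (n + (K + D0) - m) = n + (K + D0) := by omega
    rw [e4] at e3
    have e5 := h2 (n + (K + D0)) R (fun i j => by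
      have := hk i
      have := hk j
      exact hR' _ (by omega))
    obtain ⟨P, hP⟩ : ∃ P, P = ((w (n + (K + D0) - m)).map p).prod := ⟨_, rfl⟩
    have hPa := ha _ e1
    rw [← hP] at e3 hPa
    have hP0 : 0 < P := by rw [hP]; exact prod_pos' hp _
    have e6 := mul_le_mul_of_nonneg_left e5 hP0.le
    have e7 : (1 - P) * R + P * ((1 - κ * d (n + (K + D0)) ^ 2) * R) = (1 - P * κ * d (n + (K + D0)) ^ 2) * R := by ring
    have e8 : a * κ * d (n + (K + D0)) ^ 2 ≤ P * κ * d (n + (K + D0)) ^ 2 := by gcongr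
    have e9 : (1 - P * κ * d (n + (K + D0)) ^ 2) * R ≤ (1 - a * κ * d (n + (K + D0)) ^ 2) * R :=
      mul_le_mul_of_nonneg_right (by linarith) hR0
    linarith
  have iter : ∀ L n m, n ≤ m → m < n + K → Q m ≤ Real.exp (-(a * κ * ∑ l ∈ range L, d (n + l * B0 + (K + D0)) ^ 2)) := by
    intro L
    induction L with
    | zero =>
      intro n m _ _
      simp only [Finset.range_zero, Finset.sum_empty, mul_zero, neg_zero, Real.exp_zero]
      exact hQ1 m
    | succ L ih =>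
      intro n m hm1 hm2
      have e1 := block n (Real.exp (-(a * κ * ∑ l ∈ range L, d (n + B0 + l * B0 + (K + D0)) ^ 2))) (Real.exp_pos _).le
        (fun m hm3 hm4 => ih (n + B0) m hm3 hm4) m hm1 hm2
      refine e1.trans ?_
      have e2 : 1 - a * κ * d (n + (K + D0)) ^ 2 ≤ Real.exp (-(a * κ * d (n + (K + D0)) ^ 2)) := by
        have := Real.add_one_le_exp (-(a * κ * d (n + (K + D0)) ^ 2))
        linarith
      refine (mul_le_mul_of_nonneg_right e2 (Real.exp_pos _).le).trans (le_of_eq ?_)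
      rw [← Real.exp_add, Finset.sum_range_succ']
      congr 1
      have e3 : ∀ l, n + B0 + l * B0 + (K + D0) = n + (l + 1) * B0 + (K + D0) := by intro l; ring
      simp only [e3, zero_mul, add_zero]
      ring
  have hclass : ∀ c L, Q 0 ≤ Real.exp (-(a * κ * ∑ l ∈ range L, d (c + l * B0 + (K + D0)) ^ 2)) := by
    intro c L
    exact seq_mono hp hps hk h1 (iter L c) 0 (by omega)
  -- sum over the classes
  have hdouble : ∀ L, ∑ j ∈ range (L * B0), d (K + D0 + j) ^ 2 = ∑ c ∈ range B0, ∑ l ∈ range L, d (c + l * B0 + (K + D0)) ^ 2 := by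
    intro L
    induction L with
    | zero => simp
    | succ L ih =>
      have e1 : (L + 1) * B0 = L * B0 + B0 := by ring
      rw [e1, Finset.sum_range_add, ih, ← Finset.sum_add_distrib]
      refine Finset.sum_congr rfl fun c _ => ?_
      rw [Finset.sum_range_succ]
      congr 3
      ring
  have hJ : ∑ j ∈ range J, d (K + D0 + j) ^ 2 ≤ ∑ j ∈ range (J * B0), d (K + D0 + j) ^ 2 := by
    apply Finset.sum_le_sum_of_subset_of_nonneg
    · apply Finset.range_subset_range.2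
      exact Nat.le_mul_of_pos_right _ (by omega)
    · intro j _ _
      positivity
  obtain ⟨c, hc, hcm⟩ := Finset.exists_max_image (range B0) (fun c => ∑ l ∈ range J, d (c + l * B0 + (K + D0)) ^ 2)
    ⟨0, Finset.mem_range.2 (by omega)⟩
  have h3 : ∑ j ∈ range J, d (K + D0 + j) ^ 2 ≤ B0 * ∑ l ∈ range J, d (c + l * B0 + (K + D0)) ^ 2 := by
    refine hJ.trans ?_
    rw [hdouble]
    refine (Finset.sum_le_sum hcm).trans ?_
    rw [Finset.sum_const, card_range, nsmul_eq_mul]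
  refine (hclass c J).trans ?_
  apply Real.exp_le_exp.2
  apply neg_le_neg
  rw [div_mul_eq_mul_div, div_le_iff₀ hB0r]
  calc a * κ * ∑ j ∈ range J, d (K + D0 + j) ^ 2 ≤ a * κ * (B0 * ∑ l ∈ range J, d (c + l * B0 + (K + D0)) ^ 2) :=
        mul_le_mul_of_nonneg_left h3 (by positivity)
    _ = _ := by ring

end seq

variable {ι : Type} [Fintype ι] {p r v : ι → ℝ} {ν : Measure ℝ}

/-- the decay of the Fourier transform in the commensurable case -/
theorem SSim.lat_decay [IsProbabilityMeasure ν] (h : SSim p r v ν) (hne : ∃ i j, v i * (1 - r j) ≠ v j * (1 - r i))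
    {β : ℝ} (hβ : 1 < β) {k : ι → ℕ} (hk : ∀ i, 1 ≤ k i ∧ |r i| = 1 / β ^ (k i)) (hn : ∃ B ∈ WS k, B + 1 ∈ WS k) :
    ∃ (s0 : ℕ) (a' u : ℝ), 0 < a' ∧ 0 < u ∧ ∀ (t : ℝ) (J : ℕ),
      Qf ν t ≤ Real.exp (-(a' * ∑ j ∈ range J, dn (u * t / β ^ (s0 + j)) ^ 2)) := by
  obtain ⟨u, κ, hu, hκ, hκ1, h2⟩ := h.q2 hne
  have hβ0 : 0 < β := by linarith
  obtain ⟨K, hK⟩ : ∃ K : ℕ, K = 1 + ∑ i, k i := ⟨_, rfl⟩
  have hki : ∀ i, k i ≤ K := by
    intro i
    have := Finset.single_le_sum (f := k) (fun _ _ => Nat.zero_le _) (Finset.mem_univ i)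
    omega
  obtain ⟨s0, a', ha', hs⟩ := seq_decay h.p_pos h.psum (K := K) (fun i => ⟨(hk i).1, hki i⟩) (by omega) hn hκ hκ1
  refine ⟨s0, a', u, ha', hu, ?_⟩
  intro t J
  have e1 := hs (fun m => Qf ν (t / β ^ m)) (fun m => dn (u * t / β ^ m)) (fun m => Qf_le _)
    (fun m => ⟨dn_nn _, (dn_half _).trans (by norm_num)⟩) ?_ ?_ J
  · simpa using e1
  · intro m
    refine (h.q1 _).trans (le_of_eq ?_)
    refine Finset.sum_congr rfl fun i _ => ?_
    congr 1
    apply Qf_abs2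
    rw [abs_mul, (hk i).2, abs_div, abs_div, abs_of_pos (pow_pos hβ0 _), abs_of_pos (pow_pos hβ0 _), pow_add]
    field_simp
  · intro m R hR
    have e2 := h2 (t / β ^ m) R (fun i j => by
      refine le_trans (le_of_eq ?_) (hR i j)
      apply Qf_abs2
      rw [abs_mul, abs_mul, (hk i).2, (hk j).2, abs_div, abs_div, abs_of_pos (pow_pos hβ0 _), abs_of_pos (pow_pos hβ0 _),
        pow_add, pow_add]
      field_simp)
    rw [← mul_div_assoc] at e2
    exact e2


/-- the property `Few` of one measure from the good positions -/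
lemma few_one [IsProbabilityMeasure ν] {β q δ : ℝ} (hβ : 1 < β) (hq : 1 < q)
    (hS : ∀ K W, ∃ len : ℕ, 1 ≤ len ∧ Stg β q δ K W len) {u : ℝ} (hu : 0 < u)
    (hG : ∀ ε : ℝ, 0 < ε → ∃ L, ∀ τ, Gp β δ L (u * τ) → Qf ν τ ≤ ε) : ∃ T : ℕ → ℝ, Few q T ν := by
  have hβ0 : 0 < β := by linarith
  have hq0 : 0 < q := by linarith
  have hq1 : 0 < q - 1 := by linarith
  choose L hL using fun K : ℕ => hG (1 / ((K : ℝ) + 1)) (by positivity)
  choose R hR using fun K => stgL hβ (hS K) (L K)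
  refine ⟨fun K => β ^ (R K) / (u * (q - 1)), ?_⟩
  intro K θ τ0 hθ
  simp only at hθ
  classical
  obtain ⟨S, hSd⟩ : ∃ S : Finset ℕ, S = (range (K + 1)).filter fun m => ¬ Gp β δ (L K) (u * (θ * q ^ m - τ0)) := ⟨_, rfl⟩
  have hcard : S.card ≤ 2 := by
    apply card_two
    intro m1 k1 m2 k2 m3 k3 h12 h23
    rw [hSd, Finset.mem_filter, Finset.mem_range] at k1 k2 k3
    have h5 : β ^ (R K) ≤ |u * θ| * (q - 1) * q ^ m1 := by
      rw [div_le_iff₀ (by positivity)] at hθ
      calc β ^ (R K) ≤ |θ| * (u * (q - 1)) := hθ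
        _ = (u * |θ| * (q - 1)) * 1 := by ring
        _ ≤ (u * |θ| * (q - 1)) * q ^ m1 := mul_le_mul_of_nonneg_left (one_le_pow₀ hq.le) (by positivity)
        _ = |u * θ| * (q - 1) * q ^ m1 := by rw [abs_mul, abs_of_pos hu]
    obtain ⟨m, hm, hmG⟩ := hR K (u * θ) (u * τ0) m1 m2 m3 h12 h23 (by omega) h5
    have e : u * θ * q ^ m - u * τ0 = u * (θ * q ^ m - τ0) := by ring
    rw [e] at hmG
    rw [Finset.mem_insert, Finset.mem_insert, Finset.mem_singleton] at hm
    rcases hm with rfl | rfl | rfl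
    · exact k1.2 hmG
    · exact k2.2 hmG
    · exact k3.2 hmG
  have hle : ∀ m ∈ range (K + 1), ‖∫ y, ee ((θ * q ^ m - τ0) * y) ∂ν‖ ≤ (if m ∈ S then (1 : ℝ) else 0) + 1 / ((K : ℝ) + 1) := by
    intro m hm
    have hK0 : (0 : ℝ) < 1 / ((K : ℝ) + 1) := by positivity
    by_cases h2 : m ∈ S
    · rw [if_pos h2]
      have : ‖∫ y, ee ((θ * q ^ m - τ0) * y) ∂ν‖ ≤ 1 := Qf_le _
      linarith
    · rw [if_neg h2, zero_add]
      rw [hSd, Finset.mem_filter] at h2
      push Not at h2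
      exact hL K _ (h2 hm)
  refine (Finset.sum_le_sum hle).trans ?_
  rw [Finset.sum_add_distrib, Finset.sum_const, card_range, nsmul_eq_mul, Finset.sum_ite_mem, Finset.sum_const,
    nsmul_eq_mul, mul_one]
  have c1 : (((range (K + 1) ∩ S).card : ℕ) : ℝ) ≤ 2 := by
    have h1 := (Finset.card_le_card (Finset.inter_subset_right (s₁ := range (K + 1)) (s₂ := S))).trans hcard
    exact_mod_cast h1
  have c2 : ((K + 1 : ℕ) : ℝ) * (1 / ((K : ℝ) + 1)) = 1 := by
    push_cast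
    field_simp
  linarith

/-- the commensurable case with an algebraic base -/
theorem SSim.few_alg [IsProbabilityMeasure ν] (h : SSim p r v ν) (hne : ∃ i j, v i * (1 - r j) ≠ v j * (1 - r i))
    {β : ℝ} (hβ : 1 < β) {k : ι → ℕ} (hk : ∀ i, 1 ≤ k i ∧ |r i| = 1 / β ^ (k i)) (hn : ∃ B ∈ WS k, B + 1 ∈ WS k)
    {q δ : ℝ} (hq : 1 < q) (hδ : 0 < δ) (hS : ∀ K W, ∃ len : ℕ, 1 ≤ len ∧ Stg β q δ K W len) : ∃ T : ℕ → ℝ, Few q T ν := by
  obtain ⟨s0, a', u, ha', hu, hdec⟩ := h.lat_decay hne hβ hk hn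
  apply few_one hβ hq hS hu
  intro ε hε
  obtain ⟨I, hI⟩ := exists_nat_gt (-Real.log ε / (a' * δ ^ 2))
  refine ⟨I + s0, fun τ hτ => ?_⟩
  obtain ⟨F, hFc, hF⟩ := hτ
  have e1 := hdec τ (F.sup id + 2)
  refine e1.trans ?_
  rw [← Real.le_log_iff_exp_le hε]
  have e2 : (I : ℝ) * δ ^ 2 ≤ ∑ j ∈ range (F.sup id + 2), dn (u * τ / β ^ (s0 + j)) ^ 2 := by
    obtain ⟨F1, hF1⟩ : ∃ F1, F1 = F.filter fun j => s0 ≤ j := ⟨_, rfl⟩
    have hc : I ≤ F1.card := by
      have h13 : F.card = F1.card + (F.filter fun j => ¬ s0 ≤ j).card := by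
        rw [hF1]
        exact (Finset.card_filter_add_card_filter_not _).symm
      have h14 : F.filter (fun j => ¬ s0 ≤ j) ⊆ range s0 := by
        intro i hi
        rw [Finset.mem_filter] at hi
        exact Finset.mem_range.2 (by omega)
      have h15 := Finset.card_le_card h14
      rw [card_range] at h15
      omega
    have hsum : ∑ j ∈ F1, dn (u * τ / β ^ (j + 1)) ^ 2 ≤ ∑ j ∈ range (F.sup id + 2), dn (u * τ / β ^ (s0 + j)) ^ 2 := by
      have e3 : ∑ j ∈ F1, dn (u * τ / β ^ (j + 1)) ^ 2 =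
          ∑ i ∈ F1.image (fun j => j + 1 - s0), dn (u * τ / β ^ (s0 + i)) ^ 2 := by
        rw [Finset.sum_image]
        · refine Finset.sum_congr rfl fun j hj => ?_
          rw [hF1, Finset.mem_filter] at hj
          have : s0 + (j + 1 - s0) = j + 1 := by omega
          rw [this]
        · intro x hx y hy hxy
          rw [Finset.mem_coe, hF1, Finset.mem_filter] at hx hy
          simp only at hxy
          omega
      rw [e3]
      apply Finset.sum_le_sum_of_subset_of_nonneg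
      · intro i hi
        obtain ⟨j, hj, rfl⟩ := Finset.mem_image.1 hi
        rw [hF1, Finset.mem_filter] at hj
        have h1 : j ≤ F.sup id := Finset.le_sup (f := id) hj.1
        exact Finset.mem_range.2 (by omega)
      · intro i _ _
        positivity
    refine le_trans ?_ hsum
    have e4 : ∑ j ∈ F1, δ ^ 2 ≤ ∑ j ∈ F1, dn (u * τ / β ^ (j + 1)) ^ 2 := by
      refine Finset.sum_le_sum fun j hj => ?_
      rw [hF1, Finset.mem_filter] at hj
      exact pow_le_pow_left₀ hδ.le (hF j hj.1) 2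
    refine le_trans ?_ e4
    rw [Finset.sum_const, nsmul_eq_mul]
    apply mul_le_mul_of_nonneg_right _ (by positivity)
    exact_mod_cast hc
  rw [div_lt_iff₀ (by positivity)] at hI
  have e3 := mul_le_mul_of_nonneg_left e2 ha'.le
  nlinarith

end Pool.Agent.J4H75.CN
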