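import Pool.Agent.J4H75.CN.Core

set_option autoImplicit false

/-! Images of measures with nice layers under `C^1` functions. -/

namespace Pool.Agent.J4H75.CN

open MeasureTheory Finset Filter Topology
open scoped Real ENNReal
open Pool.Agent.J4H75.PN (ee norm_ee ee_add)
open Pool.Agent.J4H40.Ca (ee_cont)

/-- at level `G` the measure `ν` is a mixture of small affine copies of nice measures -/
def Pre (β q : ℝ) (T : ℕ → ℝ) (D : ℝ) (G : ℕ) (ν : Measure ℝ) : Prop :=
  ∃ (W : Type) (_ : MeasurableSpace W) (P : Measure W) (v : W → ℝ) (ρ : W → Measure ℝ),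
    (∀ w, |v w| ≤ D) ∧ (∀ w, IsProbabilityMeasure (ρ w)) ∧ (∀ w, ∀ᵐ y ∂(ρ w), |y| ≤ D) ∧ (∀ w, Few q T (ρ w)) ∧
    ∀ f : ℝ → ℝ≥0∞, Measurable f → ∫⁻ x, f x ∂ν = ∫⁻ w, ∫⁻ y, f (v w + y / β ^ G) ∂(ρ w) ∂P

lemma few_scale {q : ℝ} {T : ℕ → ℝ} {ρ : Measure ℝ} (h : Few q T ρ) {c0 s : ℝ} (h0 : 0 < c0) (hs : c0 ≤ |s|) :
    Few q (fun K => max (T K) 0 / c0) (ρ.map fun y => s * y) := by
  intro K θ τ0 hθ
  simp only at hθ
  have h1 : T K ≤ |s * θ| := by
    rw [div_le_iff₀ h0] at hθ
    rw [abs_mul]
    calc T K ≤ max (T K) 0 := le_max_left _ _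
      _ ≤ |θ| * c0 := hθ
      _ ≤ |θ| * |s| := mul_le_mul_of_nonneg_left hs (abs_nonneg _)
      _ = |s| * |θ| := mul_comm _ _
  refine le_trans (le_of_eq ?_) (h K (s * θ) (s * τ0) h1)
  refine Finset.sum_congr rfl fun m _ => ?_
  have hc : Continuous fun y : ℝ => ee ((θ * q ^ m - τ0) * y) := ee_cont.comp (continuous_const.mul continuous_id)
  rw [integral_map (measurable_const_mul s).aemeasurable hc.aestronglyMeasurable]
  congr 2
  ext y
  congr 1
  ring

lemma c1 {g : ℝ → ℝ} (hg : ContDiff ℝ 1 g) (h0 : ∀ x, deriv g x ≠ 0) (D : ℝ) : ∃ c0 C1 : ℝ, 0 < c0 ∧ 0 ≤ C1 ∧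
    (∀ x, |x| ≤ D → c0 ≤ |deriv g x| ∧ |deriv g x| ≤ C1) ∧
    ∀ η : ℝ, 0 < η → ∃ s : ℝ, 0 < s ∧ ∀ v z, |v| ≤ D → |z| ≤ s → |g (v + z) - g v - deriv g v * z| ≤ η * |z| := by
  have hc : Continuous (deriv g) := hg.continuous_deriv le_rfl
  have hd : Differentiable ℝ g := hg.differentiable (by norm_num)
  have hK : IsCompact (Set.Icc (-|D|) |D|) := isCompact_Icc
  have hne : (Set.Icc (-|D|) |D|).Nonempty := ⟨0, by constructor <;> [simp; exact abs_nonneg D]⟩
  obtain ⟨x1, hx1, hm1⟩ := hK.exists_isMinOn hne (hc.abs).continuousOn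
  obtain ⟨x2, hx2, hm2⟩ := hK.exists_isMaxOn hne (hc.abs).continuousOn
  refine ⟨|deriv g x1|, |deriv g x2|, abs_pos.2 (h0 _), abs_nonneg _, ?_, ?_⟩
  · intro x hx
    have h1 : x ∈ Set.Icc (-|D|) |D| := abs_le.1 (hx.trans (le_abs_self D))
    exact ⟨hm1 h1, hm2 h1⟩
  · intro η hη
    have hK2 : IsCompact (Set.Icc (-|D| - 1) (|D| + 1)) := isCompact_Icc
    have hu := hK2.uniformContinuousOn_of_continuous hc.continuousOn
    rw [Metric.uniformContinuousOn_iff] at hu
    obtain ⟨s, hs, hs2⟩ := hu η hη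
    refine ⟨min (s / 2) 1, by positivity, ?_⟩
    intro v z hv hz
    have hz1 : |z| ≤ s / 2 := hz.trans (min_le_left _ _)
    have hz2 : |z| ≤ 1 := hz.trans (min_le_right _ _)
    have hvD := abs_le.1 (hv.trans (le_abs_self D))
    have h1 := Convex.norm_image_sub_le_of_norm_deriv_le (𝕜 := ℝ) (f := fun x => g x - deriv g v * x) (C := η)
      (s := Metric.closedBall v |z|) (x := v) (y := v + z) ?_ ?_ (convex_closedBall _ _)
      (Metric.mem_closedBall_self (abs_nonneg z)) (by rw [Metric.mem_closedBall, Real.dist_eq, add_sub_cancel_left])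
    · rw [Real.norm_eq_abs, Real.norm_eq_abs, add_sub_cancel_left] at h1
      refine le_trans (le_of_eq ?_) h1
      congr 1
      ring
    · intro x _
      exact (hd x).sub ((differentiableAt_id).const_mul _)
    · intro x hx
      have h2 : deriv (fun x => g x - deriv g v * x) x = deriv g x - deriv g v := by
        have e1 : HasDerivAt (fun x => g x - deriv g v * x) (deriv g x - deriv g v * 1) x :=
          (hd x).hasDerivAt.sub ((hasDerivAt_id x).const_mul _)
        rw [e1.deriv, mul_one]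
      rw [h2, Real.norm_eq_abs]
      rw [Metric.mem_closedBall, Real.dist_eq] at hx
      have hx3 := abs_le.1 hx
      have hx4 := abs_le.1 hz2
      have h3 := hs2 x (by constructor <;> linarith [abs_nonneg z]) v (by constructor <;> linarith) (by
        rw [Real.dist_eq]
        linarith)
      rw [Real.dist_eq] at h3
      exact h3.le

theorem lay_of_pre {β q : ℝ} (hβ : 1 < β) {T : ℕ → ℝ} {D : ℝ} (hD : 0 ≤ D) {ν : Measure ℝ}
    (hP : ∀ G, Pre β q T D G ν) {g : ℝ → ℝ} (hg : ContDiff ℝ 1 g) (h0 : ∀ x, deriv g x ≠ 0) :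
    ∃ (T' : ℕ → ℝ) (D' : ℝ), 0 ≤ D' ∧ ∀ η : ℝ, 0 < η → ∀ᶠ G : ℕ in atTop, Lay β q T' D' η G (ν.map g) := by
  obtain ⟨c0, C1, hc0, hC1, hb, hη⟩ := c1 hg h0 D
  have hβ0 : 0 < β := by linarith
  refine ⟨fun K => max (T K) 0 / c0, C1 * D, by positivity, ?_⟩
  intro η hη0
  obtain ⟨s, hs0, hs⟩ := hη (η / (D + 1)) (by positivity)
  have t1 : Tendsto (fun G : ℕ => D / β ^ G) atTop (𝓝 0) :=
    tendsto_const_nhds.div_atTop (tendsto_pow_atTop_atTop_of_one_lt hβ)
  filter_upwards [t1.eventually (gt_mem_nhds hs0)] with G hG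
  obtain ⟨W, mW, P, v, ρ, hv, hρ, hρD, hF, hrep⟩ := hP G
  have hg0 : Continuous g := hg.continuous
  have hβG : 0 < β ^ G := by positivity
  refine ⟨W, mW, P, fun w => g (v w), fun w => (ρ w).map (fun y => deriv g (v w) * y),
    fun w y => g (v w + y / deriv g (v w) / β ^ G), ?_, ?_, ?_, ?_⟩
  · intro w
    have := hρ w
    exact Measure.isProbabilityMeasure_map (measurable_const_mul _).aemeasurable
  · intro w
    have hgw := h0 (v w)
    obtain ⟨k1, k2⟩ := hb (v w) (hv w)
    rw [ae_map_iff (measurable_const_mul _).aemeasurable]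
    · filter_upwards [hρD w] with y hy
      constructor
      · rw [abs_mul]
        exact mul_le_mul k2 hy (abs_nonneg _) hC1
      · have e1 : deriv g (v w) * y / deriv g (v w) / β ^ G = y / β ^ G := by
          field_simp
        rw [e1]
        have e2 : |y / β ^ G| ≤ D / β ^ G := by
          rw [abs_div, abs_of_pos hβG]
          exact div_le_div_of_nonneg_right hy hβG.le
        have e3 := hs (v w) (y / β ^ G) (hv w) (e2.trans hG.le)
        have e4 : g (v w + y / β ^ G) - (g (v w) + deriv g (v w) * y / β ^ G) =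
            g (v w + y / β ^ G) - g (v w) - deriv g (v w) * (y / β ^ G) := by ring
        rw [e4]
        refine e3.trans ?_
        calc η / (D + 1) * |y / β ^ G| ≤ η / (D + 1) * (D / β ^ G) := mul_le_mul_of_nonneg_left e2 (by positivity)
          _ = (D / (D + 1)) * (η / β ^ G) := by ring
          _ ≤ 1 * (η / β ^ G) := by
              apply mul_le_mul_of_nonneg_right _ (by positivity)
              rw [div_le_one (by positivity)]
              linarith
          _ = _ := one_mul _
    · apply IsClosed.measurableSet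
      have hc1 : Continuous fun y : ℝ => |g (v w + y / deriv g (v w) / β ^ G) - (g (v w) + y / β ^ G)| := by
        refine ((hg0.comp ?_).sub ?_).abs
        · exact continuous_const.add ((continuous_id.div_const _).div_const _)
        · exact continuous_const.add (continuous_id.div_const _)
      exact (isClosed_le continuous_abs continuous_const).inter (isClosed_le hc1 continuous_const)
  · intro w
    exact few_scale (hF w) hc0 (hb (v w) (hv w)).1
  · intro f hf
    rw [lintegral_map hf hg0.measurable, hrep (fun x => f (g x)) (hf.comp hg0.measurable)]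
    refine lintegral_congr fun w => ?_
    have hgw := h0 (v w)
    rw [lintegral_map]
    · refine lintegral_congr fun y => ?_
      have e1 : deriv g (v w) * y / deriv g (v w) / β ^ G = y / β ^ G := by
        field_simp
      exact congrArg (fun z => f (g (v w + z))) e1.symm
    · apply hf.comp
      apply Continuous.measurable
      exact hg0.comp (continuous_const.add ((continuous_id.div_const _).div_const _))
    · exact measurable_const_mul _

end Pool.Agent.J4H75.CN
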