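import Pool.Agent.J4H40.Eb

set_option autoImplicit false

/-! Geometric progressions near the integers. -/

namespace Pool.Agent.J4H75.CN

open Finset Filter Topology Polynomial
open Pool.Agent.J4H40.Ca (dn dn_nn dn_le dn_half)

/-- the real algebraic numbers -/
noncomputable abbrev RA : IntermediateField ℚ ℝ := algebraicClosure ℚ ℝ

/-- the shift of a sequence -/
noncomputable def shf : Module.End RA (ℕ → ℝ) where
  toFun n := fun m => n (m + 1)
  map_add' _ _ := rfl
  map_smul' _ _ := rfl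

lemma shf_pow (i : ℕ) (n : ℕ → ℝ) (m : ℕ) : (shf ^ i) n m = n (m + i) := by
  induction i generalizing m with
  | zero => simp
  | succ i ih =>
    rw [pow_succ', Module.End.mul_apply]
    have : shf ((shf ^ i) n) m = (shf ^ i) n (m + 1) := rfl
    rw [this, ih]
    congr 1
    omega

lemma ae_mono (i : ℕ) (a : RA) (n : ℕ → ℝ) (m : ℕ) : (aeval shf (monomial i a)) n m = (a : ℝ) * n (m + i) := by
  rw [aeval_monomial, Module.algebraMap_end_eq_smul_id]
  rw [smul_mul_assoc, Module.End.one_eq_id.symm, one_mul, LinearMap.smul_apply, Pi.smul_apply, shf_pow]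
  rfl

lemma ae_lim {β x : ℝ} (hβ : 0 < β) {n : ℕ → ℝ} (hn : Tendsto (fun m => n m / β ^ m) atTop (𝓝 x)) (F : RA[X]) :
    Tendsto (fun m => (aeval shf F) n m / β ^ m) atTop (𝓝 (aeval β F * x)) := by
  induction F using Polynomial.induction_on' with
  | add p q hp hq =>
    have h := hp.add hq
    have h' : (aeval β (p + q) : ℝ) * x = aeval β p * x + aeval β q * x := by rw [map_add, add_mul]
    rw [h']
    refine h.congr fun m => ?_
    rw [map_add, LinearMap.add_apply, Pi.add_apply, add_div]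
  | monomial i a =>
    have h1 : Tendsto (fun m => n (m + i) / β ^ (m + i)) atTop (𝓝 x) := (tendsto_add_atTop_iff_nat i).2 hn
    have h2 := h1.const_mul ((a : ℝ) * β ^ i)
    have h3 : (aeval β (monomial i a) : ℝ) * x = (a : ℝ) * β ^ i * x := by
      rw [aeval_monomial]
      rfl
    rw [h3]
    refine h2.congr fun m => ?_
    rw [ae_mono, pow_add]
    field_simp

lemma ae_mem {n : ℕ → ℝ} (hn : ∀ m, n m ∈ RA) (F : RA[X]) (m : ℕ) : (aeval shf F) n m ∈ RA := by
  induction F using Polynomial.induction_on' with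
  | add p q hp hq =>
    rw [map_add, LinearMap.add_apply, Pi.add_apply]
    exact add_mem hp hq
  | monomial i a =>
    rw [ae_mono]
    exact mul_mem a.2 (hn _)

lemma alg_x {β : ℝ} (hβ1 : 1 < β) (hβ : β ∈ RA) {n : ℕ → ℝ} (hn : ∀ m, n m ∈ RA) {x : ℝ} (hx : x ≠ 0)
    (hlim : Tendsto (fun m => n m / β ^ m) atTop (𝓝 x)) (d : ℕ) : ∀ F : RA[X], F ≠ 0 → F.natDegree ≤ d →
      (aeval shf F) n = 0 → x ∈ RA := by
  have hβ0 : 0 < β := by linarith
  induction d with
  | zero =>
    intro F hF hd h0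
    have h1 := ae_lim hβ0 hlim F
    rw [h0] at h1
    have h2 : aeval β F * x = 0 := by
      apply tendsto_nhds_unique h1
      simp
    obtain ⟨a, rfl⟩ : ∃ a, F = C a := ⟨_, eq_C_of_natDegree_le_zero hd⟩
    rw [aeval_C] at h2
    rcases mul_eq_zero.1 h2 with h3 | h3
    · exfalso
      apply hF
      have h4 : a = 0 := by
        have : ((a : RA) : ℝ) = 0 := h3
        exact_mod_cast this
      rw [h4, C_0]
    · exact absurd h3 hx
  | succ d ih =>
    intro F hF hd h0
    have h1 := ae_lim hβ0 hlim F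
    rw [h0] at h1
    have h2 : aeval β F * x = 0 := by
      apply tendsto_nhds_unique h1
      simp
    obtain ⟨β', hβ'⟩ : ∃ β' : RA, (β' : ℝ) = β := ⟨⟨β, hβ⟩, rfl⟩
    have ev : ∀ H : RA[X], (aeval β H : ℝ) = ((H.eval β' : RA) : ℝ) := by
      intro H
      rw [← hβ']
      exact aeval_algebraMap_apply_eq_algebraMap_eval β' H
    have h3 : F.IsRoot β' := by
      rcases mul_eq_zero.1 h2 with h3 | h3
      · rw [ev] at h3
        exact_mod_cast h3
      · exact absurd h3 hx
    obtain ⟨F1, hF1⟩ := dvd_iff_isRoot.2 h3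
    have hF10 : F1 ≠ 0 := by
      rintro rfl
      rw [mul_zero] at hF1
      exact hF hF1
    have hdeg : F1.natDegree ≤ d := by
      rw [hF1, natDegree_mul (X_sub_C_ne_zero β') hF10, natDegree_X_sub_C] at hd
      omega
    obtain ⟨u, hu⟩ : ∃ u, u = (aeval shf F1) n := ⟨_, rfl⟩
    by_cases hu0 : u = 0
    · exact ih F1 hF10 hdeg (by rw [← hu, hu0])
    · have h4 : ∀ m, u (m + 1) = β * u m := by
        intro m
        have h5 : (aeval shf (X - C β')) u = 0 := by
          rw [hu, ← Module.End.mul_apply, ← map_mul, ← hF1, h0]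
        have h6 := congrFun h5 m
        rw [map_sub, aeval_X, aeval_C, Module.algebraMap_end_eq_smul_id, LinearMap.sub_apply, Pi.sub_apply,
          LinearMap.smul_apply, LinearMap.id_apply, Pi.smul_apply] at h6
        have h7 : u (m + 1) - (β' : ℝ) * u m = 0 := h6
        rw [hβ'] at h7
        linarith
      have h5 : ∀ m, u m = β ^ m * u 0 := by
        intro m
        induction m with
        | zero => simp
        | succ m ihm => rw [h4, ihm, pow_succ]; ring
      have h6 : u 0 ≠ 0 := by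
        intro h
        apply hu0
        ext m
        rw [h5, h, mul_zero]
        rfl
      have h7 := ae_lim hβ0 hlim F1
      rw [← hu] at h7
      have h8 : aeval β F1 * x = u 0 := by
        apply tendsto_nhds_unique h7
        refine tendsto_const_nhds.congr fun m => ?_
        rw [h5 m]
        field_simp
      have h9 : (aeval β F1 : ℝ) ≠ 0 := by
        intro h
        rw [h, zero_mul] at h8
        exact h6 h8.symm
      have h10 : x = u 0 / aeval β F1 := by
        rw [← h8]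
        field_simp
      rw [h10, ev]
      refine div_mem ?_ (SetLike.coe_mem _)
      rw [hu]
      exact ae_mem hn F1 0

/-- a progression near the integers has an algebraic coefficient -/
lemma prog_alg {β : ℝ} (hβ1 : 1 < β) {P : ℤ[X]} (hP : P ≠ 0) (hPβ : aeval β P = 0) {δ : ℝ} (hδ1 : δ < 1 / 2)
    (hδ : (∑ i ∈ range (P.natDegree + 1), |(P.coeff i : ℝ)|) * δ < 1) {x : ℝ} (hx : x ≠ 0)
    (h : ∀ j : ℕ, dn (x * β ^ j) ≤ δ) : IsAlgebraic ℚ x := by
  have hβ0 : 0 < β := by linarith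
  have hβA : IsAlgebraic ℚ β := by
    rw [← IsFractionRing.isAlgebraic_iff ℤ ℚ ℝ]
    exact ⟨P, hP, hPβ⟩
  have hβm : β ∈ RA := mem_algebraicClosure_iff.2 hβA
  obtain ⟨n, hn⟩ : ∃ n : ℕ → ℝ, n = fun j => ((round (x * β ^ j) : ℤ) : ℝ) := ⟨_, rfl⟩
  have hnm : ∀ m, n m ∈ RA := by
    intro m
    rw [hn]
    exact intCast_mem _ _
  have hnx : ∀ m, |x * β ^ m - n m| ≤ δ := by
    intro m
    rw [hn]
    exact h m
  have hlim : Tendsto (fun m => n m / β ^ m) atTop (𝓝 x) := by
    rw [tendsto_iff_dist_tendsto_zero]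
    have t1 : Tendsto (fun m : ℕ => δ * (1 / β) ^ m) atTop (𝓝 0) := by
      have := (tendsto_pow_atTop_nhds_zero_of_lt_one (r := 1 / β) (by positivity) (by
        rw [div_lt_one hβ0]; exact hβ1)).const_mul δ
      simpa using this
    refine squeeze_zero (fun _ => dist_nonneg) (fun m => ?_) t1
    rw [Real.dist_eq, abs_sub_comm]
    have h1 : x - n m / β ^ m = (x * β ^ m - n m) / β ^ m := by
      field_simp
    rw [h1, abs_div, abs_of_pos (pow_pos hβ0 m), one_div, inv_pow, ← div_eq_mul_inv]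
    exact div_le_div_of_nonneg_right (hnx m) (by positivity)
  apply mem_algebraicClosure_iff.1
  apply alg_x hβ1 hβm hnm hx hlim _ (P.map (algebraMap ℤ RA)) ?_ le_rfl ?_
  · rw [Ne, Polynomial.map_eq_zero_iff]
    · exact hP
    · exact (algebraMap ℤ RA).injective_int
  · ext m
    rw [aeval_map_algebraMap, aeval_eq_sum_range, LinearMap.sum_apply, Finset.sum_apply]
    have h1 : ∀ i ∈ range (P.natDegree + 1), (P.coeff i • shf ^ i) n m = (P.coeff i : ℝ) * n (m + i) := by
      intro i _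
      rw [LinearMap.smul_apply, Pi.smul_apply, shf_pow, zsmul_eq_mul]
    rw [Finset.sum_congr rfl h1]
    obtain ⟨Z, hZ⟩ : ∃ Z : ℤ, Z = ∑ i ∈ range (P.natDegree + 1), P.coeff i * round (x * β ^ (m + i)) := ⟨_, rfl⟩
    have h2 : ∑ i ∈ range (P.natDegree + 1), (P.coeff i : ℝ) * n (m + i) = (Z : ℝ) := by
      rw [hZ, hn]
      push_cast
      rfl
    have h3 : ∑ i ∈ range (P.natDegree + 1), (P.coeff i : ℝ) * (x * β ^ (m + i)) = 0 := by
      have h4 : ∑ i ∈ range (P.natDegree + 1), (P.coeff i : ℝ) * (x * β ^ (m + i)) = x * β ^ m * aeval β P := by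
        rw [aeval_eq_sum_range, Finset.mul_sum]
        refine Finset.sum_congr rfl fun i _ => ?_
        rw [zsmul_eq_mul, pow_add]
        ring
      rw [h4, hPβ, mul_zero]
    have h4 : |(Z : ℝ)| < 1 := by
      have h5 : (Z : ℝ) = -∑ i ∈ range (P.natDegree + 1), (P.coeff i : ℝ) * (x * β ^ (m + i) - n (m + i)) := by
        simp only [mul_sub]
        rw [Finset.sum_sub_distrib, h3, h2]
        ring
      rw [h5, abs_neg]
      refine lt_of_le_of_lt ?_ hδ
      rw [Finset.sum_mul]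
      refine (Finset.abs_sum_le_sum_abs _ _).trans (Finset.sum_le_sum fun i _ => ?_)
      rw [abs_mul]
      exact mul_le_mul_of_nonneg_left (hnx _) (abs_nonneg _)
    have h5 : Z = 0 := by
      have h6 : |Z| < 1 := by exact_mod_cast h4
      exact Int.abs_lt_one_iff.1 h6
    rw [h2, h5, Int.cast_zero]
    rfl

lemma dn_cont : Continuous dn := by
  have h : dn = fun x : ℝ => ‖(x : UnitAddCircle)‖ := by
    ext x
    rw [UnitAddCircle.norm_eq]
    rfl
  rw [h]
  exact continuous_norm.comp (AddCircle.continuous_mk' 1)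

/-- two proportional progressions near the integers -/
lemma len_ex {β : ℝ} (hβ1 : 1 < β) {P : ℤ[X]} (hP : P ≠ 0) (hPβ : aeval β P = 0) {δ : ℝ} (hδ1 : δ < 1 / 2)
    (hδ : (∑ i ∈ range (P.natDegree + 1), |(P.coeff i : ℝ)|) * δ < 1) {κ : ℝ} (hκ : ¬ IsAlgebraic ℚ κ) (C : ℝ) :
    ∃ len : ℕ, ∀ x : ℝ, 1 ≤ |x| → |x| ≤ C → ∃ i < len, δ < dn (x * β ^ i) ∨ δ < dn (κ * x * β ^ i) := by
  by_contra hcon
  push Not at hcon
  obtain ⟨S, hS⟩ : ∃ S : ℕ → Set ℝ, S = fun len => {x | 1 ≤ |x| ∧ |x| ≤ C ∧ ∀ i < len,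
      dn (x * β ^ i) ≤ δ ∧ dn (κ * x * β ^ i) ≤ δ} := ⟨_, rfl⟩
  have hcl : ∀ l, IsClosed (S l) := by
    intro l
    have e : S l = ({x | 1 ≤ |x|} ∩ {x | |x| ≤ C}) ∩ ⋂ i, ⋂ (_ : i < l),
        ({x | dn (x * β ^ i) ≤ δ} ∩ {x | dn (κ * x * β ^ i) ≤ δ}) := by
      rw [hS]
      ext x
      simp only [Set.mem_ofPred_eq, Set.mem_inter_iff, Set.mem_iInter]
      tauto
    rw [e]
    refine ((isClosed_le continuous_const continuous_abs).inter (isClosed_le continuous_abs continuous_const)).inter ?_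
    refine isClosed_iInter fun i => isClosed_iInter fun _ => ?_
    exact (isClosed_le (dn_cont.comp (continuous_id.mul continuous_const)) continuous_const).inter
      (isClosed_le (dn_cont.comp ((continuous_const.mul continuous_id).mul continuous_const)) continuous_const)
  have hne : ∀ l, (S l).Nonempty := by
    intro l
    obtain ⟨x, h1, h2, h3⟩ := hcon l
    refine ⟨x, ?_⟩
    rw [hS]
    exact ⟨h1, h2, h3⟩
  have hc0 : IsCompact (S 0) := by
    apply Metric.isCompact_of_isClosed_isBounded (hcl 0)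
    rw [isBounded_iff_forall_norm_le]
    refine ⟨C, fun x hx => ?_⟩
    rw [hS] at hx
    exact hx.2.1
  obtain ⟨x, hx⟩ := IsCompact.nonempty_iInter_of_sequence_nonempty_isCompact_isClosed S (by
    intro l x hx
    rw [hS] at hx ⊢
    exact ⟨hx.1, hx.2.1, fun i hi => hx.2.2 i (by omega)⟩) hne hc0 hcl
  rw [Set.mem_iInter] at hx
  have h1 : 1 ≤ |x| := by
    have := hx 0
    rw [hS] at this
    exact this.1
  have hx0 : x ≠ 0 := by
    rintro rfl
    norm_num at h1
  have h2 : ∀ i, dn (x * β ^ i) ≤ δ ∧ dn (κ * x * β ^ i) ≤ δ := by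
    intro i
    have := hx (i + 1)
    rw [hS] at this
    exact this.2.2 i (by omega)
  have hκ0 : κ ≠ 0 := by
    rintro rfl
    exact hκ isAlgebraic_zero
  have a1 := prog_alg hβ1 hP hPβ hδ1 hδ hx0 fun j => (h2 j).1
  have a2 := prog_alg hβ1 hP hPβ hδ1 hδ (mul_ne_zero hκ0 hx0) fun j => (h2 j).2
  apply hκ
  have h3 : κ = κ * x * x⁻¹ := by
    field_simp
  rw [h3]
  exact a2.mul a1.inv

/-- the ratios of the `q ^ p - 1` are transcendental -/
lemma kap {q : ℝ} (hq : 1 < q) (hT : Transcendental ℚ q) {p p' : ℕ} (hp : 1 ≤ p) (hpp : p < p') :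
    ¬ IsAlgebraic ℚ ((q ^ p' - 1) / (q ^ p - 1)) := by
  intro h
  apply hT
  obtain ⟨κ, hκ⟩ : ∃ κ : RA, (κ : ℝ) = (q ^ p' - 1) / (q ^ p - 1) := ⟨⟨_, mem_algebraicClosure_iff.2 h⟩, rfl⟩
  have hq0 : q ^ p - 1 ≠ 0 := by
    have : 1 < q ^ p := one_lt_pow₀ hq (by omega)
    linarith
  have hi : Algebra.IsAlgebraic ℚ RA := algebraicClosure.isAlgebraic ℚ ℝ
  apply IsAlgebraic.restrictScalars (S := RA) ℚ
  refine ⟨X ^ p' - 1 - C κ * (X ^ p - 1), ?_, ?_⟩
  · intro h0
    have h1 := congrArg (fun F => Polynomial.coeff F p') h0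
    simp only [coeff_sub, coeff_C_mul, coeff_X_pow, coeff_one, coeff_zero] at h1
    rw [if_pos trivial, if_neg (by omega), if_neg (by omega)] at h1
    simp at h1
  · simp only [map_sub, map_mul, map_pow, aeval_X, aeval_C, map_one]
    have : (algebraMap RA ℝ) κ = (κ : ℝ) := rfl
    rw [this, hκ]
    field_simp
    ring

end Pool.Agent.J4H75.CN
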