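import Pool.Agent.J4H40.Eb

set_option autoImplicit false

/-! Digit positions of differences of powers of a real number. -/

namespace Pool.Agent.J4H75.CN

open Finset
open Pool.Agent.J4H40.Ca (dn dn_nn dn_le dn_half dn_small Gd)

lemma fin_pos {α : Type*} (s : Finset α) (f : α → ℝ) (h : ∀ x ∈ s, 0 < f x) :
    ∃ η : ℝ, 0 < η ∧ ∀ x ∈ s, η ≤ f x := by
  rcases s.eq_empty_or_nonempty with rfl | hs
  · exact ⟨1, one_pos, by simp⟩
  · obtain ⟨x, hx, hm⟩ := s.exists_min_image f hs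
    exact ⟨f x, h x hx, hm⟩

/-- a run of bad positions -/
lemma run {b : ℕ} (hb : 2 ≤ b) (y : ℝ) (a len : ℕ)
    (h : ∀ j, a ≤ j → j < a + len → dn (y / (b : ℝ) ^ (j + 1)) < 1 / (2 * b : ℝ)) :
    dn (y / (b : ℝ) ^ (a + len)) ≤ 1 / (2 * (b : ℝ) ^ len) := by
  have hb2 : (2 : ℝ) ≤ b := by exact_mod_cast hb
  have hb0 : (0 : ℝ) < b := by linarith
  have key : ∀ l ≤ len, (b : ℝ) ^ l * dn (y / (b : ℝ) ^ (a + l)) = dn (y / (b : ℝ) ^ a) := by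
    intro l
    induction l with
    | zero => intro _; simp
    | succ l ih =>
      intro hl
      have h1 := h (a + l) (by omega) (by omega)
      have h2 : b * dn (y / (b : ℝ) ^ (a + l + 1)) < 1 / 2 := by
        rw [lt_div_iff₀ (by positivity)] at h1
        linarith
      have h3 := dn_small h2
      have h4 : y / (b : ℝ) ^ (a + l + 1) * b = y / (b : ℝ) ^ (a + l) := by
        rw [pow_succ]
        field_simp
      rw [h4] at h3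
      rw [← ih (by omega), h3, pow_succ, ← add_assoc]
      ring
  have h1 := key len le_rfl
  have h2 := dn_half (y / (b : ℝ) ^ a)
  rw [← h1] at h2
  rw [le_div_iff₀ (by positivity)]
  linarith

/-- no rational ratios among the `q ^ p - 1` -/
def Irr (q : ℝ) : Prop :=
  ∀ (p p' : ℕ) (A B : ℤ), 1 ≤ p → p < p' → A ≠ 0 → (B : ℝ) * (q ^ p - 1) ≠ A * (q ^ p' - 1)

lemma A1 {b : ℕ} (hb : 2 ≤ b) {q : ℝ} (hq : 1 < q) (hI : Irr q) (K W : ℕ) : ∃ len : ℕ, 1 ≤ len ∧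
    ∀ (θ τ0 : ℝ) (m1 m2 m3 t : ℕ), m1 < m2 → m2 < m3 → m3 ≤ m1 + K → (b : ℝ) ^ t ≤ |θ| * (q - 1) * q ^ m1 →
      |θ| * (q - 1) * q ^ m1 < (b : ℝ) ^ (t + 1) → W + len ≤ t →
      ∃ j, t - (W + len) ≤ j ∧ j < t - W ∧
        ∃ m ∈ ({m1, m2, m3} : Finset ℕ), 1 / (2 * b : ℝ) ≤ dn ((θ * q ^ m - τ0) / (b : ℝ) ^ (j + 1)) := by
  have hb2 : (2 : ℝ) ≤ b := by exact_mod_cast hb
  have hb0 : (0 : ℝ) < b := by linarith
  have hq0 : 0 < q := by linarith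
  have hq1 : 0 < q - 1 := by linarith
  obtain ⟨Q, hQ⟩ : ∃ Q : ℝ, Q = (b : ℝ) ^ (W + 1) * q ^ K / (q - 1) := ⟨_, rfl⟩
  obtain ⟨Nm, hNm⟩ := exists_nat_ge (Q + 1)
  obtain ⟨S, hS⟩ : ∃ S : Finset ((ℕ × ℕ) × (ℤ × ℤ)), S = (((Icc 1 K ×ˢ Icc 1 K) ×ˢ
      (Icc (-(Nm : ℤ)) Nm ×ˢ Icc (-(Nm : ℤ)) Nm)).filter fun x => x.1.1 < x.1.2 ∧ x.2.1 ≠ 0) := ⟨_, rfl⟩
  obtain ⟨η, hη0, hη⟩ := fin_pos S (fun x => |(x.2.2 : ℝ) * (q ^ x.1.1 - 1) - x.2.1 * (q ^ x.1.2 - 1)|) (by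
    intro x hx
    rw [hS, Finset.mem_filter, Finset.mem_product, Finset.mem_product, Finset.mem_Icc] at hx
    exact abs_pos.2 (sub_ne_zero.2 (hI _ _ _ _ hx.1.1.1.1 hx.2.1 hx.2.2)))
  obtain ⟨l0, hl0⟩ := pow_unbounded_of_one_lt (2 * q ^ K / η) (show (1 : ℝ) < b by linarith)
  refine ⟨l0 + 1, by omega, ?_⟩
  intro θ τ0 m1 m2 m3 t h12 h23 h3K ht1 ht2 hWt
  by_contra hcon
  push Not at hcon
  obtain ⟨len, hlen⟩ : ∃ len, len = l0 + 1 := ⟨_, rfl⟩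
  rw [← hlen] at hcon hWt
  obtain ⟨Bt, hBt⟩ : ∃ Bt : ℝ, Bt = (b : ℝ) ^ (t - W) := ⟨_, rfl⟩
  have hBt0 : 0 < Bt := by rw [hBt]; positivity
  obtain ⟨E, hE⟩ : ∃ E : ℝ, E = 1 / (b : ℝ) ^ len := ⟨_, rfl⟩
  have hE0 : 0 < E := by rw [hE]; positivity
  have hE1 : E ≤ 1 / 2 := by
    rw [hE, hlen]
    apply one_div_le_one_div_of_le (by norm_num)
    calc (2 : ℝ) ≤ b := hb2
      _ = (b : ℝ) ^ 1 := (pow_one _).symm
      _ ≤ (b : ℝ) ^ (l0 + 1) := pow_le_pow_right₀ (by linarith) (by omega)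
  have hE2 : 2 * q ^ K * E < η := by
    rw [hE, mul_one_div, div_lt_iff₀ (by positivity)]
    rw [div_lt_iff₀ hη0] at hl0
    refine hl0.trans_le ?_
    rw [mul_comm]
    apply mul_le_mul_of_nonneg_left _ hη0.le
    rw [hlen]
    exact pow_le_pow_right₀ (by linarith) (by omega)
  have hr : ∀ m ∈ ({m1, m2, m3} : Finset ℕ), |(θ * q ^ m - τ0) / Bt - round ((θ * q ^ m - τ0) / Bt)| ≤ E / 2 := by
    intro m hm
    have h1 := run hb (θ * q ^ m - τ0) (t - (W + len)) len (fun j hj1 hj2 => hcon j hj1 (by omega) m hm)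
    have h2 : t - (W + len) + len = t - W := by omega
    rw [h2, ← hBt] at h1
    have h3 : 1 / (2 * (b : ℝ) ^ len) = E / 2 := by
      rw [hE]
      field_simp
    rw [h3] at h1
    exact h1
  have r1 := hr m1 (by simp)
  have r2 := hr m2 (by simp)
  have r3 := hr m3 (by simp)
  obtain ⟨Z1, hZ1⟩ : ∃ Z1, Z1 = round ((θ * q ^ m1 - τ0) / Bt) := ⟨_, rfl⟩
  obtain ⟨Z2, hZ2⟩ : ∃ Z2, Z2 = round ((θ * q ^ m2 - τ0) / Bt) := ⟨_, rfl⟩
  obtain ⟨Z3, hZ3⟩ : ∃ Z3, Z3 = round ((θ * q ^ m3 - τ0) / Bt) := ⟨_, rfl⟩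
  rw [← hZ1] at r1
  rw [← hZ2] at r2
  rw [← hZ3] at r3
  obtain ⟨x0, hx0⟩ : ∃ x0 : ℝ, x0 = θ * q ^ m1 / Bt := ⟨_, rfl⟩
  obtain ⟨p, hp⟩ : ∃ p, p = m2 - m1 := ⟨_, rfl⟩
  obtain ⟨p', hp'⟩ : ∃ p', p' = m3 - m1 := ⟨_, rfl⟩
  have e2 : θ * q ^ m2 / Bt = x0 * q ^ p := by
    have : m2 = m1 + p := by omega
    rw [this, hx0, pow_add]
    ring
  have e3 : θ * q ^ m3 / Bt = x0 * q ^ p' := by
    have : m3 = m1 + p' := by omega
    rw [this, hx0, pow_add]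
    ring
  rw [sub_div, ← hx0] at r1
  rw [sub_div, e2] at r2
  rw [sub_div, e3] at r3
  have hd2 : |x0 * (q ^ p - 1) - (Z2 - Z1 : ℤ)| ≤ E := by
    have h1 : x0 * (q ^ p - 1) - (Z2 - Z1 : ℤ) = (x0 * q ^ p - τ0 / Bt - Z2) - (x0 - τ0 / Bt - Z1) := by
      push_cast
      ring
    rw [h1]
    refine (abs_sub _ _).trans ?_
    linarith
  have hd3 : |x0 * (q ^ p' - 1) - (Z3 - Z1 : ℤ)| ≤ E := by
    have h1 : x0 * (q ^ p' - 1) - (Z3 - Z1 : ℤ) = (x0 * q ^ p' - τ0 / Bt - Z3) - (x0 - τ0 / Bt - Z1) := by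
      push_cast
      ring
    rw [h1]
    refine (abs_sub _ _).trans ?_
    linarith
  have hp1 : 1 ≤ p := by omega
  have hpp : p < p' := by omega
  have hpK : p' ≤ K := by omega
  have hBW : Bt * (b : ℝ) ^ W = (b : ℝ) ^ t := by
    rw [hBt, ← pow_add]
    congr 1
    omega
  have hWp : (1 : ℝ) ≤ (b : ℝ) ^ W := one_le_pow₀ (by linarith)
  have hx0a : |x0| = |θ| * q ^ m1 / Bt := by
    rw [hx0, abs_div, abs_mul, abs_of_pos (pow_pos hq0 m1), abs_of_pos hBt0]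
  have hxl : 1 ≤ |x0| * (q - 1) := by
    rw [hx0a, div_mul_eq_mul_div, le_div_iff₀ hBt0, one_mul]
    have h1 : Bt ≤ (b : ℝ) ^ t := by
      rw [← hBW]
      exact le_mul_of_one_le_right hBt0.le hWp
    linarith
  have hxu : |x0| * (q - 1) ≤ (b : ℝ) ^ (W + 1) := by
    rw [hx0a, div_mul_eq_mul_div, div_le_iff₀ hBt0]
    have h1 : (b : ℝ) ^ (W + 1) * Bt = (b : ℝ) ^ (t + 1) := by
      rw [pow_succ, pow_succ, ← hBW]
      ring
    rw [h1]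
    linarith
  have hqp : ∀ i, 1 ≤ i → i ≤ K → q - 1 ≤ q ^ i - 1 ∧ q ^ i - 1 ≤ q ^ K := by
    intro i hi1 hi2
    have h1 : q ^ 1 ≤ q ^ i := pow_le_pow_right₀ hq.le hi1
    have h2 : q ^ i ≤ q ^ K := pow_le_pow_right₀ hq.le hi2
    rw [pow_one] at h1
    exact ⟨by linarith, by linarith⟩
  have hd2a : 1 ≤ |x0 * (q ^ p - 1)| := by
    obtain ⟨h1, h2⟩ := hqp p hp1 (by omega)
    rw [abs_mul, abs_of_pos (by linarith : 0 < q ^ p - 1)]
    have := mul_le_mul_of_nonneg_left h1 (abs_nonneg x0)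
    linarith
  have hup : ∀ i, 1 ≤ i → i ≤ K → |x0 * (q ^ i - 1)| ≤ Q := by
    intro i hi1 hi2
    obtain ⟨h1, h2⟩ := hqp i hi1 hi2
    rw [abs_mul, abs_of_pos (by linarith : 0 < q ^ i - 1), hQ, le_div_iff₀ hq1]
    calc |x0| * (q ^ i - 1) * (q - 1) = (|x0| * (q - 1)) * (q ^ i - 1) := by ring
      _ ≤ (b : ℝ) ^ (W + 1) * q ^ K := mul_le_mul hxu h2 (by linarith) (by positivity)
  have hN2 : Z2 - Z1 ≠ 0 := by
    intro h0
    rw [h0, Int.cast_zero, sub_zero] at hd2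
    linarith
  have hbd : ∀ (N : ℤ) i, 1 ≤ i → i ≤ K → |x0 * (q ^ i - 1) - (N : ℝ)| ≤ E → N ∈ Icc (-(Nm : ℤ)) Nm := by
    intro N i hi1 hi2 h1
    rw [Finset.mem_Icc, ← abs_le]
    have h2 := hup i hi1 hi2
    have h3 : |(N : ℝ)| ≤ |x0 * (q ^ i - 1)| + |x0 * (q ^ i - 1) - (N : ℝ)| := by
      have : (N : ℝ) = x0 * (q ^ i - 1) - (x0 * (q ^ i - 1) - N) := by ring
      calc |(N : ℝ)| = |x0 * (q ^ i - 1) - (x0 * (q ^ i - 1) - N)| := by rw [← this]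
        _ ≤ _ := abs_sub _ _
    have h4 : ((|N| : ℤ) : ℝ) ≤ ((Nm : ℤ) : ℝ) := by
      push_cast
      linarith
    exact_mod_cast h4
  have hmem : ((p, p'), (Z2 - Z1, Z3 - Z1)) ∈ S := by
    rw [hS, Finset.mem_filter, Finset.mem_product, Finset.mem_product, Finset.mem_product]
    have hp2 : p ≤ K := by omega
    have hp3 : 1 ≤ p' := by omega
    exact ⟨⟨⟨Finset.mem_Icc.2 ⟨hp1, hp2⟩, Finset.mem_Icc.2 ⟨hp3, hpK⟩⟩,
      ⟨hbd _ p hp1 hp2 hd2, hbd _ p' hp3 hpK hd3⟩⟩, hpp, hN2⟩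
  have h1 := hη _ hmem
  simp only at h1
  have h2 : ((Z3 - Z1 : ℤ) : ℝ) * (q ^ p - 1) - ((Z2 - Z1 : ℤ) : ℝ) * (q ^ p' - 1) =
      (x0 * (q ^ p - 1) - (Z2 - Z1 : ℤ)) * (q ^ p' - 1) - (x0 * (q ^ p' - 1) - (Z3 - Z1 : ℤ)) * (q ^ p - 1) := by ring
  rw [h2] at h1
  obtain ⟨k1, k2⟩ := hqp p hp1 (by omega)
  obtain ⟨k3, k4⟩ := hqp p' (by omega) hpK
  have h3 : |(x0 * (q ^ p - 1) - (Z2 - Z1 : ℤ)) * (q ^ p' - 1) - (x0 * (q ^ p' - 1) - (Z3 - Z1 : ℤ)) * (q ^ p - 1)| ≤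
      E * q ^ K + E * q ^ K := by
    refine (abs_sub _ _).trans (add_le_add ?_ ?_)
    · rw [abs_mul, abs_of_pos (by linarith : 0 < q ^ p' - 1)]
      exact mul_le_mul hd2 k4 (by linarith) hE0.le
    · rw [abs_mul, abs_of_pos (by linarith : 0 < q ^ p - 1)]
      exact mul_le_mul hd3 k2 (by linarith) hE0.le
  linarith

/-- many disjoint runs -/
lemma posR {b : ℕ} (hb : 2 ≤ b) {q : ℝ} (hq : 1 < q) (hI : Irr q) (K : ℕ) : ∃ R : ℕ → ℕ, (∀ s, R s < R (s + 1)) ∧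
    ∀ (s : ℕ) (θ τ0 : ℝ) (m1 m2 m3 t : ℕ), m1 < m2 → m2 < m3 → m3 ≤ m1 + K → (b : ℝ) ^ t ≤ |θ| * (q - 1) * q ^ m1 →
      |θ| * (q - 1) * q ^ m1 < (b : ℝ) ^ (t + 1) → R (s + 1) ≤ t →
      ∃ j, t - R (s + 1) ≤ j ∧ j < t - R s ∧
        ∃ m ∈ ({m1, m2, m3} : Finset ℕ), 1 / (2 * b : ℝ) ≤ dn ((θ * q ^ m - τ0) / (b : ℝ) ^ (j + 1)) := by
  choose len hlen1 hlen using fun W => A1 hb hq hI K W
  refine ⟨fun s => Nat.rec 0 (fun _ W => W + len W) s, ?_, ?_⟩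
  · intro s
    have := hlen1 (Nat.rec 0 (fun _ W => W + len W) s)
    simp only
    omega
  · intro s θ τ0 m1 m2 m3 t h12 h23 h3 h4 h5 h6
    exact hlen _ θ τ0 m1 m2 m3 t h12 h23 h3 h4 h5 h6

/-- one of three nearby exponents has many good positions -/
lemma posL {b : ℕ} (hb : 2 ≤ b) {q : ℝ} (hq : 1 < q) (hI : Irr q) (K L : ℕ) : ∃ R : ℕ,
    ∀ (θ τ0 : ℝ) (m1 m2 m3 G : ℕ), m1 < m2 → m2 < m3 → m3 ≤ m1 + K → (b : ℝ) ^ (G + R) ≤ |θ| * (q - 1) * q ^ m1 →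
      ∃ m ∈ ({m1, m2, m3} : Finset ℕ), Gd b L ((θ * q ^ m - τ0) / (b : ℝ) ^ G) := by
  obtain ⟨R, hR1, hR⟩ := posR hb hq hI K
  have hRm : StrictMono R := strictMono_nat_of_lt_succ hR1
  have hb2 : (2 : ℝ) ≤ b := by exact_mod_cast hb
  refine ⟨R (3 * L), ?_⟩
  intro θ τ0 m1 m2 m3 G h12 h23 h3 h4
  obtain ⟨t, ht1, ht2⟩ := exists_nat_pow_near (x := |θ| * (q - 1) * q ^ m1) (y := (b : ℝ))
    (le_trans (one_le_pow₀ (by linarith)) h4) (by linarith)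
  have hGt : G + R (3 * L) ≤ t := by
    have h5 := h4.trans_lt ht2
    rw [pow_lt_pow_iff_right₀ (by linarith)] at h5
    omega
  have h5 : ∀ s ∈ range (3 * L), ∃ j, t - R (s + 1) ≤ j ∧ j < t - R s ∧
        ∃ m ∈ ({m1, m2, m3} : Finset ℕ), 1 / (2 * b : ℝ) ≤ dn ((θ * q ^ m - τ0) / (b : ℝ) ^ (j + 1)) := by
    intro s hs
    rw [Finset.mem_range] at hs
    exact hR s θ τ0 m1 m2 m3 t h12 h23 h3 ht1 ht2 (le_trans (hRm.monotone (by omega)) (by omega : R (3 * L) ≤ t))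
  choose! j hj1 hj2 m hm1 hm2 using h5
  obtain ⟨M, hM, hcard⟩ := Finset.exists_le_card_fiber_of_mul_le_card_of_maps_to (s := range (3 * L))
    (t := ({m1, m2, m3} : Finset ℕ)) (f := m) (n := L) hm1 ⟨m1, by simp⟩ (by
      rw [card_range]
      exact Nat.mul_le_mul_right _ Finset.card_le_three)
  obtain ⟨F, hF1, hF2⟩ := Finset.exists_subset_card_eq hcard
  refine ⟨M, hM, F.image (fun s => j s - G), ?_, ?_⟩
  · rw [Finset.card_image_of_injOn, hF2]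
    intro s hs s' hs' hss
    have k1 := (Finset.mem_filter.1 (hF1 hs)).1
    have k2 := (Finset.mem_filter.1 (hF1 hs')).1
    simp only at hss
    have k3 := hj1 s k1
    have k4 := hj1 s' k2
    have k5 := hj2 s k1
    have k6 := hj2 s' k2
    rw [Finset.mem_range] at k1 k2
    have k7 : R (s + 1) ≤ R (3 * L) := hRm.monotone (by omega)
    have k8 : R (s' + 1) ≤ R (3 * L) := hRm.monotone (by omega)
    rcases lt_trichotomy s s' with h | h | h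
    · have k9 : R (s + 1) ≤ R s' := hRm.monotone h
      omega
    · exact h
    · have k9 : R (s' + 1) ≤ R s := hRm.monotone h
      omega
  · intro i hi
    obtain ⟨s, hs, rfl⟩ := Finset.mem_image.1 hi
    obtain ⟨k1, k2⟩ := Finset.mem_filter.1 (hF1 hs)
    have k3 := hj1 s k1
    have k4 := hm2 s k1
    rw [k2] at k4
    rw [Finset.mem_range] at k1
    have k7 : R (s + 1) ≤ R (3 * L) := hRm.monotone (by omega)
    have k5 : j s + 1 = G + (j s - G + 1) := by omega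
    have k6 : (θ * q ^ M - τ0) / (b : ℝ) ^ G / (b : ℝ) ^ (j s - G + 1) = (θ * q ^ M - τ0) / (b : ℝ) ^ (j s + 1) := by
      rw [div_div, ← pow_add, ← k5]
    rw [k6]
    exact k4

/-- a set without three close elements is small -/
lemma count3 (S : Finset ℕ) (K B m0 : ℕ) (hS : ∀ m ∈ S, m0 ≤ m ∧ m < m0 + B)
    (h3 : ∀ m1 ∈ S, ∀ m2 ∈ S, ∀ m3 ∈ S, m1 < m2 → m2 < m3 → m1 + K < m3) :
    S.card ≤ 2 * (B / (K + 1) + 1) := by
  have h1 := Finset.card_le_mul_card_image (f := fun m => (m - m0) / (K + 1)) S 2 (by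
    intro a _
    by_contra hcon
    push Not at hcon
    obtain ⟨x, hx, y, hy, z, hz, hxy, hxz, hyz⟩ := Finset.two_lt_card.1 hcon
    have key : ∀ x y : ℕ, x ∈ S.filter (fun m => (m - m0) / (K + 1) = a) →
        y ∈ S.filter (fun m => (m - m0) / (K + 1) = a) → y ≤ x + K := by
      intro x y hx hy
      obtain ⟨hx1, hx2⟩ := Finset.mem_filter.1 hx
      obtain ⟨hy1, hy2⟩ := Finset.mem_filter.1 hy
      have hx3 := hS x hx1
      have hy3 := hS y hy1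
      have e1 := Nat.div_add_mod (x - m0) (K + 1)
      have e2 := Nat.div_add_mod (y - m0) (K + 1)
      have e3 := Nat.mod_lt (y - m0) (show 0 < K + 1 by omega)
      rw [hx2] at e1
      rw [hy2] at e2
      omega
    have kx := (Finset.mem_filter.1 hx).1
    have ky := (Finset.mem_filter.1 hy).1
    have kz := (Finset.mem_filter.1 hz).1
    have cl : ∀ u v w : ℕ, u ∈ S → v ∈ S → w ∈ S → u < v → v < w → w ≤ u + K → False := by
      intro u v w hu hv hw h1 h2 h4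
      have := h3 u hu v hv w hw h1 h2
      omega
    rcases lt_or_gt_of_ne hxy with a1 | a1 <;> rcases lt_or_gt_of_ne hxz with a2 | a2 <;>
      rcases lt_or_gt_of_ne hyz with a3 | a3
    · exact cl x y z kx ky kz a1 a3 (key x z hx hz)
    · exact cl x z y kx kz ky a2 a3 (key x y hx hy)
    · omega
    · exact cl z x y kz kx ky a2 a1 (key z y hz hy)
    · exact cl y x z ky kx kz a1 a2 (key y z hy hz)
    · omega
    · exact cl y z x ky kz kx a3 a2 (key y x hy hx)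
    · exact cl z y x kz ky kx a3 a1 (key z x hz hx))
  refine h1.trans (Nat.mul_le_mul_left _ ?_)
  have h2 : S.image (fun m => (m - m0) / (K + 1)) ⊆ range (B / (K + 1) + 1) := by
    intro i hi
    obtain ⟨m, hm, rfl⟩ := Finset.mem_image.1 hi
    have := hS m hm
    rw [Finset.mem_range]
    have h4 : (m - m0) / (K + 1) ≤ B / (K + 1) := Nat.div_le_div_right (by omega)
    omega
  have h3 := Finset.card_le_card h2
  rwa [card_range] at h3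

end Pool.Agent.J4H75.CN
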