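import Pool.Agent.J4H75.CN.Kro
import Pool.Agent.J4H75.CN.Lat

set_option autoImplicit false

/-! Pisot's theorem: the base of a progression with square summable distances to the integers is algebraic. -/

namespace Pool.Agent.J4H75.CN

open MeasureTheory Finset Filter Topology Polynomial
open Pool.Agent.J4H40.Ca (dn dn_nn dn_half)

/-- a product of a null sequence decays faster than any exponential -/
lemma prod_fast {a : ℕ → ℝ} (ha : ∀ j, 0 ≤ a j) (hl : Tendsto a atTop (𝓝 0)) {ρ : ℝ} (hρ : 0 < ρ) :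
    ∃ M : ℝ, 0 < M ∧ ∀ k, ∏ j ∈ range k, a j ≤ M * ρ ^ k := by
  obtain ⟨j0, hj0⟩ := eventually_atTop.1 (hl.eventually (gt_mem_nhds hρ))
  obtain ⟨g, hg⟩ : ∃ g : ℕ → ℝ, g = fun j => max (a j / ρ) 1 := ⟨_, rfl⟩
  have hg1 : ∀ j, 1 ≤ g j := by intro j; rw [hg]; exact le_max_right _ _
  have hg2 : ∀ j, j0 ≤ j → g j = 1 := by
    intro j hj
    rw [hg]
    apply max_eq_right
    rw [div_le_one hρ]
    exact (hj0 j hj).le
  refine ⟨∏ j ∈ range j0, g j, Finset.prod_pos fun j _ => lt_of_lt_of_le one_pos (hg1 j), fun k => ?_⟩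
  have h1 : ∏ j ∈ range k, a j ≤ ∏ j ∈ range k, (g j * ρ) := by
    refine Finset.prod_le_prod (fun j _ => ha j) fun j _ => ?_
    rw [hg]
    simp only
    have : a j = a j / ρ * ρ := by field_simp
    calc a j = a j / ρ * ρ := this
      _ ≤ max (a j / ρ) 1 * ρ := mul_le_mul_of_nonneg_right (le_max_left _ _) hρ.le
  refine h1.trans ?_
  rw [Finset.prod_mul_distrib, Finset.prod_const, card_range]
  apply mul_le_mul_of_nonneg_right _ (by positivity)
  have h2 : ∀ k, ∏ j ∈ range k, g j ≤ ∏ j ∈ range j0, g j := by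
    intro k
    induction k with
    | zero =>
      rw [Finset.range_zero, Finset.prod_empty]
      exact Finset.one_le_prod fun j _ => hg1 j
    | succ k ih =>
      by_cases hk : j0 ≤ k
      · rw [Finset.prod_range_succ, hg2 k hk, mul_one]
        exact ih
      · push Not at hk
        have h3 : range (k + 1) ⊆ range j0 := Finset.range_subset_range.2 (by omega)
        rw [← Finset.prod_sdiff h3]
        exact le_mul_of_one_le_left (Finset.prod_nonneg fun j _ => by linarith [hg1 j])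
          (Finset.one_le_prod fun j _ => hg1 j)
  exact h2 k

/-- **Pisot's theorem** (algebraicity of the base) -/
theorem pisot {β x : ℝ} (hβ : 1 < β) (hx : x ≠ 0) (hs : Summable fun j : ℕ => dn (x * β ^ j) ^ 2) : IsAlgebraic ℚ β := by
  have hβ0 : 0 < β := by linarith
  obtain ⟨n, hn⟩ : ∃ n : ℕ → ℤ, n = fun j => round (x * β ^ j) := ⟨_, rfl⟩
  obtain ⟨e, he⟩ : ∃ e : ℕ → ℝ, e = fun j => (n j : ℝ) - x * β ^ j := ⟨_, rfl⟩
  have hes : Summable fun j => e j ^ 2 := by
    refine hs.congr fun j => ?_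
    rw [he, hn]
    simp only
    unfold dn
    rw [sq_abs]
    ring
  obtain ⟨z, hz⟩ : ∃ z : ℕ → ℝ, z = fun j => (n (j + 1) : ℝ) - β * n j := ⟨_, rfl⟩
  have hze : ∀ j, z j = e (j + 1) - β * e j := by
    intro j
    rw [hz, he]
    simp only
    rw [pow_succ]
    ring
  have hzs : Summable fun j => z j ^ 2 := by
    have h1 : Summable fun j => 2 * e (j + 1) ^ 2 + 2 * β ^ 2 * e j ^ 2 :=
      (((summable_nat_add_iff 1).2 hes).mul_left 2).add (hes.mul_left _)
    refine Summable.of_nonneg_of_le (fun j => sq_nonneg _) (fun j => ?_) h1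
    rw [hze]
    nlinarith [sq_nonneg (e (j + 1) + β * e j)]
  -- the tails
  obtain ⟨τ, hτ⟩ : ∃ τ : ℕ → ℝ, τ = fun j => ∑' i, z (i + j) ^ 2 := ⟨_, rfl⟩
  have hτ0 : Tendsto τ atTop (𝓝 0) := by
    rw [hτ]
    exact tendsto_sum_nat_add fun j => z j ^ 2
  have hτn : ∀ j, 0 ≤ τ j := by
    intro j
    rw [hτ]
    exact tsum_nonneg fun i => sq_nonneg _
  have hτs : Tendsto (fun j => Real.sqrt (τ j)) atTop (𝓝 0) := by
    have := (Real.continuous_sqrt.tendsto 0).comp hτ0
    rw [Real.sqrt_zero] at this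
    exact this
  obtain ⟨M, hM0, hM⟩ := prod_fast (fun j => Real.sqrt_nonneg _) hτs (show 0 < 1 / (4 * β) by positivity)
  have hnb : ∀ j, |(n j : ℝ)| ≤ (|x| + 1) * β ^ j := by
    intro j
    have h1 : |e j| ≤ 1 / 2 := by
      rw [he, hn]
      simp only
      rw [abs_sub_comm]
      exact abs_sub_round _
    have h2 : (n j : ℝ) = x * β ^ j + e j := by rw [he]; ring
    rw [h2]
    refine (abs_add_le _ _).trans ?_
    rw [abs_mul, abs_of_pos (pow_pos hβ0 j)]
    have h3 : 1 ≤ β ^ j := one_le_pow₀ hβ.le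
    nlinarith
  -- the determinants vanish
  have hdet : ∀ k, |(Matrix.det (fun i j : Fin (k + 1) => (n (i + j) : ℝ)) : ℝ)| ≤
      ((k + 1) * (|x| + 1) * β ^ k) * (M * (1 / (4 * β)) ^ k) := by
    intro k
    obtain ⟨Bm, hBm⟩ : ∃ Bm : Matrix (Fin (k + 1)) (Fin (k + 1)) ℝ,
        Bm = fun i j => Fin.cases ((n i : ℤ) : ℝ) (fun j' : Fin k => z (i + j')) j := ⟨_, rfl⟩
    have hB0 : ∀ i, Bm i 0 = n i := by intro i; rw [hBm]; rfl
    have hBs : ∀ i (j : Fin k), Bm i j.succ = z (i + j) := by intro i j; rw [hBm]; rfl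
    have h1 : Matrix.det (fun i j : Fin (k + 1) => (n (i + j) : ℝ)) = Bm.det := by
      apply Matrix.det_eq_of_forall_col_eq_smul_add_pred (fun _ => β)
      · intro i
        rw [hB0]
        simp
      · intro i j
        rw [hBs, hz]
        simp only [Fin.val_succ, Fin.val_castSucc]
        rw [← add_assoc]
        ring
    rw [h1]
    refine (had Bm).trans ?_
    rw [Fin.prod_univ_succ]
    have h2 : Real.sqrt (∑ i, Bm i 0 ^ 2) ≤ (k + 1) * (|x| + 1) * β ^ k := by
      have h3 : ∑ i, Bm i 0 ^ 2 ≤ ((k + 1) * (|x| + 1) * β ^ k) ^ 2 := by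
        have h4 : ∀ i ∈ (univ : Finset (Fin (k + 1))), Bm i 0 ^ 2 ≤ ((|x| + 1) * β ^ k) ^ 2 := by
          intro i _
          rw [hB0, ← sq_abs]
          apply pow_le_pow_left₀ (abs_nonneg _)
          refine (hnb _).trans ?_
          apply mul_le_mul_of_nonneg_left _ (by positivity)
          exact pow_le_pow_right₀ hβ.le (by omega)
        refine (Finset.sum_le_sum h4).trans ?_
        rw [Finset.sum_const, Finset.card_univ, Fintype.card_fin, nsmul_eq_mul]
        push_cast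
        have h5 : ((k : ℝ) + 1) ≤ (k + 1) ^ 2 := by nlinarith [(Nat.cast_nonneg k : (0 : ℝ) ≤ k)]
        calc ((k : ℝ) + 1) * ((|x| + 1) * β ^ k) ^ 2 ≤ (k + 1) ^ 2 * ((|x| + 1) * β ^ k) ^ 2 :=
              mul_le_mul_of_nonneg_right h5 (by positivity)
          _ = _ := by ring
      calc Real.sqrt (∑ i, Bm i 0 ^ 2) ≤ Real.sqrt (((k + 1) * (|x| + 1) * β ^ k) ^ 2) := Real.sqrt_le_sqrt h3
        _ = _ := Real.sqrt_sq (by positivity)
    have h3 : ∏ j : Fin k, Real.sqrt (∑ i, Bm i j.succ ^ 2) ≤ M * (1 / (4 * β)) ^ k := by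
      refine le_trans ?_ (hM k)
      rw [Finset.prod_range]
      refine Finset.prod_le_prod (fun j _ => Real.sqrt_nonneg _) fun j _ => ?_
      apply Real.sqrt_le_sqrt
      simp only [hBs]
      rw [Finset.sum_fin_eq_sum_range]
      have h4 : ∑ i ∈ range (k + 1), (if h : i < k + 1 then z ((⟨i, h⟩ : Fin (k + 1)) + j) ^ 2 else 0) =
          ∑ i ∈ range (k + 1), z (i + j) ^ 2 := by
        refine Finset.sum_congr rfl fun i hi => ?_
        rw [dif_pos (Finset.mem_range.1 hi)]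
      rw [h4, hτ]
      exact ((summable_nat_add_iff (f := fun i => z i ^ 2) (j : ℕ)).2 hzs).sum_le_tsum _ fun i _ => sq_nonneg _
    exact mul_le_mul h2 h3 (Finset.prod_nonneg fun j _ => Real.sqrt_nonneg _) (by positivity)
  have hsmall : Tendsto (fun k : ℕ => ((k + 1) * (|x| + 1) * β ^ k) * (M * (1 / (4 * β)) ^ k)) atTop (𝓝 0) := by
    have h1 : Tendsto (fun k : ℕ => (k : ℝ) * (1 / 4 : ℝ) ^ k) atTop (𝓝 0) :=
      tendsto_self_mul_const_pow_of_lt_one (by norm_num) (by norm_num)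
    have h2 : Tendsto (fun k : ℕ => (1 / 4 : ℝ) ^ k) atTop (𝓝 0) :=
      tendsto_pow_atTop_nhds_zero_of_lt_one (by norm_num) (by norm_num)
    have h3 := (h1.add h2).const_mul ((|x| + 1) * M)
    rw [add_zero, mul_zero] at h3
    refine h3.congr fun k => ?_
    have h4 : (1 / (4 * β)) ^ k * β ^ k = (1 / 4 : ℝ) ^ k := by
      rw [← mul_pow]
      congr 1
      field_simp
    calc (|x| + 1) * M * (k * (1 / 4) ^ k + (1 / 4) ^ k) = (|x| + 1) * M * (k + 1) * (1 / 4) ^ k := by ring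
      _ = (|x| + 1) * M * (k + 1) * ((1 / (4 * β)) ^ k * β ^ k) := by rw [h4]
      _ = _ := by ring
  obtain ⟨k0, hk0⟩ := eventually_atTop.1 (hsmall.eventually (gt_mem_nhds (show (0 : ℝ) < 1 by norm_num)))
  have hzero : ∀ k, k0 + 1 ≤ k → (Hk (fun j => (n j : ℚ)) k).det = 0 := by
    intro k hk
    obtain ⟨k', rfl⟩ : ∃ k', k = k' + 1 := ⟨k - 1, by omega⟩
    have h1 := (hdet k').trans_lt (hk0 k' (by omega))
    obtain ⟨Mz, hMz⟩ : ∃ Mz : Matrix (Fin (k' + 1)) (Fin (k' + 1)) ℤ, Mz = fun (i j : Fin (k' + 1)) => n ((i : ℕ) + (j : ℕ)) := ⟨_, rfl⟩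
    obtain ⟨Dz, hDz⟩ : ∃ Dz : ℤ, Dz = Mz.det := ⟨_, rfl⟩
    have h2 : Matrix.det (fun i j : Fin (k' + 1) => (n (i + j) : ℝ)) = (Dz : ℝ) := by
      have h := RingHom.map_det (Int.castRingHom ℝ) Mz
      rw [← hDz, hMz] at h
      exact h.symm
    have h3 : (Hk (fun j => (n j : ℚ)) (k' + 1)).det = (Dz : ℚ) := by
      have h := RingHom.map_det (Int.castRingHom ℚ) Mz
      rw [← hDz, hMz] at h
      exact h.symm
    rw [h2] at h1
    have h4 : |Dz| < 1 := by exact_mod_cast h1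
    rw [h3, Int.abs_lt_one_iff.1 h4, Int.cast_zero]
  obtain ⟨P, hP, hrec⟩ := kron _ hzero
  -- the limit
  have hlim : Tendsto (fun m => (n m : ℝ) / β ^ m) atTop (𝓝 x) := by
    rw [tendsto_iff_dist_tendsto_zero]
    have t1 : Tendsto (fun m : ℕ => (1 / 2 : ℝ) * (1 / β) ^ m) atTop (𝓝 0) := by
      have := (tendsto_pow_atTop_nhds_zero_of_lt_one (r := 1 / β) (by positivity) (by
        rw [div_lt_one hβ0]; exact hβ)).const_mul (1 / 2 : ℝ)
      simpa using this
    refine squeeze_zero (fun _ => dist_nonneg) (fun m => ?_) t1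
    rw [Real.dist_eq]
    have h1 : (n m : ℝ) / β ^ m - x = e m / β ^ m := by
      rw [he]
      field_simp
    rw [h1, abs_div, abs_of_pos (pow_pos hβ0 m), one_div, one_div, inv_pow, ← div_eq_mul_inv]
    apply div_le_div_of_nonneg_right _ (by positivity)
    rw [he, hn]
    simp only
    rw [abs_sub_comm]
    have := abs_sub_round (x * β ^ m)
    rw [one_div] at this
    exact this
  have h1 : Tendsto (fun m => ∑ j ∈ range (P.natDegree + 1), ((P.coeff j : ℚ) : ℝ) * β ^ j * ((n (m + j) : ℝ) / β ^ (m + j))) atTop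
      (𝓝 (∑ j ∈ range (P.natDegree + 1), ((P.coeff j : ℚ) : ℝ) * β ^ j * x)) := by
    apply tendsto_finsetSum
    intro j _
    exact ((tendsto_add_atTop_iff_nat (f := fun m => (n m : ℝ) / β ^ m) j).2 hlim).const_mul _
  have h2 : ∀ m, ∑ j ∈ range (P.natDegree + 1), ((P.coeff j : ℚ) : ℝ) * β ^ j * ((n (m + j) : ℝ) / β ^ (m + j)) = 0 := by
    intro m
    have h3 := hrec m
    have h4 : ∑ j ∈ range (P.natDegree + 1), ((P.coeff j : ℚ) : ℝ) * (n (m + j) : ℝ) = 0 := by
      have := congrArg (fun t : ℚ => (t : ℝ)) h3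
      push_cast at this
      exact this
    have h5 : ∑ j ∈ range (P.natDegree + 1), ((P.coeff j : ℚ) : ℝ) * β ^ j * ((n (m + j) : ℝ) / β ^ (m + j)) =
        (∑ j ∈ range (P.natDegree + 1), ((P.coeff j : ℚ) : ℝ) * (n (m + j) : ℝ)) / β ^ m := by
      rw [Finset.sum_div]
      refine Finset.sum_congr rfl fun j _ => ?_
      rw [pow_add]
      field_simp
    rw [h5, h4, zero_div]
  simp only [h2] at h1
  have h3 := tendsto_nhds_unique h1 tendsto_const_nhds
  rw [← Finset.sum_mul] at h3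
  rcases mul_eq_zero.1 h3 with h4 | h4
  · refine ⟨P, hP.ne_zero, ?_⟩
    rw [aeval_eq_sum_range, ← h4]
    refine Finset.sum_congr rfl fun j _ => ?_
    rw [Rat.smul_def]
  · exact absurd h4 hx

end Pool.Agent.J4H75.CN
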