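import Pool.Agent.J4H75.CN.Lat

set_option autoImplicit false

/-! The potential of a random walk with finitely many positive steps. -/

namespace Pool.Agent.J4H75.CN

open MeasureTheory Finset Filter Topology
open scoped ENNReal

section dens

variable {ι : Type*}

lemma ws_sub {x : ι → ℝ} {g : ℝ} (hg : g ∈ AddSubgroup.closure (Set.range x)) : ∃ A ∈ WS x, ∃ B ∈ WS x, g = A - B := by
  induction hg using AddSubgroup.closure_induction with
  | mem y hy =>
    obtain ⟨i, rfl⟩ := hy
    exact ⟨x i, ws_mem x i, 0, zero_mem _, (sub_zero _).symm⟩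
  | zero => exact ⟨0, zero_mem _, 0, zero_mem _, (sub_zero _).symm⟩
  | add y z _ _ hy hz =>
    obtain ⟨A, hA, B, hB, h1⟩ := hy
    obtain ⟨A', hA', B', hB', h2⟩ := hz
    exact ⟨A + A', add_mem hA hA', B + B', add_mem hB hB', by rw [h1, h2]; ring⟩
  | neg y _ hy =>
    obtain ⟨A, hA, B, hB, h1⟩ := hy
    exact ⟨B, hB, A, hA, by rw [h1]; ring⟩

lemma ws_nn {x : ι → ℝ} (hx : ∀ i, 0 < x i) {s : ℝ} (hs : s ∈ WS x) : 0 ≤ s := by
  obtain ⟨w, rfl⟩ := hs
  apply List.sum_nonneg
  intro a ha
  rw [List.mem_map] at ha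
  obtain ⟨i, _, rfl⟩ := ha
  exact (hx i).le

/-- the sums over words are asymptotically dense -/
lemma ws_dense {x : ι → ℝ} (hx : ∀ i, 0 < x i) (hd : Dense (AddSubgroup.closure (Set.range x) : Set ℝ)) {δ : ℝ}
    (hδ : 0 < δ) : ∃ y0 : ℝ, ∀ y, y0 ≤ y → ∃ s ∈ WS x, |s - y| ≤ δ := by
  obtain ⟨g, hg, hg0, hgδ⟩ := hd.exists_between hδ
  obtain ⟨A, hA, B, hB, hgAB⟩ := ws_sub hg
  rcases eq_or_lt_of_le (ws_nn hx hB) with h0 | h0
  · refine ⟨0, fun y hy => ⟨⌊y / g⌋₊ • A, nsmul_mem hA _, ?_⟩⟩
    have h1 : A = g := by rw [hgAB, ← h0, sub_zero]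
    rw [h1, nsmul_eq_mul]
    have h2 := Nat.floor_le (show 0 ≤ y / g by positivity)
    have h3 := Nat.lt_floor_add_one (y / g)
    rw [le_div_iff₀ hg0] at h2
    rw [div_lt_iff₀ hg0] at h3
    rw [abs_le]
    constructor <;> linarith
  · obtain ⟨N0, hN0⟩ := exists_nat_ge (B / g)
    refine ⟨(N0 + 1) * B, fun y hy => ?_⟩
    have hy0 : 0 ≤ y := le_trans (by positivity) hy
    obtain ⟨N, hN⟩ : ∃ N, N = ⌊y / B⌋₊ := ⟨_, rfl⟩
    have h2 := Nat.floor_le (show 0 ≤ y / B by positivity)
    have h3 := Nat.lt_floor_add_one (y / B)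
    rw [← hN] at h2 h3
    rw [le_div_iff₀ h0] at h2
    rw [div_lt_iff₀ h0] at h3
    have h4 : N0 ≤ N := by
      have h5 : (N0 : ℝ) + 1 < N + 1 := by
        by_contra hc
        push Not at hc
        have : ((N : ℝ) + 1) * B ≤ (N0 + 1) * B := mul_le_mul_of_nonneg_right hc h0.le
        linarith
      have h6 : N0 + 1 < N + 1 := by exact_mod_cast h5
      omega
    obtain ⟨j, hj⟩ : ∃ j, j = ⌊(y - N * B) / g⌋₊ := ⟨_, rfl⟩
    have h5 : 0 ≤ (y - N * B) / g := div_nonneg (by linarith) hg0.le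
    have h6 := Nat.floor_le h5
    have h7 := Nat.lt_floor_add_one ((y - N * B) / g)
    rw [← hj] at h6 h7
    have hjN : j ≤ N := by
      have h8 : (y - N * B) / g ≤ B / g := div_le_div_of_nonneg_right (by linarith) hg0.le
      have h9 : (j : ℝ) ≤ N0 := by linarith
      have h10 : j ≤ N0 := by exact_mod_cast h9
      omega
    rw [le_div_iff₀ hg0] at h6
    rw [div_lt_iff₀ hg0] at h7
    refine ⟨(N - j) • B + j • A, add_mem (nsmul_mem hB _) (nsmul_mem hA _), ?_⟩
    have h8 : (N - j) • B + j • A = N * B + j * g := by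
      rw [nsmul_eq_mul, nsmul_eq_mul, Nat.cast_sub hjN, hgAB]
      ring
    rw [h8, abs_le]
    constructor <;> linarith

end dens

variable {ι : Type} [Fintype ι] {P : ι → ℝ≥0∞} {x : ι → ℝ} {c : ℝ}

/-- one step of the walk -/
noncomputable def Ao (P : ι → ℝ≥0∞) (x : ι → ℝ) (f : ℝ → ℝ≥0∞) : ℝ → ℝ≥0∞ := fun y => ∑ i, P i * f (y - x i)

/-- the potential of `f` -/
noncomputable def Vo (P : ι → ℝ≥0∞) (x : ι → ℝ) (f : ℝ → ℝ≥0∞) : ℝ → ℝ≥0∞ := fun y => ∑' k : ℕ, ((Ao P x)^[k] f) y

lemma Vo_eq (f : ℝ → ℝ≥0∞) (y : ℝ) : Vo P x f y = f y + ∑ i, P i * Vo P x f (y - x i) := by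
  unfold Vo
  rw [tsum_eq_zero_add' ENNReal.summable]
  congr 1
  have h1 : ∀ k : ℕ, ((Ao P x)^[k + 1] f) y = ∑ i, P i * ((Ao P x)^[k] f) (y - x i) := by
    intro k
    rw [Function.iterate_succ_apply']
    rfl
  simp only [h1]
  rw [Summable.tsum_finsetSum (fun i _ => ENNReal.summable)]
  refine Finset.sum_congr rfl fun i _ => ?_
  rw [ENNReal.tsum_mul_left]

lemma Ao_mono {f g : ℝ → ℝ≥0∞} (h : ∀ y, f y ≤ g y) (k : ℕ) : ∀ y, ((Ao P x)^[k] f) y ≤ ((Ao P x)^[k] g) y := by
  induction k with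
  | zero => exact h
  | succ k ih =>
    intro y
    rw [Function.iterate_succ_apply', Function.iterate_succ_apply']
    show ∑ i, P i * ((Ao P x)^[k] f) (y - x i) ≤ ∑ i, P i * ((Ao P x)^[k] g) (y - x i)
    exact Finset.sum_le_sum fun i _ => mul_le_mul' le_rfl (ih _)

lemma Vo_mono {f g : ℝ → ℝ≥0∞} (h : ∀ y, f y ≤ g y) (y : ℝ) : Vo P x f y ≤ Vo P x g y :=
  ENNReal.tsum_le_tsum fun k => Ao_mono h k y

lemma Ao_add (f g : ℝ → ℝ≥0∞) (k : ℕ) : ∀ y, ((Ao P x)^[k] (fun y => f y + g y)) y = ((Ao P x)^[k] f) y + ((Ao P x)^[k] g) y := by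
  induction k with
  | zero => intro y; rfl
  | succ k ih =>
    intro y
    rw [Function.iterate_succ_apply', Function.iterate_succ_apply', Function.iterate_succ_apply']
    unfold Ao at ih ⊢
    rw [← Finset.sum_add_distrib]
    refine Finset.sum_congr rfl fun i _ => ?_
    rw [ih, mul_add]

lemma Vo_add (f g : ℝ → ℝ≥0∞) (y : ℝ) : Vo P x (fun y => f y + g y) y = Vo P x f y + Vo P x g y := by
  unfold Vo
  rw [← ENNReal.tsum_add]
  exact tsum_congr fun k => Ao_add f g k y

lemma Ao_smul (a : ℝ≥0∞) (f : ℝ → ℝ≥0∞) (k : ℕ) : ∀ y, ((Ao P x)^[k] (fun y => a * f y)) y = a * ((Ao P x)^[k] f) y := by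
  induction k with
  | zero => intro y; rfl
  | succ k ih =>
    intro y
    rw [Function.iterate_succ_apply', Function.iterate_succ_apply']
    unfold Ao at ih ⊢
    rw [Finset.mul_sum]
    refine Finset.sum_congr rfl fun i _ => ?_
    rw [ih]
    ring

lemma Vo_smul (a : ℝ≥0∞) (f : ℝ → ℝ≥0∞) (y : ℝ) : Vo P x (fun y => a * f y) y = a * Vo P x f y := by
  unfold Vo
  rw [← ENNReal.tsum_mul_left]
  exact tsum_congr fun k => Ao_smul a f k y

lemma Ao_shift (h : ℝ) (f : ℝ → ℝ≥0∞) (k : ℕ) : ∀ y, ((Ao P x)^[k] (fun y => f (y + h))) y = ((Ao P x)^[k] f) (y + h) := by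
  induction k with
  | zero => intro y; rfl
  | succ k ih =>
    intro y
    rw [Function.iterate_succ_apply', Function.iterate_succ_apply']
    show ∑ i, P i * ((Ao P x)^[k] (fun y => f (y + h))) (y - x i) = ∑ i, P i * ((Ao P x)^[k] f) (y + h - x i)
    refine Finset.sum_congr rfl fun i _ => ?_
    rw [ih]
    have : y - x i + h = y + h - x i := by ring
    rw [this]

lemma Vo_shift (h : ℝ) (f : ℝ → ℝ≥0∞) (y : ℝ) : Vo P x (fun y => f (y + h)) y = Vo P x f (y + h) :=
  tsum_congr fun k => Ao_shift h f k y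

/-- the potential vanishes to the left -/
lemma Vo_left (hx : ∀ i, 0 ≤ x i) {f : ℝ → ℝ≥0∞} {m : ℝ} (hf : ∀ y < m, f y = 0) : ∀ y < m, Vo P x f y = 0 := by
  have h1 : ∀ k : ℕ, ∀ y < m, ((Ao P x)^[k] f) y = 0 := by
    intro k
    induction k with
    | zero => exact hf
    | succ k ih =>
      intro y hy
      rw [Function.iterate_succ_apply']
      unfold Ao at ih ⊢
      refine Finset.sum_eq_zero fun i _ => ?_
      rw [ih _ (by linarith [hx i]), mul_zero]
  intro y hy
  unfold Vo
  rw [ENNReal.tsum_eq_zero]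
  intro k
  exact h1 k y hy

/-- a short interval is visited at most once -/
lemma Vo_short (hP : ∑ i, P i = 1) (hc : 0 < c) (hx : ∀ i, c ≤ x i) (m y : ℝ) :
    Vo P x (Set.indicator (Set.Ico m (m + c)) 1) y ≤ 1 := by
  obtain ⟨f, hf⟩ : ∃ f : ℝ → ℝ≥0∞, f = Set.indicator (Set.Ico m (m + c)) 1 := ⟨_, rfl⟩
  rw [← hf]
  have hf0 : ∀ y < m, f y = 0 := by
    intro y hy
    rw [hf, Set.indicator_of_notMem]
    intro h
    exact absurd h.1 (not_le.2 hy)
  have hl := Vo_left (P := P) (x := x) (fun i => hc.le.trans (hx i)) hf0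
  have key : ∀ n : ℕ, ∀ y, y < m + c + n * c → Vo P x f y ≤ 1 := by
    intro n
    induction n with
    | zero =>
      intro y hy
      rw [Nat.cast_zero, zero_mul, add_zero] at hy
      rw [Vo_eq]
      have h1 : ∑ i, P i * Vo P x f (y - x i) = 0 := by
        refine Finset.sum_eq_zero fun i _ => ?_
        rw [hl _ (by linarith [hx i]), mul_zero]
      rw [h1, add_zero, hf]
      refine Set.indicator_le_self' (fun _ _ => zero_le) _
    | succ n ih =>
      intro y hy
      by_cases h1 : y < m + c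
      · have hn : (0 : ℝ) ≤ n * c := by positivity
        exact ih y (by linarith)
      · rw [Vo_eq]
        have h2 : f y = 0 := by
          rw [hf, Set.indicator_of_notMem]
          intro h
          exact h1 h.2
        rw [h2, zero_add]
        push_cast at hy
        have h3 : ∀ i ∈ (univ : Finset ι), P i * Vo P x f (y - x i) ≤ P i * 1 := by
          intro i _
          have h4 := ih (y - x i) (by linarith [hx i])
          gcongr
        refine (Finset.sum_le_sum h3).trans ?_
        rw [← Finset.sum_mul, hP, one_mul]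
  obtain ⟨n, hn⟩ := exists_nat_gt ((y - m - c) / c)
  rw [div_lt_iff₀ hc] at hn
  exact key n y (by linarith)

/-- the potential of a bounded function with bounded support -/
lemma Vo_bdd (hP : ∑ i, P i = 1) (hc : 0 < c) (hx : ∀ i, c ≤ x i) {f : ℝ → ℝ≥0∞} {b : ℝ≥0∞} {m : ℝ} {L : ℕ}
    (hf : ∀ y, f y ≤ Set.indicator (Set.Ico m (m + L * c)) (fun _ => b) y) (y : ℝ) : Vo P x f y ≤ L * b := by
  have key : ∀ L : ℕ, ∀ y, Vo P x (Set.indicator (Set.Ico m (m + L * c)) (fun _ => b)) y ≤ L * b := by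
    intro L
    induction L with
    | zero =>
      intro y
      rw [Nat.cast_zero, zero_mul, add_zero, Set.Ico_self, Set.indicator_empty, Nat.cast_zero, zero_mul]
      have h1 := Vo_left (P := P) (x := x) (fun i => hc.le.trans (hx i)) (f := fun _ => 0) (m := y + 1) (fun _ _ => rfl) y
        (by linarith)
      exact h1.le
    | succ L ih =>
      intro y
      have h1 : ∀ y, Set.indicator (Set.Ico m (m + (L + 1 : ℕ) * c)) (fun _ => b) y ≤
          Set.indicator (Set.Ico m (m + L * c)) (fun _ => b) y +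
            b * Set.indicator (Set.Ico (m + L * c) (m + L * c + c)) 1 y := by
        intro y
        by_cases hy : y ∈ Set.Ico m (m + (L + 1 : ℕ) * c)
        · rw [Set.indicator_of_mem hy]
          by_cases hy2 : y < m + L * c
          · rw [Set.indicator_of_mem (show y ∈ Set.Ico m (m + L * c) from ⟨hy.1, hy2⟩)]
            exact le_self_add
          · rw [Set.indicator_of_mem (show y ∈ Set.Ico (m + L * c) (m + L * c + c) from ⟨not_lt.1 hy2, by
              have := hy.2
              push_cast at this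
              linarith⟩), Pi.one_apply, mul_one]
            exact le_add_self
        · rw [Set.indicator_of_notMem hy]
          exact zero_le
      refine (Vo_mono h1 y).trans ?_
      rw [Vo_add, Vo_smul]
      have h2 := Vo_short hP hc hx (m + L * c) y
      have h3 := ih y
      push_cast
      rw [add_mul, one_mul]
      calc Vo P x (Set.indicator (Set.Ico m (m + L * c)) (fun _ => b)) y +
          b * Vo P x (Set.indicator (Set.Ico (m + L * c) (m + L * c + c)) 1) y ≤ L * b + b * 1 := by gcongr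
        _ = L * b + b := by rw [mul_one]
  exact (Vo_mono hf y).trans (key L y)

/-- comparison with a subharmonic function -/
lemma Vo_comp (hc : 0 < c) (hx : ∀ i, c ≤ x i) {xm X0 : ℝ} (hxm : ∀ i, x i ≤ xm) {M f : ℝ → ℝ≥0∞}
    (hM : ∀ y, M y ≤ ∑ i, P i * M (y - x i)) (hf : ∀ y, X0 - xm ≤ y → y ≤ X0 → M y ≤ f y) :
    ∀ y, X0 - xm ≤ y → M y ≤ Vo P x f y := by
  have key : ∀ n : ℕ, ∀ y, X0 - xm ≤ y → y ≤ X0 + n * c → M y ≤ Vo P x f y := by
    intro n
    induction n with
    | zero =>
      intro y h1 h2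
      rw [Nat.cast_zero, zero_mul, add_zero] at h2
      rw [Vo_eq]
      exact (hf y h1 h2).trans le_self_add
    | succ n ih =>
      intro y h1 h2
      by_cases h3 : y ≤ X0
      · rw [Vo_eq]
        exact (hf y h1 h3).trans le_self_add
      · push Not at h3
        push_cast at h2
        refine (hM y).trans ?_
        rw [Vo_eq]
        refine le_trans ?_ le_add_self
        refine Finset.sum_le_sum fun i _ => ?_
        have h4 := ih (y - x i) (by linarith [hxm i]) (by linarith [hx i])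
        gcongr
  intro y hy
  obtain ⟨n, hn⟩ := exists_nat_ge ((y - X0) / c)
  rw [div_le_iff₀ hc] at hn
  exact key n y hy (by linarith)

/-- averages of potentials -/
lemma Vo_avg (hP : ∑ i, P i = 1) (hc : 0 < c) (hx : ∀ i, c ≤ x i) {f : ℝ → ℝ≥0∞} (hfm : Measurable f) {m : ℝ} {L L' : ℕ}
    (hf : ∀ y, y ∉ Set.Ico m (m + L * c) → f y = 0) {y0 R : ℝ} (hR : R + L * c < L' * c) (z : ℝ) :
    ∫⁻ y in Set.Icc y0 (y0 + R), Vo P x f (z - y) ≤ L' * ∫⁻ y, f y := by
  obtain ⟨F, hF⟩ : ∃ F : ℝ → ℝ≥0∞, F = fun z => ∫⁻ y in Set.Icc y0 (y0 + R), f (z - y) := ⟨_, rfl⟩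
  have hAm : ∀ k : ℕ, Measurable ((Ao P x)^[k] f) := by
    intro k
    induction k with
    | zero => exact hfm
    | succ k ih =>
      rw [Function.iterate_succ_apply']
      unfold Ao at ih ⊢
      exact Finset.measurable_fun_sum _ fun i _ => (ih.comp (measurable_id.sub_const _)).const_mul _
  have hA : ∀ k : ℕ, ∀ z, ((Ao P x)^[k] F) z = ∫⁻ y in Set.Icc y0 (y0 + R), ((Ao P x)^[k] f) (z - y) := by
    intro k
    induction k with
    | zero =>
      intro z
      rw [hF]
      rfl
    | succ k ih =>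
      intro z
      rw [Function.iterate_succ_apply']
      have h1 : ∀ y, ((Ao P x)^[k + 1] f) (z - y) = ∑ i, P i * ((Ao P x)^[k] f) (z - y - x i) := by
        intro y
        rw [Function.iterate_succ_apply']
        rfl
      simp only [h1]
      rw [lintegral_finsetSum]
      · show ∑ i, P i * ((Ao P x)^[k] F) (z - x i) = _
        refine Finset.sum_congr rfl fun i _ => ?_
        rw [ih, lintegral_const_mul]
        · congr 1
          refine lintegral_congr fun y => ?_
          have : z - x i - y = z - y - x i := by ring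
          rw [this]
        · exact (hAm k).comp ((measurable_const.sub measurable_id).sub_const _)
      · intro i _
        exact ((hAm k).comp ((measurable_const.sub measurable_id).sub_const _)).const_mul _
  have h1 : ∫⁻ y in Set.Icc y0 (y0 + R), Vo P x f (z - y) = Vo P x F z := by
    unfold Vo
    rw [lintegral_tsum]
    · exact tsum_congr fun k => (hA k z).symm
    · intro k
      exact ((hAm k).comp (measurable_const.sub measurable_id)).aemeasurable
  rw [h1]
  apply Vo_bdd hP hc hx (m := m + y0) (L := L')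
  intro y
  by_cases hy : y ∈ Set.Ico (m + y0) (m + y0 + L' * c)
  · rw [Set.indicator_of_mem hy, hF]
    simp only
    refine (setLIntegral_le_lintegral _ _).trans (le_of_eq ?_)
    exact lintegral_sub_left_eq_self f y
  · rw [Set.indicator_of_notMem hy, hF]
    simp only
    rw [nonpos_iff_eq_zero]
    rw [setLIntegral_congr_fun (g := fun _ => 0) measurableSet_Icc]
    · simp
    · intro s hs
      simp only
      apply hf
      intro h2
      apply hy
      constructor
      · linarith [h2.1, hs.1]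
      · linarith [h2.2, hs.2]

end Pool.Agent.J4H75.CN
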