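import Pool.Agent.J4H75.CN.Lay

set_option autoImplicit false

/-! Self-similar measures: decomposition at a given scale. -/

namespace Pool.Agent.J4H75.CN

open MeasureTheory Finset Filter Topology
open scoped Real ENNReal
open Pool.Agent.J4H75.PN (ee norm_ee ee_add)
open Pool.Agent.J4H40.Ca (ee_cont)

/-- `ν` is the self-similar measure of the similarities `x ↦ r i * x + v i` with the weights `p i` -/
structure SSim {ι : Type} [Fintype ι] (p r v : ι → ℝ) (ν : Measure ℝ) : Prop where
  p_pos : ∀ i, 0 < p i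
  r_ne : ∀ i, r i ≠ 0
  r_lt : ∀ i, |r i| < 1
  eq : ν = ∑ i, ENNReal.ofReal (p i) • ν.map (fun x => r i * x + v i)

variable {ι : Type} [Fintype ι] {p r v : ι → ℝ} {ν : Measure ℝ}

lemma SSim.meas (r v : ι → ℝ) (i : ι) : Measurable fun x : ℝ => r i * x + v i := (measurable_id.const_mul _).add_const _

lemma SSim.lint (h : SSim p r v ν) {f : ℝ → ℝ≥0∞} (hf : Measurable f) :
    ∫⁻ x, f x ∂ν = ∑ i, ENNReal.ofReal (p i) * ∫⁻ x, f (r i * x + v i) ∂ν := by
  conv_lhs => rw [h.eq]
  rw [lintegral_finsetSum_measure]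
  refine Finset.sum_congr rfl fun i _ => ?_
  rw [lintegral_smul_measure, smul_eq_mul, lintegral_map hf (SSim.meas r v i)]

lemma SSim.psum [IsProbabilityMeasure ν] (h : SSim p r v ν) : ∑ i, p i = 1 := by
  have h1 := h.lint (f := fun _ => 1) measurable_const
  simp only [lintegral_const, measure_univ, mul_one] at h1
  rw [← ENNReal.ofReal_sum_of_nonneg (fun i _ => (h.p_pos i).le)] at h1
  have h3 : ENNReal.ofReal 1 = ENNReal.ofReal (∑ i, p i) := by rw [ENNReal.ofReal_one]; exact h1
  have h4 := congrArg ENNReal.toReal h3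
  rw [ENNReal.toReal_ofReal (by norm_num), ENNReal.toReal_ofReal (Finset.sum_nonneg fun i _ => (h.p_pos i).le)] at h4
  exact h4.symm

lemma SSim.nonempty [IsProbabilityMeasure ν] (h : SSim p r v ν) : Nonempty ι := by
  by_contra hc
  rw [not_nonempty_iff] at hc
  have := h.psum
  rw [Finset.univ_eq_empty, Finset.sum_empty] at this
  exact zero_ne_one this

/-- the constants of the iterated function system -/
lemma SSim.consts [IsProbabilityMeasure ν] (h : SSim p r v ν) : ∃ r0 r1 V : ℝ, 0 < r0 ∧ r1 < 1 ∧ 0 < r1 ∧ 0 ≤ V ∧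
    (∀ i, r0 ≤ |r i| ∧ |r i| ≤ r1) ∧ ∀ i, |v i| ≤ V := by
  have := h.nonempty
  obtain ⟨i0, _, h0⟩ := Finset.exists_min_image (univ : Finset ι) (fun i => |r i|) Finset.univ_nonempty
  obtain ⟨i1, _, h1⟩ := Finset.exists_max_image (univ : Finset ι) (fun i => |r i|) Finset.univ_nonempty
  obtain ⟨i2, _, h2⟩ := Finset.exists_max_image (univ : Finset ι) (fun i => |v i|) Finset.univ_nonempty
  exact ⟨|r i0|, |r i1|, |v i2|, abs_pos.2 (h.r_ne _), h.r_lt _, abs_pos.2 (h.r_ne _), abs_nonneg _,
    fun i => ⟨h0 i (Finset.mem_univ i), h1 i (Finset.mem_univ i)⟩, fun i => h2 i (Finset.mem_univ i)⟩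

/-- the measure has bounded support -/
lemma SSim.supp [IsProbabilityMeasure ν] (h : SSim p r v ν) {r1 V : ℝ} (hr1 : r1 < 1) (hr0 : 0 < r1)
    (hr : ∀ i, |r i| ≤ r1) (hv : ∀ i, |v i| ≤ V) : ∀ᵐ x ∂ν, |x| ≤ V / (1 - r1) + 1 := by
  have h1r : 0 < 1 - r1 := by linarith
  have hV : 0 ≤ V := by
    have := h.nonempty
    exact (abs_nonneg _).trans (hv this.some)
  obtain ⟨D1, hD1⟩ : ∃ D1, D1 = V / (1 - r1) := ⟨_, rfl⟩
  have hD2 : r1 * D1 + V = D1 := by
    rw [hD1]
    field_simp
    ring
  have hD0 : 0 ≤ D1 := by rw [hD1]; positivity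
  obtain ⟨A, hA⟩ : ∃ A : ℝ → Set ℝ, A = fun s => {x | D1 + s < |x|} := ⟨_, rfl⟩
  have hAm : ∀ s, MeasurableSet (A s) := by
    intro s
    rw [hA]
    exact measurableSet_lt measurable_const continuous_abs.measurable
  have hstep : ∀ s, 0 < s → ν (A s) ≤ ν (A (s / r1)) := by
    intro s hs
    have e1 := h.lint (f := (A s).indicator 1) (measurable_one.indicator (hAm s))
    rw [lintegral_indicator_one (hAm s)] at e1
    rw [e1]
    have e2 : ∀ i ∈ (univ : Finset ι), ENNReal.ofReal (p i) * ∫⁻ x, (A s).indicator 1 (r i * x + v i) ∂ν ≤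
        ENNReal.ofReal (p i) * ν (A (s / r1)) := by
      intro i _
      gcongr
      rw [← lintegral_indicator_one (hAm _)]
      refine lintegral_mono fun x => ?_
      by_cases hx : r i * x + v i ∈ A s
      · have hx2 : x ∈ A (s / r1) := by
          rw [hA] at hx ⊢
          have e3 : |r i * x + v i| ≤ r1 * |x| + V := by
            refine (abs_add_le _ _).trans (add_le_add ?_ (hv i))
            rw [abs_mul]
            exact mul_le_mul_of_nonneg_right (hr i) (abs_nonneg _)
          have e4 : D1 + s < |r i * x + v i| := hx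
          show D1 + s / r1 < |x|
          have e5 : r1 * (D1 + s / r1) < r1 * |x| := by
            rw [mul_add, mul_div_cancel₀ _ hr0.ne']
            linarith
          exact lt_of_mul_lt_mul_left e5 hr0.le
        rw [Set.indicator_of_mem hx, Set.indicator_of_mem hx2]
        exact le_rfl
      · rw [Set.indicator_of_notMem hx]
        exact zero_le
    refine (Finset.sum_le_sum e2).trans ?_
    rw [← Finset.sum_mul, ← ENNReal.ofReal_sum_of_nonneg (fun i _ => (h.p_pos i).le), h.psum, ENNReal.ofReal_one, one_mul]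
  have hn : ∀ n : ℕ, ν (A 1) ≤ ν (A ((1 / r1) ^ n)) := by
    intro n
    induction n with
    | zero => simp
    | succ n ih =>
      refine ih.trans ((hstep _ (by positivity)).trans (le_of_eq ?_))
      rw [pow_succ, mul_one_div]
  have hlim : Tendsto (fun n : ℕ => ν (A ((1 / r1) ^ n))) atTop (𝓝 0) := by
    have e1 : Antitone fun n : ℕ => A ((1 / r1) ^ n) := by
      intro m n hmn x hx
      rw [hA] at hx ⊢
      have e2 : (1 / r1) ^ m ≤ (1 / r1) ^ n := pow_le_pow_right₀ (by rw [le_div_iff₀ hr0]; linarith) hmn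
      have e3 : D1 + (1 / r1) ^ n < |x| := hx
      show D1 + (1 / r1) ^ m < |x|
      linarith
    have e2 := tendsto_measure_iInter_atTop (μ := ν) (fun n => (hAm ((1 / r1) ^ n)).nullMeasurableSet) e1
      ⟨0, measure_ne_top _ _⟩
    have e3 : ⋂ n : ℕ, A ((1 / r1) ^ n) = ∅ := by
      rw [Set.eq_empty_iff_forall_notMem]
      intro x hx
      rw [Set.mem_iInter] at hx
      obtain ⟨n, hn⟩ := pow_unbounded_of_one_lt (|x|) (show 1 < 1 / r1 by rw [lt_div_iff₀ hr0]; linarith)
      have e4 := hx n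
      rw [hA] at e4
      have e5 : D1 + (1 / r1) ^ n < |x| := e4
      linarith
    rw [e3, measure_empty] at e2
    exact e2
  have h0 : ν (A 1) = 0 := le_antisymm (ge_of_tendsto' hlim hn) zero_le
  rw [ae_iff]
  have e : {x : ℝ | ¬ |x| ≤ V / (1 - r1) + 1} = A 1 := by
    rw [hA, hD1]
    ext x
    simp only [Set.mem_ofPred_eq, not_le]
  rw [e]
  exact h0

/-- the decomposition at scale `s` -/
lemma SSim.dec [IsProbabilityMeasure ν] (h : SSim p r v ν) {r0 r1 V : ℝ} (h0 : 0 < r0) (hr1 : r1 < 1) (hr10 : 0 < r1)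
    (hV : 0 ≤ V) (hr : ∀ i, r0 ≤ |r i| ∧ |r i| ≤ r1) (hv : ∀ i, |v i| ≤ V) (n : ℕ) :
    ∀ s : ℝ, 0 < s → s ≤ 1 → r1 ^ n ≤ s → ∃ (W : Type) (_ : Fintype W) (P : W → ℝ≥0∞) (R U : W → ℝ),
      (∀ w, r0 * s ≤ |R w| ∧ |R w| ≤ s) ∧ (∀ w, |U w| ≤ V / (1 - r1)) ∧
      ∀ f : ℝ → ℝ≥0∞, Measurable f → ∫⁻ x, f x ∂ν = ∑ w, P w * ∫⁻ x, f (R w * x + U w) ∂ν := by
  have h1r : 0 < 1 - r1 := by linarith
  have hr01 : r0 ≤ 1 := by
    have := h.nonempty
    have h2 := hr this.some
    linarith
  have hD : 0 ≤ V / (1 - r1) := by positivity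
  have triv : ∃ (W : Type) (_ : Fintype W) (P : W → ℝ≥0∞) (R U : W → ℝ),
      (∀ w, r0 * 1 ≤ |R w| ∧ |R w| ≤ 1) ∧ (∀ w, |U w| ≤ V / (1 - r1)) ∧
      ∀ f : ℝ → ℝ≥0∞, Measurable f → ∫⁻ x, f x ∂ν = ∑ w, P w * ∫⁻ x, f (R w * x + U w) ∂ν := by
    refine ⟨Unit, inferInstance, fun _ => 1, fun _ => 1, fun _ => 0, ?_, ?_, ?_⟩
    · intro _
      rw [abs_one]
      exact ⟨by linarith, le_rfl⟩
    · intro _
      rw [abs_zero]
      exact hD
    · intro f _
      simp
  induction n with
  | zero =>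
    intro s hs hs1 hs2
    rw [pow_zero] at hs2
    have : s = 1 := le_antisymm hs1 hs2
    rw [this]
    exact triv
  | succ n ih =>
    intro s hs hs1 hs2
    rcases eq_or_lt_of_le hs1 with h1 | h1
    · rw [h1]
      exact triv
    have key : ∀ i : ι, ∃ (W : Type) (_ : Fintype W) (P : W → ℝ≥0∞) (R U : W → ℝ),
      (∀ w, r0 * s ≤ |R w| ∧ |R w| ≤ s) ∧ (∀ w, |U w| ≤ V / (1 - r1)) ∧
      ∀ f : ℝ → ℝ≥0∞, Measurable f → ∫⁻ x, f (r i * x + v i) ∂ν = ∑ w, P w * ∫⁻ x, f (R w * x + U w) ∂ν := by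
      intro i
      by_cases hi : |r i| ≤ s
      · refine ⟨Unit, inferInstance, fun _ => 1, fun _ => r i, fun _ => v i, ?_, ?_, ?_⟩
        · intro _
          exact ⟨(mul_le_of_le_one_right h0.le hs1).trans (hr i).1, hi⟩
        · intro _
          refine (hv i).trans ?_
          rw [le_div_iff₀ h1r]
          nlinarith
        · intro f _
          simp
      · push Not at hi
        have hi0 : 0 < |r i| := lt_trans hs hi
        obtain ⟨W, iW, P, R, U, hR, hU, hrep⟩ := ih (s / |r i|) (by positivity) (by rw [div_le_one hi0]; exact hi.le) (by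
          rw [le_div_iff₀ hi0]
          calc r1 ^ n * |r i| ≤ r1 ^ n * r1 := mul_le_mul_of_nonneg_left (hr i).2 (by positivity)
            _ = r1 ^ (n + 1) := (pow_succ _ _).symm
            _ ≤ s := hs2)
        refine ⟨W, iW, P, fun w => r i * R w, fun w => r i * U w + v i, ?_, ?_, ?_⟩
        · intro w
          have h2 := hR w
          rw [abs_mul]
          constructor
          · calc r0 * s = |r i| * (r0 * (s / |r i|)) := by field_simp
              _ ≤ |r i| * |R w| := mul_le_mul_of_nonneg_left h2.1 hi0.le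
          · calc |r i| * |R w| ≤ |r i| * (s / |r i|) := mul_le_mul_of_nonneg_left h2.2 hi0.le
              _ = s := by field_simp
        · intro w
          refine (abs_add_le _ _).trans ?_
          rw [abs_mul]
          have h3 : |r i| * |U w| ≤ r1 * (V / (1 - r1)) := mul_le_mul (hr i).2 (hU w) (abs_nonneg _) hr10.le
          have h4 : r1 * (V / (1 - r1)) + V = V / (1 - r1) := by
            field_simp
            ring
          linarith [hv i]
        · intro f hf
          rw [hrep (fun x => f (r i * x + v i)) (hf.comp (SSim.meas r v i))]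
          refine Finset.sum_congr rfl fun w _ => ?_
          congr 1
          refine lintegral_congr fun x => ?_
          congr 1
          ring
    choose W iW P R U hR hU hrep using key
    refine ⟨Σ i, W i, inferInstance, fun z => ENNReal.ofReal (p z.1) * P z.1 z.2, fun z => R z.1 z.2, fun z => U z.1 z.2,
      fun z => hR z.1 z.2, fun z => hU z.1 z.2, ?_⟩
    intro f hf
    rw [h.lint hf, Fintype.sum_sigma]
    refine Finset.sum_congr rfl fun i _ => ?_
    rw [hrep i f hf, Finset.mul_sum]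
    refine Finset.sum_congr rfl fun w _ => ?_
    rw [mul_assoc]

/-- the layers of a self-similar measure -/
theorem SSim.pre [IsProbabilityMeasure ν] (h : SSim p r v ν) {q : ℝ} {T : ℕ → ℝ} (hF : Few q T ν) :
    ∃ (T' : ℕ → ℝ) (D : ℝ), 0 ≤ D ∧ ∀ G, Pre 2 q T' D G ν := by
  obtain ⟨r0, r1, V, h0, hr1, hr10, hV, hr, hv⟩ := h.consts
  have h1r : 0 < 1 - r1 := by linarith
  have hsupp := h.supp hr1 hr10 (fun i => (hr i).2) hv
  refine ⟨fun K => max (T K) 0 / r0, V / (1 - r1) + 1, by positivity, ?_⟩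
  intro G
  obtain ⟨n, hn⟩ := exists_pow_lt_of_lt_one (show (0 : ℝ) < 1 / 2 ^ G by positivity) hr1
  obtain ⟨W, iW, P, R, U, hR, hU, hrep⟩ := h.dec h0 hr1 hr10 hV hr hv n (1 / 2 ^ G) (by positivity) (by
    rw [div_le_one (by positivity)]
    exact one_le_pow₀ (by norm_num)) hn.le
  have h2G : (0 : ℝ) < 2 ^ G := by positivity
  have hsc : ∀ w, r0 ≤ |2 ^ G * R w| ∧ |2 ^ G * R w| ≤ 1 := by
    intro w
    have h3 := hR w
    rw [abs_mul, abs_of_pos h2G]
    constructor
    · have := mul_le_mul_of_nonneg_left h3.1 h2G.le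
      have h4 : (2 : ℝ) ^ G * (r0 * (1 / 2 ^ G)) = r0 := by field_simp
      linarith
    · have := mul_le_mul_of_nonneg_left h3.2 h2G.le
      have h4 : (2 : ℝ) ^ G * (1 / 2 ^ G) = 1 := by field_simp
      linarith
  let mW : MeasurableSpace W := ⊤
  refine ⟨W, mW, ∑ w, P w • Measure.dirac w, U, fun w => ν.map fun x => 2 ^ G * R w * x, ?_, ?_, ?_, ?_, ?_⟩
  · intro w
    exact (hU w).trans (by linarith)
  · intro w
    exact Measure.isProbabilityMeasure_map (measurable_const_mul _).aemeasurable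
  · intro w
    rw [ae_map_iff (measurable_const_mul _).aemeasurable (measurableSet_le continuous_abs.measurable measurable_const)]
    filter_upwards [hsupp] with x hx
    rw [abs_mul]
    calc |2 ^ G * R w| * |x| ≤ 1 * (V / (1 - r1) + 1) := mul_le_mul (hsc w).2 hx (abs_nonneg _) (by norm_num)
      _ = _ := one_mul _
  · intro w
    exact few_scale hF h0 (hsc w).1
  · intro f hf
    rw [hrep f hf, lintegral_finsetSum_measure]
    refine Finset.sum_congr rfl fun w _ => ?_
    rw [lintegral_smul_measure, smul_eq_mul, lintegral_dirac' _ (measurable_from_top)]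
    congr 1
    rw [lintegral_map]
    · refine lintegral_congr fun x => ?_
      congr 1
      field_simp
      ring
    · exact hf.comp ((measurable_id.div_const _).const_add _)
    · exact measurable_const_mul _

end Pool.Agent.J4H75.CN
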