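import Pool.Agent.J4H75.CN.Four

set_option autoImplicit false

/-! Atoms of self-similar measures and Wiener's lemma. -/

namespace Pool.Agent.J4H75.CN

open MeasureTheory Finset Filter Topology
open scoped Real ENNReal ComplexConjugate
open Pool.Agent.J4H75.PN (ee norm_ee ee_add)
open Pool.Agent.J4H40.Ca (ee_cont ee_conj)

variable {ι : Type} [Fintype ι] {p r v : ι → ℝ} {ν : Measure ℝ}

lemma SSim.point [IsProbabilityMeasure ν] (h : SSim p r v ν) (a : ℝ) :
    ν.real {a} = ∑ i, p i * ν.real {(a - v i) / r i} := by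
  have h1 := h.lint (f := Set.indicator {a} 1) (measurable_one.indicator (measurableSet_singleton a))
  rw [lintegral_indicator_one (measurableSet_singleton a)] at h1
  have h2 : ∀ i, ∫⁻ x, Set.indicator {a} (1 : ℝ → ℝ≥0∞) (r i * x + v i) ∂ν = ν {(a - v i) / r i} := by
    intro i
    rw [← lintegral_indicator_one (measurableSet_singleton _)]
    refine lintegral_congr fun x => ?_
    have h3 : (r i * x + v i = a) ↔ (x = (a - v i) / r i) := by
      have := h.r_ne i
      rw [eq_div_iff this]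
      constructor <;> intro h4 <;> linarith
    by_cases hx : r i * x + v i = a
    · rw [Set.indicator_of_mem (show r i * x + v i ∈ ({a} : Set ℝ) from hx),
        Set.indicator_of_mem (show x ∈ ({(a - v i) / r i} : Set ℝ) from h3.1 hx)]
      rfl
    · rw [Set.indicator_of_notMem (show r i * x + v i ∉ ({a} : Set ℝ) from hx),
        Set.indicator_of_notMem (show x ∉ ({(a - v i) / r i} : Set ℝ) from fun h4 => hx (h3.2 h4))]
  simp only [h2] at h1
  unfold Measure.real
  rw [h1, ENNReal.toReal_sum]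
  · refine Finset.sum_congr rfl fun i _ => ?_
    rw [ENNReal.toReal_mul, ENNReal.toReal_ofReal (h.p_pos i).le]
  · intro i _
    exact ENNReal.mul_ne_top ENNReal.ofReal_ne_top (measure_ne_top _ _)

/-- a self-similar measure that is not a point mass has no atoms -/
theorem SSim.no_atoms [IsProbabilityMeasure ν] (h : SSim p r v ν) (hne : ∃ i j, v i * (1 - r j) ≠ v j * (1 - r i))
    (a : ℝ) : ν {a} = 0 := by
  by_contra ha
  have hm0 : 0 < ν.real {a} := by
    unfold Measure.real
    exact ENNReal.toReal_pos ha (measure_ne_top _ _)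
  obtain ⟨m0, hm0'⟩ : ∃ m0, m0 = ν.real {a} := ⟨_, rfl⟩
  rw [← hm0'] at hm0
  obtain ⟨A, hA⟩ : ∃ A : Set ℝ, A = {x | m0 ≤ ν.real {x}} := ⟨_, rfl⟩
  have hAf : A.Finite := by
    by_contra hinf
    obtain ⟨N, hN⟩ := exists_nat_gt (1 / m0)
    obtain ⟨F, hF1, hF2⟩ := Set.Infinite.exists_subset_card_eq hinf N
    have h1 : (N : ℝ) * m0 ≤ ν.real (F : Set ℝ) := by
      have h2 : ν.real (F : Set ℝ) = ∑ x ∈ F, ν.real {x} := (sum_measureReal_singleton F).symm
      rw [h2, ← hF2, ← nsmul_eq_mul, ← Finset.sum_const]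
      refine Finset.sum_le_sum fun x hx => ?_
      have := hF1 hx
      rw [hA] at this
      exact this
    have h2 : ν.real (F : Set ℝ) ≤ 1 := measureReal_le_one
    rw [div_lt_iff₀ hm0] at hN
    linarith
  have hane : hAf.toFinset.Nonempty := ⟨a, by rw [Set.Finite.mem_toFinset, hA]; exact hm0'.le⟩
  obtain ⟨a1, ha1, hmax⟩ := hAf.toFinset.exists_max_image (fun x => ν.real {x}) hane
  rw [Set.Finite.mem_toFinset] at ha1
  obtain ⟨m1, hm1⟩ : ∃ m1, m1 = ν.real {a1} := ⟨_, rfl⟩
  have hm01 : m0 ≤ m1 := by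
    rw [hm1]
    rw [hA] at ha1
    exact ha1
  have hmax2 : ∀ x, ν.real {x} ≤ m1 := by
    intro x
    by_cases hx : m0 ≤ ν.real {x}
    · rw [hm1]
      exact hmax x (by rw [Set.Finite.mem_toFinset, hA]; exact hx)
    · push Not at hx
      linarith
  obtain ⟨A1, hA1⟩ : ∃ A1 : Finset ℝ, A1 = hAf.toFinset.filter fun x => ν.real {x} = m1 := ⟨_, rfl⟩
  have hA1m : ∀ x, x ∈ A1 ↔ ν.real {x} = m1 := by
    intro x
    rw [hA1, Finset.mem_filter, Set.Finite.mem_toFinset, hA]
    constructor
    · exact fun h => h.2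
    · intro h
      exact ⟨by rw [Set.mem_ofPred_eq, h]; exact hm01, h⟩
  have hinv : ∀ x ∈ A1, ∀ i, (x - v i) / r i ∈ A1 := by
    intro x hx i
    rw [hA1m] at hx ⊢
    have h1 := h.point x
    rw [hx] at h1
    have h2 : ∑ j, p j * (m1 - ν.real {(x - v j) / r j}) = 0 := by
      simp only [mul_sub]
      rw [Finset.sum_sub_distrib, ← Finset.sum_mul, h.psum, one_mul, ← h1, sub_self]
    have h3 := (Finset.sum_eq_zero_iff_of_nonneg (fun j _ => mul_nonneg (h.p_pos j).le (sub_nonneg.2 (hmax2 _)))).1 h2 i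
      (Finset.mem_univ i)
    rcases mul_eq_zero.1 h3 with h4 | h4
    · exact absurd h4 (h.p_pos i).ne'
    · linarith
  have ha1m : a1 ∈ A1 := by rw [hA1m, hm1]
  obtain ⟨z, hz, hzm⟩ := (A1 ×ˢ A1).exists_max_image (fun z => |z.1 - z.2|) ⟨(a1, a1), Finset.mem_product.2 ⟨ha1m, ha1m⟩⟩
  rw [Finset.mem_product] at hz
  obtain ⟨i0, j0, hij⟩ := hne
  have hz0 : |z.1 - z.2| = 0 := by
    have h1 := hzm ((z.1 - v i0) / r i0, (z.2 - v i0) / r i0)
      (Finset.mem_product.2 ⟨hinv _ hz.1 i0, hinv _ hz.2 i0⟩)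
    simp only at h1
    have h2 : (z.1 - v i0) / r i0 - (z.2 - v i0) / r i0 = (z.1 - z.2) / r i0 := by ring
    have h3 : 0 < |r i0| := abs_pos.2 (h.r_ne i0)
    rw [h2, abs_div, div_le_iff₀ h3] at h1
    have h4 := h.r_lt i0
    have h5 := abs_nonneg (z.1 - z.2)
    nlinarith
  have hall : ∀ x ∈ A1, x = a1 := by
    intro x hx
    have h1 := hzm (x, a1) (Finset.mem_product.2 ⟨hx, ha1m⟩)
    simp only at h1
    rw [hz0] at h1
    have h2 := abs_nonneg (x - a1)
    have h3 : |x - a1| = 0 := le_antisymm h1 h2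
    linarith [abs_eq_zero.1 h3]
  have hfix : ∀ i, v i = a1 * (1 - r i) := by
    intro i
    have h1 := hall _ (hinv a1 ha1m i)
    rw [div_eq_iff (h.r_ne i)] at h1
    linarith
  apply hij
  rw [hfix i0, hfix j0]
  ring

lemma Qf_cont [IsProbabilityMeasure ν] : Continuous (Qf ν) := by
  unfold Qf
  apply Continuous.norm
  apply continuous_of_dominated (bound := fun _ => (1 : ℝ))
  · intro t
    exact (ee_cont.comp (continuous_const.mul continuous_id)).aestronglyMeasurable
  · intro t
    filter_upwards with x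
    rw [norm_ee]
  · exact integrable_const _
  · filter_upwards with x
    exact ee_cont.comp (continuous_id.mul continuous_const)

lemma Qf_sq [IsProbabilityMeasure ν] (t : ℝ) : ((Qf ν t ^ 2 : ℝ) : ℂ) = ∫ z, ee (t * (z.1 - z.2)) ∂(ν.prod ν) := by
  have h1 : ∀ z : ℝ × ℝ, ee (t * (z.1 - z.2)) = ee (t * z.1) * conj (ee (t * z.2)) := by
    intro z
    rw [ee_conj, ← ee_add]
    congr 1
    ring
  simp only [h1]
  rw [integral_prod_mul (fun x => ee (t * x)) (fun x => conj (ee (t * x))), integral_conj]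
  have h2 := RCLike.mul_conj (∫ x, ee (t * x) ∂ν)
  rw [h2]
  unfold Qf
  push_cast
  rfl

lemma ee_int_le (T z : ℝ) (hz : z ≠ 0) : ‖∫ t in (0 : ℝ)..T, ee (t * z)‖ ≤ 1 / |z| := by
  obtain ⟨c, hc⟩ : ∃ c : ℂ, c = 2 * π * Complex.I * z := ⟨_, rfl⟩
  have hc0 : c ≠ 0 := by
    rw [hc]
    simp [Real.pi_ne_zero, hz]
  have h1 : ∀ t : ℝ, ee (t * z) = Complex.exp (c * t) := by
    intro t
    unfold ee
    rw [hc]
    congr 1
    push_cast
    ring
  simp only [h1]
  rw [integral_exp_mul_complex hc0, norm_div]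
  have h2 : ‖c‖ = 2 * π * |z| := by
    rw [hc]
    simp [abs_of_pos Real.pi_pos]
  have h3 : ∀ s : ℝ, ‖Complex.exp (c * s)‖ = 1 := by
    intro s
    rw [← h1, norm_ee]
  have h4 : ‖Complex.exp (c * (T : ℂ)) - Complex.exp (c * ((0 : ℝ) : ℂ))‖ ≤ 2 := by
    refine (norm_sub_le _ _).trans ?_
    rw [h3, h3]
    norm_num
  rw [h2]
  have hz0 : 0 < |z| := abs_pos.2 hz
  have hpi : 3 < π := Real.pi_gt_three
  calc ‖Complex.exp (c * (T : ℂ)) - Complex.exp (c * ((0 : ℝ) : ℂ))‖ / (2 * π * |z|) ≤ 2 / (2 * π * |z|) := by gcongr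
    _ ≤ 1 / |z| := by
        rw [div_le_div_iff₀ (by positivity) hz0]
        nlinarith

/-- Wiener's lemma -/
theorem wiener [IsProbabilityMeasure ν] (hna : ∀ a : ℝ, ν {a} = 0) :
    Tendsto (fun T : ℝ => (1 / T) * ∫ t in (0 : ℝ)..T, Qf ν t ^ 2) atTop (𝓝 0) := by
  have hc2 : Continuous fun w : ℝ × (ℝ × ℝ) => ee (w.1 * (w.2.1 - w.2.2)) := by
    apply ee_cont.comp
    fun_prop
  have h1 : ∀ T : ℝ, 0 < T → (((1 / T) * ∫ t in (0 : ℝ)..T, Qf ν t ^ 2 : ℝ) : ℂ) =
      ∫ z : ℝ × ℝ, ((1 / T : ℂ) * ∫ t in (0 : ℝ)..T, ee (t * (z.1 - z.2))) ∂(ν.prod ν) := by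
    intro T hT
    push_cast
    rw [← intervalIntegral.integral_ofReal]
    simp only [Qf_sq]
    rw [integral_const_mul]
    congr 1
    rw [intervalIntegral.integral_of_le hT.le]
    rw [integral_integral_swap]
    · refine integral_congr_ae ?_
      filter_upwards with z
      rw [intervalIntegral.integral_of_le hT.le]
    · apply Integrable.of_bound (C := 1)
      · exact hc2.aestronglyMeasurable
      · filter_upwards with w
        simp only [Function.uncurry]
        rw [norm_ee]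
  have h2 : Tendsto (fun T : ℝ => ∫ z : ℝ × ℝ, ((1 / T : ℂ) * ∫ t in (0 : ℝ)..T, ee (t * (z.1 - z.2))) ∂(ν.prod ν)) atTop (𝓝 0) := by
    have h3 : Tendsto (fun T : ℝ => ∫ z : ℝ × ℝ, ((1 / T : ℂ) * ∫ t in (0 : ℝ)..T, ee (t * (z.1 - z.2))) ∂(ν.prod ν)) atTop
        (𝓝 (∫ z : ℝ × ℝ, (0 : ℂ) ∂(ν.prod ν))) := by
      apply tendsto_integral_filter_of_dominated_convergence (fun _ => (1 : ℝ))
      · filter_upwards [eventually_gt_atTop 0] with T hT
        apply Continuous.aestronglyMeasurable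
        apply continuous_const.mul
        apply intervalIntegral.continuous_parametric_intervalIntegral_of_continuous'
        have : (Function.uncurry fun (z : ℝ × ℝ) (t : ℝ) => ee (t * (z.1 - z.2))) =
            fun w : (ℝ × ℝ) × ℝ => ee (w.2 * (w.1.1 - w.1.2)) := rfl
        rw [this]
        apply ee_cont.comp
        fun_prop
      · filter_upwards [eventually_gt_atTop 0] with T hT
        filter_upwards with z
        rw [norm_mul]
        have h4 : ‖∫ t in (0 : ℝ)..T, ee (t * (z.1 - z.2))‖ ≤ 1 * |T - 0| :=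
          intervalIntegral.norm_integral_le_of_norm_le_const fun t _ => by rw [norm_ee]
        rw [sub_zero, one_mul, abs_of_pos hT] at h4
        have h5 : ‖(1 / T : ℂ)‖ = 1 / T := by
          rw [norm_div, norm_one, Complex.norm_real, Real.norm_eq_abs, abs_of_pos hT]
        rw [h5]
        calc 1 / T * ‖∫ t in (0 : ℝ)..T, ee (t * (z.1 - z.2))‖ ≤ 1 / T * T := mul_le_mul_of_nonneg_left h4 (by positivity)
          _ = 1 := by field_simp
      · exact integrable_const _
      · have hdiag : ∀ᵐ z ∂(ν.prod ν), z.1 ≠ z.2 := by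
          have hm : MeasurableSet {z : ℝ × ℝ | z.1 = z.2} := measurableSet_eq_fun measurable_fst measurable_snd
          rw [ae_iff]
          simp only [ne_eq, not_not]
          rw [Measure.prod_apply hm]
          have : ∀ x : ℝ, ν (Prod.mk x ⁻¹' {z : ℝ × ℝ | z.1 = z.2}) = 0 := by
            intro x
            have e : Prod.mk x ⁻¹' {z : ℝ × ℝ | z.1 = z.2} = {x} := by
              ext y
              simp only [Set.mem_preimage, Set.mem_ofPred_eq, Set.mem_singleton_iff]
              exact eq_comm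
            rw [e, hna]
          simp only [this, lintegral_zero]
        filter_upwards [hdiag] with z hz
        have hz0 : z.1 - z.2 ≠ 0 := sub_ne_zero.2 hz
        rw [tendsto_zero_iff_norm_tendsto_zero]
        have t1 : Tendsto (fun T : ℝ => 1 / T * (1 / |z.1 - z.2|)) atTop (𝓝 0) := by
          have := (tendsto_const_nhds (x := (1 : ℝ))).div_atTop (tendsto_id (α := ℝ) (x := atTop))
          have h6 := this.mul_const (1 / |z.1 - z.2|)
          rw [zero_mul] at h6
          exact h6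
        refine squeeze_zero' (Eventually.of_forall fun _ => norm_nonneg _) ?_ t1
        filter_upwards [eventually_gt_atTop 0] with T hT
        rw [norm_mul]
        have h5 : ‖(1 / T : ℂ)‖ = 1 / T := by
          rw [norm_div, norm_one, Complex.norm_real, Real.norm_eq_abs, abs_of_pos hT]
        rw [h5]
        exact mul_le_mul_of_nonneg_left (ee_int_le T _ hz0) (by positivity)
    rw [integral_zero] at h3
    exact h3
  have h3 : Tendsto (fun T : ℝ => (((1 / T) * ∫ t in (0 : ℝ)..T, Qf ν t ^ 2 : ℝ) : ℂ)) atTop (𝓝 ((0 : ℝ) : ℂ)) := by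
    rw [Complex.ofReal_zero]
    refine h2.congr' ?_
    filter_upwards [eventually_gt_atTop 0] with T hT
    exact (h1 T hT).symm
  exact (Complex.continuous_re.tendsto _).comp h3 |>.congr fun T => by simp

end Pool.Agent.J4H75.CN
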